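import Pool.Agent.H598.DG.Levels

/-!
# Ternary diagonal forms over finite fields
-/

namespace Pool.Agent.H598.DG

open Finset

variable {K : Type*} [Field K] [Fintype K]

/-- The exponential sum. -/
noncomputable def S1 (ψ : AddChar K ℂ) (k : ℕ) (β : K) : ℂ := ∑ x : K, ψ (β * x ^ k)

lemma card_pow_eq {k : ℕ} (hk : 0 < k) (w : K) [DecidableEq K] :
    (Finset.univ.filter (fun y : K => y ^ k = w)).card ≤ k := by
  have h1 : Finset.univ.filter (fun y : K => y ^ k = w) ⊆ (Polynomial.nthRoots k w).toFinset := by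
    intro y hy
    rw [Multiset.mem_toFinset, Polynomial.mem_nthRoots hk]
    exact (Finset.mem_filter.1 hy).2
  refine le_trans (Finset.card_le_card h1) ?_
  exact le_trans (Multiset.toFinset_card_le _) (Polynomial.card_nthRoots k w)

lemma S1_moment {ψ : AddChar K ℂ} (hψ : ψ ≠ 1) {k : ℕ} (hk : 0 < k) :
    ∑ β : K, ‖S1 ψ k β‖ ^ 2 ≤ k * (Fintype.card K : ℝ) ^ 2 := by
  classical
  have hp := AddChar.IsPrimitive.of_ne_one hψ
  have h1 : ((∑ β : K, ‖S1 ψ k β‖ ^ 2 : ℝ) : ℂ)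
      = ∑ x : K, ∑ y : K, if x ^ k - y ^ k = 0 then (Fintype.card K : ℂ) else 0 := by
    push_cast
    have h2 : ∀ β : K, ((‖S1 ψ k β‖ : ℂ)) ^ 2 = ∑ x : K, ∑ y : K, ψ (β * (x ^ k - y ^ k)) := by
      intro β
      have e1 : ((‖S1 ψ k β‖ : ℂ)) ^ 2 = S1 ψ k β * (starRingEnd ℂ) (S1 ψ k β) := by
        rw [Complex.mul_conj, Complex.normSq_eq_norm_sq]; push_cast; rfl
      rw [e1]
      unfold S1
      rw [map_sum, Finset.sum_mul]
      apply Finset.sum_congr rfl
      intro x _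
      rw [Finset.mul_sum]
      apply Finset.sum_congr rfl
      intro y _
      rw [← AddChar.map_neg_eq_conj, ← AddChar.map_add_eq_mul]
      congr 1
      ring
    rw [Finset.sum_congr rfl (fun β _ => h2 β), Finset.sum_comm]
    apply Finset.sum_congr rfl
    intro x _
    rw [Finset.sum_comm]
    apply Finset.sum_congr rfl
    intro y _
    have := AddChar.sum_mulShift (x ^ k - y ^ k) hp
    rw [this]
    split_ifs <;> simp
  have h3 : ∑ x : K, ∑ y : K, (if x ^ k - y ^ k = 0 then (Fintype.card K : ℝ) else 0)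
      ≤ k * (Fintype.card K : ℝ) ^ 2 := by
    have h4 : ∀ x : K, ∑ y : K, (if x ^ k - y ^ k = 0 then (Fintype.card K : ℝ) else 0)
        ≤ k * (Fintype.card K : ℝ) := by
      intro x
      rw [← Finset.sum_filter, Finset.sum_const, nsmul_eq_mul]
      apply mul_le_mul_of_nonneg_right _ (by positivity)
      have h5 := card_pow_eq hk (x ^ k) (K := K)
      have h6 : Finset.univ.filter (fun y : K => x ^ k - y ^ k = 0)
          = Finset.univ.filter (fun y : K => y ^ k = x ^ k) := by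
        ext y
        simp only [Finset.mem_filter, Finset.mem_univ, true_and]
        rw [sub_eq_zero]
        exact eq_comm
      rw [h6]
      exact_mod_cast h5
    refine le_trans (Finset.sum_le_sum (fun x _ => h4 x)) ?_
    rw [Finset.sum_const, Finset.card_univ, nsmul_eq_mul]
    apply le_of_eq; ring
  have h7 : ∑ β : K, ‖S1 ψ k β‖ ^ 2
      = ∑ x : K, ∑ y : K, (if x ^ k - y ^ k = 0 then (Fintype.card K : ℝ) else 0) := by
    have : ((∑ β : K, ‖S1 ψ k β‖ ^ 2 : ℝ) : ℂ)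
      = ((∑ x : K, ∑ y : K, (if x ^ k - y ^ k = 0 then (Fintype.card K : ℝ) else 0) : ℝ) : ℂ) := by
      rw [h1]
      push_cast
      apply Finset.sum_congr rfl
      intro x _
      apply Finset.sum_congr rfl
      intro y _
      split_ifs <;> simp
    exact_mod_cast this
  rw [h7]
  exact h3

lemma S1_scale (ψ : AddChar K ℂ) (k : ℕ) (β : K) {u : K} (hu : u ≠ 0) :
    S1 ψ k (β * u ^ k) = S1 ψ k β := by
  unfold S1
  rw [← Equiv.sum_comp (Equiv.mulLeft₀ u hu) (fun x => ψ (β * x ^ k))]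
  apply Finset.sum_congr rfl
  intro x _
  change ψ (β * u ^ k * x ^ k) = ψ (β * (u * x) ^ k)
  congr 1
  ring

/-- The sum over the scaled arguments. -/
lemma S1_sum_mul (ψ : AddChar K ℂ) (k : ℕ) {b : K} (hb : b ≠ 0) :
    ∑ β : K, ‖S1 ψ k (β * b)‖ ^ 2 = ∑ β : K, ‖S1 ψ k β‖ ^ 2 := by
  exact Equiv.sum_comp (Equiv.mulRight₀ b hb) (fun β => ‖S1 ψ k β‖ ^ 2)

/-- The supremum bound. -/
lemma S1_sup {ψ : AddChar K ℂ} (hψ : ψ ≠ 1) {k : ℕ} (hk : 0 < k) {β : K} (hβ : β ≠ 0)
    (hQ : 8 * k ^ 4 ≤ Fintype.card K) : ‖S1 ψ k β‖ ≤ (Fintype.card K : ℝ) / (2 * k) := by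
  classical
  set Q : ℝ := (Fintype.card K : ℝ) with hQdef
  have hk1 : (1 : ℝ) ≤ k := by exact_mod_cast hk
  have hQ8 : 8 * (k : ℝ) ^ 4 ≤ Q := by rw [hQdef]; exact_mod_cast hQ
  have hk4 : (1 : ℝ) ≤ (k : ℝ) ^ 4 := one_le_pow₀ hk1
  have hQ2 : 2 ≤ Q := by linarith
  have h1 : ∑ u ∈ Finset.univ.erase (0 : K), ‖S1 ψ k (β * u ^ k)‖ ^ 2
      = (Q - 1) * ‖S1 ψ k β‖ ^ 2 := by
    rw [Finset.sum_congr rfl (g := fun _ => ‖S1 ψ k β‖ ^ 2)]
    · rw [Finset.sum_const, Finset.card_erase_of_mem (Finset.mem_univ _), Finset.card_univ,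
        nsmul_eq_mul]
      congr 1
      rw [Nat.cast_sub Fintype.card_pos]
      simp [hQdef]
    · intro u hu
      rw [S1_scale ψ k β (Finset.ne_of_mem_erase hu)]
  have h2 := sum_fiber_le (Finset.univ.erase (0 : K)) (fun u => β * u ^ k)
    (fun γ => ‖S1 ψ k γ‖ ^ 2) (fun γ => by positivity) (k : ℝ) (by
      intro γ
      have h3 : ((Finset.univ.erase (0 : K)).filter (fun u => β * u ^ k = γ)).card ≤ k := by
        refine le_trans (Finset.card_le_card ?_) (card_pow_eq hk (γ / β))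
        intro u hu
        rw [Finset.mem_filter] at hu ⊢
        refine ⟨Finset.mem_univ _, ?_⟩
        rw [eq_div_iff hβ, mul_comm]
        exact hu.2
      have h4 : (((Finset.univ.erase (0 : K)).filter (fun u => β * u ^ k = γ)).card : ℝ) ≤ (k : ℝ)
        := by exact_mod_cast h3
      convert h4)
  rw [h1] at h2
  have h3 := S1_moment hψ hk (K := K)
  rw [← hQdef] at h3
  have h5 : (Q - 1) * ‖S1 ψ k β‖ ^ 2 ≤ k * (k * Q ^ 2) :=
    le_trans h2 (mul_le_mul_of_nonneg_left h3 (by positivity))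
  have h6 : ‖S1 ψ k β‖ ^ 2 ≤ 2 * k ^ 2 * Q := by
    have h7 : Q / 2 ≤ Q - 1 := by linarith
    have h8 : Q / 2 * ‖S1 ψ k β‖ ^ 2 ≤ Q / 2 * (2 * k ^ 2 * Q) := by
      calc Q / 2 * ‖S1 ψ k β‖ ^ 2 ≤ (Q - 1) * ‖S1 ψ k β‖ ^ 2 :=
            mul_le_mul_of_nonneg_right h7 (by positivity)
        _ ≤ k * (k * Q ^ 2) := h5
        _ = _ := by ring
    exact le_of_mul_le_mul_left h8 (by linarith)
  apply abs_le_of_sq_le_sq' _ (by positivity) |>.2
  rw [div_pow, le_div_iff₀ (by positivity)]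
  calc ‖S1 ψ k β‖ ^ 2 * (2 * k) ^ 2 ≤ (2 * k ^ 2 * Q) * (2 * k) ^ 2 :=
        mul_le_mul_of_nonneg_right h6 (by positivity)
    _ = (8 * k ^ 4) * Q := by ring
    _ ≤ Q * Q := mul_le_mul_of_nonneg_right hQ8 (by linarith)
    _ = Q ^ 2 := by ring

/-- A ternary diagonal form over a large finite field has a non-trivial zero. -/
theorem fin3 {k : ℕ} (hk : 0 < k) (hQ : 8 * k ^ 4 ≤ Fintype.card K) {a b c : K} (ha : a ≠ 0)
    (hb : b ≠ 0) (hc : c ≠ 0) :
    ∃ x y z : K, ¬ (x = 0 ∧ y = 0 ∧ z = 0) ∧ a * x ^ k + b * y ^ k + c * z ^ k = 0 := by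
  classical
  obtain ⟨ψ, hψ⟩ : ∃ ψ : AddChar K ℂ, ψ ≠ 1 := by
    obtain ⟨ψ, hψ⟩ := (AddChar.exists_apply_ne_zero (α := K) (a := 1)).2 one_ne_zero
    exact ⟨ψ, fun h => hψ (by rw [h]; rfl)⟩
  have hp := AddChar.IsPrimitive.of_ne_one hψ
  by_contra hcon
  push Not at hcon
  set Q : ℝ := (Fintype.card K : ℝ) with hQdef
  have hk1 : (1 : ℝ) ≤ k := by exact_mod_cast hk
  have hQ8 : 8 * (k : ℝ) ^ 4 ≤ Q := by rw [hQdef]; exact_mod_cast hQ
  have hk4 : (1 : ℝ) ≤ (k : ℝ) ^ 4 := one_le_pow₀ hk1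
  have hQ2 : 8 ≤ Q := by linarith
  -- the total sum
  have h1 : ∑ β : K, S1 ψ k (β * a) * S1 ψ k (β * b) * S1 ψ k (β * c) = (Q : ℂ) := by
    have h2 : ∀ β : K, S1 ψ k (β * a) * S1 ψ k (β * b) * S1 ψ k (β * c)
        = ∑ x : K, ∑ y : K, ∑ z : K, ψ (β * (a * x ^ k + b * y ^ k + c * z ^ k)) := by
      intro β
      unfold S1
      rw [Finset.sum_mul_sum, Finset.sum_mul]
      apply Finset.sum_congr rfl
      intro x _
      rw [Finset.sum_mul]
      apply Finset.sum_congr rfl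
      intro y _
      rw [Finset.mul_sum]
      apply Finset.sum_congr rfl
      intro z _
      rw [← AddChar.map_add_eq_mul, ← AddChar.map_add_eq_mul]
      congr 1
      ring
    rw [Finset.sum_congr rfl (fun β _ => h2 β), Finset.sum_comm]
    have h3 : ∀ x : K, ∑ β : K, ∑ y : K, ∑ z : K, ψ (β * (a * x ^ k + b * y ^ k + c * z ^ k))
        = if x = 0 then (Q : ℂ) else 0 := by
      intro x
      rw [Finset.sum_comm]
      have h4 : ∀ y : K, ∑ β : K, ∑ z : K, ψ (β * (a * x ^ k + b * y ^ k + c * z ^ k))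
          = if x = 0 ∧ y = 0 then (Q : ℂ) else 0 := by
        intro y
        rw [Finset.sum_comm]
        have h5 : ∀ z : K, ∑ β : K, ψ (β * (a * x ^ k + b * y ^ k + c * z ^ k))
            = if x = 0 ∧ y = 0 ∧ z = 0 then (Q : ℂ) else 0 := by
          intro z
          rw [AddChar.sum_mulShift _ hp]
          by_cases h6 : x = 0 ∧ y = 0 ∧ z = 0
          · rw [if_pos h6, if_pos]
            · rw [hQdef]; push_cast; rfl
            · obtain ⟨rfl, rfl, rfl⟩ := h6
              rw [zero_pow hk.ne']; ring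
          · have h7 := hcon x y z (by
              intro hx hy hz
              exact h6 ⟨hx, hy, hz⟩)
            rw [if_neg h6, if_neg h7, Nat.cast_zero]
        rw [Finset.sum_congr rfl (fun z _ => h5 z)]
        by_cases h8 : x = 0 ∧ y = 0
        · rw [if_pos h8]
          have : ∀ z : K, (if x = 0 ∧ y = 0 ∧ z = 0 then (Q : ℂ) else 0)
              = if z = 0 then (Q : ℂ) else 0 := by
            intro z
            simp [h8.1, h8.2]
          rw [Finset.sum_congr rfl (fun z _ => this z), Finset.sum_ite_eq' Finset.univ (0 : K)]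
          simp
        · rw [if_neg h8]
          apply Finset.sum_eq_zero
          intro z _
          rw [if_neg]
          rintro ⟨hx, hy, -⟩
          exact h8 ⟨hx, hy⟩
      rw [Finset.sum_congr rfl (fun y _ => h4 y)]
      by_cases hx : x = 0
      · rw [if_pos hx]
        have : ∀ y : K, (if x = 0 ∧ y = 0 then (Q : ℂ) else 0)
            = if y = 0 then (Q : ℂ) else 0 := by
          intro y
          simp [hx]
        rw [Finset.sum_congr rfl (fun y _ => this y), Finset.sum_ite_eq' Finset.univ (0 : K)]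
        simp
      · rw [if_neg hx]
        apply Finset.sum_eq_zero
        intro y _
        rw [if_neg]
        rintro ⟨hx', -⟩
        exact hx hx'
    rw [Finset.sum_congr rfl (fun x _ => h3 x), Finset.sum_ite_eq' Finset.univ (0 : K)]
    simp
  -- the term at zero
  have h0 : S1 ψ k (0 : K) = (Q : ℂ) := by
    unfold S1
    simp [hQdef]
  rw [← Finset.add_sum_erase _ _ (Finset.mem_univ (0 : K))] at h1
  simp only [zero_mul, h0] at h1
  set E := ∑ β ∈ Finset.univ.erase (0 : K), S1 ψ k (β * a) * S1 ψ k (β * b) * S1 ψ k (β * c)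
    with hE
  have hEb : ‖E‖ ≤ Q ^ 3 / 2 := by
    refine le_trans (norm_sum_le _ _) ?_
    have h9 : ∀ β ∈ Finset.univ.erase (0 : K),
        ‖S1 ψ k (β * a) * S1 ψ k (β * b) * S1 ψ k (β * c)‖
        ≤ Q / (2 * k) * ((‖S1 ψ k (β * b)‖ ^ 2 + ‖S1 ψ k (β * c)‖ ^ 2) / 2) := by
      intro β hβ
      have hβ0 := Finset.ne_of_mem_erase hβ
      rw [norm_mul, norm_mul, mul_assoc]
      apply mul_le_mul (S1_sup hψ hk (mul_ne_zero hβ0 ha) hQ) _ (by positivity) (by positivity)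
      nlinarith [sq_nonneg (‖S1 ψ k (β * b)‖ - ‖S1 ψ k (β * c)‖)]
    refine le_trans (Finset.sum_le_sum h9) ?_
    rw [← Finset.mul_sum, ← Finset.sum_div, Finset.sum_add_distrib]
    have h10 : ∀ d : K, d ≠ 0 → ∑ β ∈ Finset.univ.erase (0 : K), ‖S1 ψ k (β * d)‖ ^ 2
        ≤ k * Q ^ 2 := by
      intro d hd
      refine le_trans ?_ (S1_moment hψ hk (K := K))
      rw [← S1_sum_mul ψ k hd]
      exact Finset.sum_le_sum_of_subset_of_nonneg (Finset.subset_univ _)
        (fun _ _ _ => by positivity)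
    have h11 := h10 b hb
    have h12 := h10 c hc
    calc _ ≤ Q / (2 * k) * ((k * Q ^ 2 + k * Q ^ 2) / 2) := by
          apply mul_le_mul_of_nonneg_left _ (by positivity)
          linarith
      _ = Q ^ 3 / 2 := by field_simp; ring
  have h13 : ((Q ^ 3 - Q : ℝ) : ℂ) = -E := by
    push_cast
    linear_combination h1
  have h14 : Q ^ 3 - Q ≤ Q ^ 3 / 2 := by
    calc Q ^ 3 - Q ≤ |Q ^ 3 - Q| := le_abs_self _
      _ = ‖((Q ^ 3 - Q : ℝ) : ℂ)‖ := by rw [Complex.norm_real, Real.norm_eq_abs]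
      _ = ‖E‖ := by rw [h13, norm_neg]
      _ ≤ _ := hEb
  nlinarith [hQ2, sq_nonneg Q]

end Pool.Agent.H598.DG
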