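import Pool.Agent.H598.DG.Setup
import Pool.Agent.H598.DG.Fin3

/-!
# Local solutions and reduction of the coefficients
-/

namespace Pool.Agent.H598.DG

open Finset Polynomial Pool.Agent.H598.FQ
open scoped Classical

/-- The numerical condition implies the one for ternary forms. -/
lemma eight_le {q k : ℕ} (hk : 2 ≤ k) (hbig : Big q k) : 8 * k ^ 4 ≤ q := by
  have h1 := growth hk hbig
  have h2 : 1 ≤ 2 ^ ((k - 1) * (k - 2)) := Nat.one_le_two_pow
  have h3 : ((2 * k) ^ k) ^ (2 ^ (k - 1)) ≤ q := by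
    calc ((2 * k) ^ k) ^ (2 ^ (k - 1)) ≤ 2 ^ ((k - 1) * (k - 2)) * ((2 * k) ^ k) ^ (2 ^ (k - 1)) :=
          Nat.le_mul_of_pos_left _ h2
      _ ≤ q := h1.le
  refine le_trans ?_ h3
  rw [← pow_mul]
  have h4 : 2 ≤ 2 ^ (k - 1) := by
    calc 2 = 2 ^ 1 := by norm_num
      _ ≤ 2 ^ (k - 1) := Nat.pow_le_pow_right (by norm_num) (by omega)
  have h5 : 4 ≤ k * 2 ^ (k - 1) := by nlinarith
  calc 8 * k ^ 4 ≤ (2 * k) ^ 4 := by
        rw [mul_pow]
        have : 0 < k ^ 4 := by positivity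
        omega
    _ ≤ (2 * k) ^ (k * 2 ^ (k - 1)) := Nat.pow_le_pow_right (by omega) h5

variable {F : Type*} [Field F]

/-- A solution of a diagonal equation over a field supported on three given indices. -/
lemma three_supp {K : Type*} [Field K] [Fintype K] {k s : ℕ} (hk : 0 < k)
    (hQ : 8 * k ^ 4 ≤ Fintype.card K) (a : Fin s → K) (J : Finset (Fin s)) (hJ : 3 ≤ J.card)
    (ha : ∀ i ∈ J, a i ≠ 0) :
    ∃ c : Fin s → K, (∀ i, c i ≠ 0 → i ∈ J) ∧ (∃ i, c i ≠ 0) ∧ ∑ i, a i * c i ^ k = 0 := by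
  obtain ⟨J', hJ', hcard⟩ := Finset.exists_subset_card_eq hJ
  obtain ⟨i₁, i₂, i₃, h12, h13, h23, rfl⟩ := Finset.card_eq_three.1 hcard
  have m1 : i₁ ∈ J := hJ' (by simp)
  have m2 : i₂ ∈ J := hJ' (by simp)
  have m3 : i₃ ∈ J := hJ' (by simp)
  obtain ⟨x, y, z, hne, h0⟩ := fin3 hk hQ (ha i₁ m1) (ha i₂ m2) (ha i₃ m3)
  let c : Fin s → K := fun i => if i = i₁ then x else if i = i₂ then y else if i = i₃ then z else 0
  have c1 : c i₁ = x := by simp [c]
  have c2 : c i₂ = y := by simp [c, h12.symm]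
  have c3 : c i₃ = z := by simp [c, h13.symm, h23.symm]
  refine ⟨c, ?_, ?_, ?_⟩
  · intro i hi
    by_contra hJi
    apply hi
    have n1 : i ≠ i₁ := fun h => hJi (h ▸ m1)
    have n2 : i ≠ i₂ := fun h => hJi (h ▸ m2)
    have n3 : i ≠ i₃ := fun h => hJi (h ▸ m3)
    simp [c, n1, n2, n3]
  · by_contra hcon
    push Not at hcon
    exact hne ⟨c1 ▸ hcon i₁, c2 ▸ hcon i₂, c3 ▸ hcon i₃⟩
  · rw [← Finset.sum_subset (Finset.subset_univ ({i₁, i₂, i₃} : Finset (Fin s)))]
    · rw [Finset.sum_insert (by simp [h12, h13]), Finset.sum_insert (by simp [h23]),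
        Finset.sum_singleton, c1, c2, c3, ← h0]
      ring
    · intro i _ hi
      have : c i = 0 := by
        simp only [Finset.mem_insert, Finset.mem_singleton, not_or] at hi
        simp [c, hi.1, hi.2.1, hi.2.2]
      rw [this, zero_pow hk.ne', mul_zero]

/-- The form is reduced: every irreducible polynomial is prime to at least three coefficients. -/
def Red {s : ℕ} (a : Fin s → F[X]) : Prop :=
  ∀ ϖ : F[X], Irreducible ϖ → 3 ≤ (Finset.univ.filter (fun i => ¬ ϖ ∣ a i)).card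

/-- Reduction to reduced forms. -/
lemma reduce {k s : ℕ} (hk : 1 ≤ k) (hs : 2 * k + 1 ≤ s)
    (h : ∀ a : Fin s → F[X], (∀ i, a i ≠ 0) → Red a →
      ∃ x : Fin s → F[X], x ≠ 0 ∧ ∑ i, a i * x i ^ k = 0) :
    ∀ (n : ℕ) (a : Fin s → F[X]), (∀ i, a i ≠ 0) → ∑ i, (a i).natDegree = n →
      ∃ x : Fin s → F[X], x ≠ 0 ∧ ∑ i, a i * x i ^ k = 0 := by
  intro n
  induction n using Nat.strong_induction_on with
  | _ n ih =>
  intro a ha hn
  by_cases hr : Red a
  · exact h a ha hr
  unfold Red at hr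
  push Not at hr
  obtain ⟨ϖ, hϖ, hcard⟩ := hr
  have hϖ0 := hϖ.ne_zero
  have hdeg := hϖ.natDegree_pos
  -- the divided coefficients
  have hq : ∀ i, ∃ c : F[X], ϖ ∣ a i → a i = ϖ * c := by
    intro i
    by_cases hi : ϖ ∣ a i
    · obtain ⟨c, hc⟩ := hi
      exact ⟨c, fun _ => hc⟩
    · exact ⟨0, fun h => absurd h hi⟩
  choose c hc using hq
  let a' : Fin s → F[X] := fun i => if ϖ ∣ a i then c i else a i * ϖ ^ (k - 1)
  have ha' : ∀ i, a' i ≠ 0 := by
    intro i
    simp only [a']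
    split_ifs with hi
    · intro h0
      apply ha i
      rw [hc i hi, h0, mul_zero]
    · exact mul_ne_zero (ha i) (pow_ne_zero _ hϖ0)
  have hlt : ∑ i, (a' i).natDegree < n := by
    have h1 : ∀ i, (a' i).natDegree + (if ϖ ∣ a i then ϖ.natDegree else 0)
        = (a i).natDegree + (if ϖ ∣ a i then 0 else (k - 1) * ϖ.natDegree) := by
      intro i
      simp only [a']
      by_cases hi : ϖ ∣ a i
      · rw [if_pos hi, if_pos hi, if_pos hi, add_zero]
        conv_rhs => rw [hc i hi]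
        rw [natDegree_mul hϖ0 (by intro h0; apply ha i; rw [hc i hi, h0, mul_zero]), add_comm]
      · rw [if_neg hi, if_neg hi, if_neg hi, add_zero,
          natDegree_mul (ha i) (pow_ne_zero _ hϖ0), natDegree_pow]
    have h2 : ∑ i, ((a' i).natDegree + (if ϖ ∣ a i then ϖ.natDegree else 0))
        = ∑ i, ((a i).natDegree + (if ϖ ∣ a i then 0 else (k - 1) * ϖ.natDegree)) :=
      Finset.sum_congr rfl (fun i _ => h1 i)
    rw [Finset.sum_add_distrib, Finset.sum_add_distrib, hn] at h2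
    set J := Finset.univ.filter (fun i => ¬ ϖ ∣ a i) with hJ
    have h3 : ∑ i, (if ϖ ∣ a i then 0 else (k - 1) * ϖ.natDegree)
        = J.card * ((k - 1) * ϖ.natDegree) := by
      rw [← Finset.sum_filter_add_sum_filter_not Finset.univ (fun i => ϖ ∣ a i),
        Finset.sum_eq_zero (s := Finset.univ.filter (fun i => ϖ ∣ a i)), zero_add,
        Finset.sum_congr rfl (g := fun _ => (k - 1) * ϖ.natDegree), Finset.sum_const, smul_eq_mul]
      · intro i hi
        rw [if_neg (Finset.mem_filter.1 hi).2]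
      · intro i hi
        rw [if_pos (Finset.mem_filter.1 hi).2]
    have h4 : ∑ i, (if ϖ ∣ a i then ϖ.natDegree else 0) + J.card * ϖ.natDegree
        = s * ϖ.natDegree := by
      have h5 : ∑ i, (if ϖ ∣ a i then ϖ.natDegree else 0)
          = (Finset.univ.filter (fun i => ϖ ∣ a i)).card * ϖ.natDegree := by
        rw [← Finset.sum_filter, Finset.sum_const, smul_eq_mul]
      rw [h5, ← add_mul]
      congr 1
      have := Finset.card_filter_add_card_filter_not (s := (Finset.univ : Finset (Fin s)))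
        (fun i => ϖ ∣ a i)
      rw [Finset.card_univ, Fintype.card_fin] at this
      exact this
    rw [h3] at h2
    have h6 : J.card ≤ 2 := by omega
    have h7 : (2 * k + 1) * ϖ.natDegree ≤ s * ϖ.natDegree := Nat.mul_le_mul_right _ hs
    have h8 : J.card * ((k - 1) * ϖ.natDegree) + J.card * ϖ.natDegree
        = J.card * k * ϖ.natDegree := by
      obtain ⟨k', rfl⟩ : ∃ k', k = k' + 1 := ⟨k - 1, by omega⟩
      simp only [Nat.add_sub_cancel]
      ring
    have h9 : J.card * k * ϖ.natDegree ≤ 2 * k * ϖ.natDegree :=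
      Nat.mul_le_mul_right _ (Nat.mul_le_mul_right _ h6)
    have h10 : (2 * k + 1) * ϖ.natDegree = 2 * k * ϖ.natDegree + ϖ.natDegree := by ring
    omega
  obtain ⟨x', hx', hsol⟩ := ih _ hlt a' ha' rfl
  let x : Fin s → F[X] := fun i => if ϖ ∣ a i then x' i else ϖ * x' i
  refine ⟨x, ?_, ?_⟩
  · intro h0
    apply hx'
    funext i
    have h1 : x i = 0 := congrFun h0 i
    simp only [x] at h1
    by_cases hi : ϖ ∣ a i
    · rw [if_pos hi] at h1
      exact h1
    · rw [if_neg hi] at h1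
      exact (mul_eq_zero.1 h1).resolve_left hϖ0
  · have h2 : ∑ i, a i * x i ^ k = ϖ * ∑ i, a' i * x' i ^ k := by
      rw [Finset.mul_sum]
      apply Finset.sum_congr rfl
      intro i _
      simp only [x, a']
      by_cases hi : ϖ ∣ a i
      · rw [if_pos hi, if_pos hi]
        conv_lhs => rw [hc i hi]
        ring
      · rw [if_neg hi, if_neg hi, mul_pow]
        obtain ⟨k', rfl⟩ : ∃ k', k = k' + 1 := ⟨k - 1, by omega⟩
        simp only [Nat.add_sub_cancel]
        ring
    rw [h2, hsol, mul_zero]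

/-- Simultaneous congruences modulo coprime polynomials. -/
lemma crt (β : F[X] → F[X]) : ∀ (S : Finset F[X]), (∀ p ∈ S, p.Monic ∧ Irreducible p) →
    ∃ b : F[X], ∀ p ∈ S, p ∣ b - β p := by
  intro S
  induction S using Finset.induction_on with
  | empty => intro _; exact ⟨0, fun p hp => absurd hp (Finset.notMem_empty p)⟩
  | insert p₀ S hp₀ ih =>
    intro hS
    obtain ⟨b, hb⟩ := ih (fun p hp => hS p (Finset.mem_insert_of_mem hp))
    have hcop : IsCoprime p₀ (∏ p ∈ S, p) := by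
      apply IsCoprime.prod_right
      intro p hp
      have h1 := hS p₀ (Finset.mem_insert_self _ _)
      have h2 := hS p (Finset.mem_insert_of_mem hp)
      refine (EuclideanDomain.dvd_or_coprime p₀ p h1.2).resolve_left ?_
      intro hdvd
      have h3 := eq_of_monic_of_associated h1.1 h2.1 (h1.2.associated_of_dvd h2.2 hdvd)
      exact hp₀ (h3 ▸ hp)
    obtain ⟨u, v, huv⟩ := hcop
    refine ⟨b + v * (∏ p ∈ S, p) * (β p₀ - b), ?_⟩
    intro p hp
    rcases Finset.mem_insert.1 hp with rfl | hp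
    · refine ⟨-(u * (β p - b)), ?_⟩
      linear_combination (β p - b) * huv
    · have h4 : p ∣ ∏ p ∈ S, p := Finset.dvd_prod_of_mem (fun p => p) hp
      have h5 : b + v * (∏ p ∈ S, p) * (β p₀ - b) - β p
          = (b - β p) + v * (∏ p ∈ S, p) * (β p₀ - b) := by ring
      rw [h5]
      exact dvd_add (hb p hp) (Dvd.dvd.mul_right (Dvd.dvd.mul_left h4 _) _)

end Pool.Agent.H598.DG
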