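import Pool.Agent.H598.DG.WeylG

/-!
# The circle method for diagonal forms with polynomial coefficients
-/

namespace Pool.Agent.H598.DG

open Finset Polynomial Pool.Agent.H598.FQ
open scoped Classical

variable {F : Type*} [Field F]

/-- The numerical conditions. -/
structure Num (q : ℕ) {k : ℕ} (a : Fin (2 * k + 1) → F[X]) (N : F[X])
    (n P : Fin (2 * k + 1) → ℕ) (M Nk R e κ Pm : ℕ) : Prop where
  ha : ∀ i, a i ≠ 0
  hdegM : ∀ i, n i + ((a i).natDegree + (k - 1) * P i) ≤ M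
  he : ∀ i, M + (2 * k * (P i + 1) - (k * P i + 1)) ≤ 2 * k * n i + e
  hPm : ∀ i, P i ≤ Pm
  hn0 : 1 ≤ n 0
  hm : (k - 1) * (n 0 - 1) + 1 ≤ Nk
  hAR : (a 0 * N ^ (k - 1)).natDegree ≤ R
  hκ : (n 0 - (R + 1 - (a 0 * N ^ (k - 1)).natDegree)) + (Nk - ((k - 1) * (n 0 - 1) + 1)) ≤ κ
  hbig : ((k - 1) + q ^ κ * 2 ^ ((k - 1) * (k - 2) * n 0)) *
    (4 * q ^ e * (2 * k) ^ (k * Pm + 1)) ^ (2 ^ (k - 1)) ≤ q ^ n 0

section
variable [Fintype F] {ψ : AddChar F ℂ} (hψ : ψ ≠ 1) {k : ℕ} (hk : 2 ≤ k)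
  (hch : ∀ i : ℕ, 1 ≤ i → i ≤ k → ((i : ℕ) : F) ≠ 0)
  {a b : Fin (2 * k + 1) → F[X]} {N c0 : F[X]} {n P : Fin (2 * k + 1) → ℕ}
  {M Nk R e κ Pm : ℕ}

/-- The exponential sum of the `i`-th variable. -/
noncomputable def SS (ψ : AddChar F ℂ) (L : F[X] →ₗ[F] F) (k : ℕ) (a b N : F[X]) (n : ℕ) : ℂ :=
  ∑ y : degreeLT F n, ψ (L (GG k a b N y))

include hψ hk hch in
lemma SS_sup (H : Hyp a b N c0 n P M Nk R)
    (U : Num (Fintype.card F) a N n P M Nk R e κ Pm)
    {L : F[X] →ₗ[F] F} (hL : mis L Nk R) :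
    ‖SS ψ L k (a 0) (b 0) N (n 0)‖ * (4 * (Fintype.card F : ℝ) ^ e * (2 * k) ^ (k * Pm + 1))
      ≤ (Fintype.card F : ℝ) ^ n 0 := by
  have hA : a 0 * N ^ (k - 1) ≠ 0 := mul_ne_zero (U.ha 0) (pow_ne_zero _ H.N0)
  have hK := card_kernel (n := n 0) (m := (k - 1) * (n 0 - 1) + 1) hL hA U.hm U.hAR
  have hK2 : Nat.card {a' : degreeLT F (n 0) // ∀ b : degreeLT F ((k - 1) * (n 0 - 1) + 1),
      L (a 0 * N ^ (k - 1) * ((a' : F[X]) * b)) = 0} ≤ Fintype.card F ^ κ :=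
    le_trans hK (Nat.pow_le_pow_right Fintype.card_pos U.hκ)
  have h1 := weyl_gen hψ hk (fun i hi hi' => hch i (by omega) hi') L
    (PL_GG (show 1 ≤ k by omega) (a 0) (b 0) H.N0) U.hn0 hK2
  set q : ℝ := (Fintype.card F : ℝ) with hq
  have hq0 : 0 < q := by rw [hq]; exact_mod_cast Fintype.card_pos
  set E := 2 ^ (k - 1) with hE
  have hE0 : E ≠ 0 := by positivity
  set Z : ℝ := 4 * q ^ e * (2 * k) ^ (k * Pm + 1) with hZ
  have hZ0 : 0 ≤ Z := by positivity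
  have h2 : (((k - 1 : ℕ) : ℝ) + q ^ κ * 2 ^ ((k - 1) * (k - 2) * n 0)) * Z ^ E ≤ q ^ n 0 := by
    have := U.hbig
    rw [hZ, hq]
    have hh : ((((k - 1) + Fintype.card F ^ κ * 2 ^ ((k - 1) * (k - 2) * n 0)) *
      (4 * Fintype.card F ^ e * (2 * k) ^ (k * Pm + 1)) ^ (2 ^ (k - 1)) : ℕ) : ℝ)
      ≤ ((Fintype.card F ^ n 0 : ℕ) : ℝ) := by exact_mod_cast this
    rw [← hE] at hh
    push_cast at hh ⊢
    exact hh
  have h3 : (‖SS ψ L k (a 0) (b 0) N (n 0)‖ * Z) ^ E * q ^ n 0 ≤ (q ^ n 0) ^ E * q ^ n 0 := by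
    calc (‖SS ψ L k (a 0) (b 0) N (n 0)‖ * Z) ^ E * q ^ n 0
        = (‖SS ψ L k (a 0) (b 0) N (n 0)‖ ^ E * q ^ n 0) * Z ^ E := by rw [mul_pow]; ring
      _ ≤ ((q ^ n 0) ^ E *
          (((k - 1 : ℕ) : ℝ) + q ^ κ * 2 ^ ((k - 1) * (k - 2) * n 0))) * Z ^ E :=
          mul_le_mul_of_nonneg_right h1 (by positivity)
      _ = (q ^ n 0) ^ E *
          ((((k - 1 : ℕ) : ℝ) + q ^ κ * 2 ^ ((k - 1) * (k - 2) * n 0)) * Z ^ E) := by ring
      _ ≤ (q ^ n 0) ^ E * q ^ n 0 := mul_le_mul_of_nonneg_left h2 (by positivity)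
  have h4 : (‖SS ψ L k (a 0) (b 0) N (n 0)‖ * Z) ^ E ≤ (q ^ n 0) ^ E :=
    le_of_mul_le_mul_right h3 (by positivity)
  exact le_of_pow_le_pow_left₀ hE0 (by positivity) h4

omit [Fintype F] in
lemma GG_memM (H : Hyp a b N c0 n P M Nk R) (hdegM : ∀ i, n i + ((a i).natDegree + (k - 1) * P i) ≤ M)
    (i : Fin (2 * k + 1)) (y : degreeLT F (n i)) :
    GG k (a i) (b i) N (y : F[X]) ∈ degreeLT F M := by
  have h0 : (0 : F[X]) ∈ degreeLT F (n i) := Submodule.zero_mem _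
  have h1 := GG_sub_mem (k := k) (a := a i) (b := b i) H.N0 (le_refl (a i).natDegree)
    (H.hx i _ y.2) (H.hx i _ h0) (d := n i) (by rw [sub_zero]; exact y.2)
  have h2 : GG k (a i) (b i) N 0 = 0 := by unfold GG; ring
  rw [h2, sub_zero] at h1
  exact V_mono (hdegM i) h1

include hψ hk hch in
lemma SS_mean (H : Hyp a b N c0 n P M Nk R)
    (U : Num (Fintype.card F) a N n P M Nk R e κ Pm) (i : Fin (2 * k + 1)) :
    ∑ α : Fin M → F,
      (‖SS ψ (lin α) k (a i) (b i) N (n i)‖ / (Fintype.card F : ℝ) ^ n i) ^ (2 * k)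
      ≤ (Fintype.card F : ℝ) ^ e * (2 * k) ^ (k * Pm + 1) := by
  set q : ℝ := (Fintype.card F : ℝ) with hq
  have hq0 : 0 < q := by rw [hq]; exact_mod_cast Fintype.card_pos
  have hq1 : 1 ≤ q := by rw [hq]; exact_mod_cast Fintype.card_pos
  have h1 := mean_gen hψ (k := k) (M := M) (W := degreeLT F (n i))
    (fun y => GG k (a i) (b i) N (y : F[X])) (GG_memM H U.hdegM i)
  have h2 := count_GG (show 0 < k by omega) (choose_ne hch) (U.ha i) H.N0 (H.hx i)
    (b := b i) (n := n i) (P := P i)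
  have h3 : ∑ α : Fin M → F, ‖SS ψ (lin α) k (a i) (b i) N (n i)‖ ^ (2 * k)
      ≤ (q ^ e * (2 * k) ^ (k * Pm + 1)) * (q ^ n i) ^ (2 * k) := by
    unfold SS
    rw [h1]
    have h4 : ((Nat.card {x : Fin (2 * k) → degreeLT F (n i) //
        ∑ j, C (sg F k j) * GG k (a i) (b i) N (x j : F[X]) = 0} : ℕ) : ℝ)
        ≤ (2 * k : ℝ) ^ (k * P i + 1) * q ^ (2 * k * (P i + 1) - (k * P i + 1)) := by
      unfold JB at h2
      rw [hq]
      exact_mod_cast h2
    have h5 : (2 * k : ℝ) ^ (k * P i + 1) ≤ (2 * k : ℝ) ^ (k * Pm + 1) := by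
      apply pow_le_pow_right₀
      · have : (1 : ℝ) ≤ k := by exact_mod_cast (show 1 ≤ k by omega)
        linarith
      · have := Nat.mul_le_mul_left k (U.hPm i)
        omega
    calc q ^ M * ((Nat.card {x : Fin (2 * k) → degreeLT F (n i) //
        ∑ j, C (sg F k j) * GG k (a i) (b i) N (x j : F[X]) = 0} : ℕ) : ℝ)
        ≤ q ^ M * ((2 * k : ℝ) ^ (k * P i + 1) * q ^ (2 * k * (P i + 1) - (k * P i + 1))) :=
          mul_le_mul_of_nonneg_left h4 (by positivity)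
      _ = (2 * k : ℝ) ^ (k * P i + 1) * q ^ (M + (2 * k * (P i + 1) - (k * P i + 1))) := by
          rw [pow_add]; ring
      _ ≤ (2 * k : ℝ) ^ (k * Pm + 1) * q ^ (2 * k * n i + e) := by
          apply mul_le_mul h5 _ (by positivity) (by positivity)
          exact pow_le_pow_right₀ hq1 (U.he i)
      _ = _ := by
          rw [pow_add, ← pow_mul, mul_comm (n i)]; ring
  have h6 : ∑ α : Fin M → F,
      (‖SS ψ (lin α) k (a i) (b i) N (n i)‖ / q ^ n i) ^ (2 * k)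
      = (∑ α : Fin M → F, ‖SS ψ (lin α) k (a i) (b i) N (n i)‖ ^ (2 * k))
        / (q ^ n i) ^ (2 * k) := by
    rw [Finset.sum_div]
    apply Finset.sum_congr rfl
    intro α _
    rw [div_pow]
  rw [h6, div_le_iff₀ (by positivity)]
  exact h3

omit [Fintype F] in
lemma sum_prod_dep {s : ℕ} {n : Fin s → ℕ} [Fintype F] (f : ∀ i, degreeLT F (n i) → ℂ) :
    ∏ i, ∑ v, f i v = ∑ x : (∀ i, degreeLT F (n i)), ∏ i, f i (x i) := by
  rw [Finset.prod_univ_sum, Fintype.piFinset_univ]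

lemma sum_EE (ψ : AddChar F ℂ) (L : F[X] →ₗ[F] F) :
    ∑ y, ψ (L (EE a b N c0 n y)) = ψ (L c0) * ∏ i, SS ψ L k (a i) (b i) N (n i) := by
  unfold SS
  rw [sum_prod_dep (fun i (v : degreeLT F (n i)) => ψ (L (GG k (a i) (b i) N v))),
    Finset.mul_sum]
  apply Finset.sum_congr rfl
  intro y _
  unfold EE
  rw [map_add, AddChar.map_add_eq_mul, map_sum, char_sum, mul_comm]

include hψ hk hch in
/-- The contribution of the minor functionals. -/
lemma minor_boundN (H : Hyp a b N c0 n P M Nk R)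
    (U : Num (Fintype.card F) a N n P M Nk R e κ Pm) :
    ‖∑ α ∈ MN F M Nk R, ∑ y, ψ (lin α (EE a b N c0 n y))‖ ≤ (QQ F n : ℝ) / 4 := by
  set q : ℝ := (Fintype.card F : ℝ) with hq
  have hq0 : 0 < q := by rw [hq]; exact_mod_cast Fintype.card_pos
  have hk0 : (0 : ℝ) < k := by exact_mod_cast (show 0 < k by omega)
  have hQQ : (QQ F n : ℝ) = ∏ i, q ^ n i := by
    unfold QQ
    push_cast
    rfl
  set Z : ℝ := q ^ e * (2 * k) ^ (k * Pm + 1) with hZ
  have hZ0 : 0 < Z := by positivity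
  refine le_trans (norm_sum_le _ _) ?_
  have h1 : ∀ α ∈ MN F M Nk R, ‖∑ y, ψ (lin α (EE a b N c0 n y))‖
      ≤ (QQ F n : ℝ) * ((1 / (4 * Z)) * ((∑ i : Fin (2 * k),
        (‖SS ψ (lin α) k (a i.succ) (b i.succ) N (n i.succ)‖ / q ^ n i.succ) ^ (2 * k))
          / ((2 * k : ℕ) : ℝ))) := by
    intro α hα
    rw [sum_EE, norm_mul, AddChar.norm_apply, one_mul, norm_prod, hQQ]
    have h2 : ∏ i, ‖SS ψ (lin α) k (a i) (b i) N (n i)‖
        = (∏ i, q ^ n i) * ∏ i, (‖SS ψ (lin α) k (a i) (b i) N (n i)‖ / q ^ n i) := by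
      rw [← Finset.prod_mul_distrib]
      apply Finset.prod_congr rfl
      intro i _
      rw [mul_div_cancel₀]
      positivity
    rw [h2]
    apply mul_le_mul_of_nonneg_left _ (by positivity)
    rw [Fin.prod_univ_succ]
    apply mul_le_mul
    · rw [div_le_div_iff₀ (by positivity) (by positivity), one_mul]
      have := SS_sup hψ hk hch H U (mem_MN.1 hα)
      rw [← hq] at this
      rw [hZ]
      calc _ = ‖SS ψ (lin α) k (a 0) (b 0) N (n 0)‖ * (4 * q ^ e * (2 * k) ^ (k * Pm + 1)) := by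
            ring
        _ ≤ _ := this
    · exact amgm (show 0 < 2 * k by omega) _ (fun i => by positivity)
    · exact Finset.prod_nonneg (fun i _ => by positivity)
    · positivity
  refine le_trans (Finset.sum_le_sum h1) ?_
  rw [← Finset.mul_sum, ← Finset.mul_sum, ← Finset.sum_div, Finset.sum_comm]
  have h3 : ∀ i : Fin (2 * k), ∑ α ∈ MN F M Nk R,
      (‖SS ψ (lin α) k (a i.succ) (b i.succ) N (n i.succ)‖ / q ^ n i.succ) ^ (2 * k) ≤ Z := by
    intro i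
    refine le_trans ?_ (SS_mean hψ hk hch H U i.succ)
    exact Finset.sum_le_sum_of_subset_of_nonneg (Finset.subset_univ _)
      (fun _ _ _ => by positivity)
  have h4 : (∑ i : Fin (2 * k), ∑ α ∈ MN F M Nk R,
      (‖SS ψ (lin α) k (a i.succ) (b i.succ) N (n i.succ)‖ / q ^ n i.succ) ^ (2 * k))
      / ((2 * k : ℕ) : ℝ) ≤ Z := by
    rw [div_le_iff₀ (by push_cast; positivity)]
    refine le_trans (Finset.sum_le_sum (fun i _ => h3 i)) ?_
    rw [Finset.sum_const, Finset.card_univ, Fintype.card_fin, nsmul_eq_mul, mul_comm]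
  calc _ ≤ (QQ F n : ℝ) * (1 / (4 * Z) * Z) := by
        apply mul_le_mul_of_nonneg_left _ (by positivity)
        exact mul_le_mul_of_nonneg_left h4 (by positivity)
    _ = _ := by field_simp

lemma geo16 (R : ℕ) : ∑ d ∈ Finset.range R, (1 : ℝ) / 16 ^ (d + 1) ≤ 1 / 15 := by
  have h : ∀ R : ℕ, ∑ d ∈ Finset.range R, (1 : ℝ) / 16 ^ (d + 1) = 1 / 15 - (1 / 15) / 16 ^ R := by
    intro R
    induction R with
    | zero => simp
    | succ R ih =>
      rw [Finset.sum_range_succ, ih, pow_succ]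
      field_simp
      ring
  rw [h R]
  have : (0 : ℝ) ≤ (1 / 15) / 16 ^ R := by positivity
  linarith

include hk hch in
/-- The lower bound for the number of zeros. -/
theorem main_lower (hbig : Big (Fintype.card F) k) (H : Hyp a b N c0 n P M Nk R)
    {i₀ : Fin (2 * k + 1)} {c₀ : F} (I : Inf a b N n P M i₀ c₀)
    (U : Num (Fintype.card F) a N n P M Nk R e κ Pm) :
    (QQ F n : ℝ) / 2 ≤ (Fintype.card F : ℝ) ^ M *
      ((Finset.univ.filter (fun y => EE a b N c0 n y = 0)).card : ℝ) := by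
  obtain ⟨ψ, hψ⟩ : ∃ ψ : AddChar F ℂ, ψ ≠ 1 := by
    obtain ⟨ψ, hψ⟩ := (AddChar.exists_apply_ne_zero (α := F) (a := 1)).2 one_ne_zero
    exact ⟨ψ, fun h => hψ (by rw [h]; rfl)⟩
  have hkF : (k : F) ≠ 0 := hch k (by omega) le_rfl
  have h1 := sum_all hψ (EE a b N c0 n) H.hE
  rw [sum_splitN M Nk R, Finset.sum_range_succ', sum_DN_zero hψ (EE a b N c0 n) H.hE] at h1
  set q : ℝ := (Fintype.card F : ℝ) with hq
  have hq0 : 0 < q := by rw [hq]; exact_mod_cast Fintype.card_pos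
  set Z : ℕ := (Finset.univ.filter (fun y => EE a b N c0 n y = 0)).card with hZ
  set S1 := ∑ d ∈ Finset.range R, ∑ α ∈ DN F M Nk (d + 1), ∑ y, ψ (lin α (EE a b N c0 n y))
    with hS1
  set S2 := ∑ α ∈ MN F M Nk R, ∑ y, ψ (lin α (EE a b N c0 n y)) with hS2
  have h2 : ‖S2‖ ≤ (QQ F n : ℝ) / 4 := minor_boundN hψ hk hch H U
  have h3 : ‖S1‖ ≤ (QQ F n : ℝ) / 15 := by
    refine le_trans (norm_sum_le _ _) ?_
    have h4 : ∀ d ∈ Finset.range R,
        ‖∑ α ∈ DN F M Nk (d + 1), ∑ y, ψ (lin α (EE a b N c0 n y))‖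
        ≤ (QQ F n : ℝ) * (1 / 16 ^ (d + 1)) := by
      intro d hd
      have hd' := Finset.mem_range.1 hd
      refine le_trans (level_boundN hψ hk hch hbig H (by omega) (by omega)) (le_of_eq ?_)
      have h5 := card_Yd H (by omega) hkF I (R - (d + 1)) (d + 1) (by omega)
      have h6 : (QQ F n : ℝ) = ((Yd a b N c0 n (Nk + (d + 1))).card : ℝ) * q ^ (R - (d + 1)) := by
        rw [← h5]
        push_cast
        rfl
      rw [h6, mul_div_assoc, mul_assoc]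
      congr 1
      rw [hq]
      ring
    refine le_trans (Finset.sum_le_sum h4) ?_
    rw [← Finset.mul_sum]
    calc (QQ F n : ℝ) * ∑ d ∈ Finset.range R, (1 : ℝ) / 16 ^ (d + 1)
        ≤ (QQ F n : ℝ) * (1 / 15) := mul_le_mul_of_nonneg_left (geo16 R) (by positivity)
      _ = _ := by ring
  have h0 : (q ^ (M - Nk) * ((Finset.univ.filter
      (fun y => EE a b N c0 n y ∈ degreeLT F Nk)).card : ℝ)) = (QQ F n : ℝ) := by
    have h5 := card_Yd H (by omega) hkF I R 0 (by omega)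
    have e1 : M - Nk = R := by have := H.hM; omega
    rw [e1, ← h5]
    unfold Yd
    push_cast
    rw [mul_comm]
    rfl
  have h7 : (((QQ F n : ℝ) : ℂ)) = ((q ^ M * (Z : ℝ) : ℝ) : ℂ) - S1 - S2 := by
    have h1' : ((q ^ M * (Z : ℝ) : ℝ) : ℂ)
        = S1 + ((q ^ (M - Nk) * ((Finset.univ.filter
          (fun y => EE a b N c0 n y ∈ degreeLT F Nk)).card : ℝ) : ℝ) : ℂ) + S2 := by
      rw [hq]
      push_cast
      exact h1.symm
    rw [h1', h0]
    ring
  have h8 : (QQ F n : ℝ) = ‖((QQ F n : ℝ) : ℂ)‖ := by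
    rw [Complex.norm_real, Real.norm_of_nonneg (by positivity)]
  have h9 : (QQ F n : ℝ) ≤ q ^ M * (Z : ℝ) + (QQ F n : ℝ) / 15 + (QQ F n : ℝ) / 4 := by
    conv_lhs => rw [h8, h7]
    refine le_trans (norm_sub_le _ _) ?_
    apply add_le_add _ h2
    refine le_trans (norm_sub_le _ _) ?_
    apply add_le_add _ h3
    rw [Complex.norm_real,
      Real.norm_of_nonneg (mul_nonneg (pow_nonneg hq0.le _) (Nat.cast_nonneg _))]
  have h10 : (0 : ℝ) ≤ (QQ F n : ℝ) := by positivity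
  linarith

include hk hch in
/-- Existence of a zero. -/
theorem main_exists (hbig : Big (Fintype.card F) k) (H : Hyp a b N c0 n P M Nk R)
    {i₀ : Fin (2 * k + 1)} {c₀ : F} (I : Inf a b N n P M i₀ c₀)
    (U : Num (Fintype.card F) a N n P M Nk R e κ Pm) :
    ∃ y, EE a b N c0 n y = 0 := by
  have h1 := main_lower hk hch hbig H I U
  by_contra hcon
  push Not at hcon
  have h2 : (Finset.univ.filter (fun y => EE a b N c0 n y = 0)).card = 0 := by
    rw [Finset.card_eq_zero, Finset.filter_eq_empty_iff]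
    intro y _
    exact hcon y
  rw [h2, Nat.cast_zero, mul_zero] at h1
  have h3 : 0 < (QQ F n : ℝ) := by
    unfold QQ
    have : 0 < Fintype.card F := Fintype.card_pos
    positivity
  linarith

end

end Pool.Agent.H598.DG
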