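import Pool.Agent.H598.DG.Main

/-!
# The choice of the parameters
-/

namespace Pool.Agent.H598.DG

open Finset Polynomial Pool.Agent.H598.FQ
open scoped Classical

/-- The base of the exponential growth of the minor arc bound is smaller than `q`. -/
lemma growth {q k : ℕ} (hk : 2 ≤ k) (hbig : Big q k) :
    2 ^ ((k - 1) * (k - 2)) * ((2 * k) ^ k) ^ (2 ^ (k - 1)) < q := by
  set E := 2 ^ (k - 1) with hE
  have hE0 : E ≠ 0 := by positivity
  have h1 := hbig.2 1 le_rfl
  have h2 : (k - 1) * (k - 2) ≤ E := by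
    have := aux_quad (k - 1) (by omega)
    have e : k - 1 - 1 = k - 2 := by omega
    rwa [e] at this
  have h3 : 1 ≤ wc k (1 - 1) := by
    unfold wc
    have : 0 < 2 ^ ((k - 1) * (k - 2) * (1 - 1)) := by positivity
    omega
  calc 2 ^ ((k - 1) * (k - 2)) * ((2 * k) ^ k) ^ E
      ≤ 2 ^ E * ((2 * k) ^ k) ^ E :=
        Nat.mul_le_mul_right _ (Nat.pow_le_pow_right (by norm_num) h2)
    _ = (2 * (2 * k) ^ k) ^ E := (mul_pow 2 ((2 * k) ^ k) E).symm
    _ < ((2 * k) ^ (k * 1 + 1) * 16 ^ 1) ^ E := by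
        apply Nat.pow_lt_pow_left _ hE0
        rw [mul_one, pow_succ]
        have : 0 < (2 * k) ^ k := by positivity
        nlinarith
    _ ≤ wc k (1 - 1) * ((2 * k) ^ (k * 1 + 1) * 16 ^ 1) ^ E := Nat.le_mul_of_pos_left _ h3
    _ ≤ q ^ 1 := h1
    _ = q := pow_one q

/-- Exponential growth beats constants. -/
lemma exists_large {β q C : ℕ} (h : β < q) : ∃ T₀ : ℕ, ∀ T, T₀ ≤ T → C * β ^ T ≤ q ^ T := by
  rcases Nat.eq_zero_or_pos β with h0 | hpos
  · subst h0
    refine ⟨1, fun T hT => ?_⟩
    rw [zero_pow (by omega), mul_zero]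
    exact Nat.zero_le _
  · have h1 : (1 : ℝ) < (q : ℝ) / β := by
      rw [one_lt_div (by exact_mod_cast hpos)]
      exact_mod_cast h
    have h2 := (tendsto_pow_atTop_atTop_of_one_lt h1).eventually_ge_atTop (C : ℝ)
    obtain ⟨T₀, hT₀⟩ := Filter.eventually_atTop.1 h2
    refine ⟨T₀, fun T hT => ?_⟩
    have h3 := hT₀ T hT
    rw [div_pow, le_div_iff₀ (by positivity)] at h3
    exact_mod_cast h3

/-- The numerical condition for the minor functionals. -/
lemma exists_T {q k : ℕ} (hk : 2 ≤ k) (hbig : Big q k) (e κ B : ℕ) :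
    ∃ T₀ : ℕ, ∀ T, T₀ ≤ T → ∀ n, n ≤ T → T ≤ n + B →
      ((k - 1) + q ^ κ * 2 ^ ((k - 1) * (k - 2) * n)) *
      (4 * q ^ e * (2 * k) ^ (k * T + 1)) ^ (2 ^ (k - 1)) ≤ q ^ n := by
  have hq : 0 < q := by have := hbig.1; omega
  set E := 2 ^ (k - 1) with hE
  obtain ⟨T₀, hT₀⟩ := exists_large (C := ((k - 1) + q ^ κ) * (4 * q ^ e * (2 * k)) ^ E * q ^ B)
    (growth hk hbig)
  refine ⟨T₀, fun T hT n hn hnB => ?_⟩
  have h1 := hT₀ T hT
  have hqB : 0 < q ^ B := by positivity
  apply Nat.le_of_mul_le_mul_right _ hqB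
  have h2 : 1 ≤ 2 ^ ((k - 1) * (k - 2) * T) := Nat.one_le_two_pow
  have h3 : (k - 1) + q ^ κ * 2 ^ ((k - 1) * (k - 2) * n)
      ≤ ((k - 1) + q ^ κ) * 2 ^ ((k - 1) * (k - 2) * T) := by
    rw [add_mul]
    apply Nat.add_le_add
    · exact Nat.le_mul_of_pos_right _ h2
    · apply Nat.mul_le_mul_left
      exact Nat.pow_le_pow_right (by norm_num) (Nat.mul_le_mul_left _ hn)
  calc ((k - 1) + q ^ κ * 2 ^ ((k - 1) * (k - 2) * n)) *
      (4 * q ^ e * (2 * k) ^ (k * T + 1)) ^ E * q ^ B
      ≤ (((k - 1) + q ^ κ) * 2 ^ ((k - 1) * (k - 2) * T)) *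
      (4 * q ^ e * (2 * k) ^ (k * T + 1)) ^ E * q ^ B :=
        Nat.mul_le_mul_right _ (Nat.mul_le_mul_right _ h3)
    _ = ((k - 1) + q ^ κ) * (4 * q ^ e * (2 * k)) ^ E * q ^ B *
        (2 ^ ((k - 1) * (k - 2)) * ((2 * k) ^ k) ^ E) ^ T := by
        have e1 : (4 * q ^ e * (2 * k) ^ (k * T + 1)) ^ E
            = (4 * q ^ e * (2 * k)) ^ E * (((2 * k) ^ k) ^ E) ^ T := by
          have e2 : 4 * q ^ e * (2 * k) ^ (k * T + 1)
              = (4 * q ^ e * (2 * k)) * ((2 * k) ^ k) ^ T := by
            rw [pow_succ, pow_mul]; ring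
          rw [e2, mul_pow (4 * q ^ e * (2 * k)), ← pow_mul ((2 * k) ^ k) T E,
            ← pow_mul ((2 * k) ^ k) E T, mul_comm T E]
        have e3 : 2 ^ ((k - 1) * (k - 2) * T) = (2 ^ ((k - 1) * (k - 2))) ^ T := by
          rw [← pow_mul]
        rw [e1, e3, mul_pow (2 ^ ((k - 1) * (k - 2)))]
        ring
    _ ≤ q ^ T := h1
    _ ≤ q ^ (n + B) := Nat.pow_le_pow_right hq hnB
    _ = q ^ n * q ^ B := pow_add _ _ _

variable {F : Type*} [Field F] [Fintype F]

/-- The main existence theorem under local conditions. -/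
theorem exists_zero {k : ℕ} (hk : 2 ≤ k) (hch : ∀ i : ℕ, 1 ≤ i → i ≤ k → ((i : ℕ) : F) ≠ 0)
    (hbig : Big (Fintype.card F) k) (a b : Fin (2 * k + 1) → F[X]) (N : F[X]) (hN : N.Monic)
    (ha : ∀ i, a i ≠ 0) (hdvd : N ∣ ∑ i, a i * b i ^ k)
    (hloc : ∀ ϖ : F[X], Irreducible ϖ → ϖ ∣ N → ∃ i, ¬ ϖ ∣ a i * b i)
    (hrad : ∀ i, ∀ ϖ : F[X], Irreducible ϖ → ϖ ∣ a i → ϖ ∣ N)
    {ρ : ℕ} (c : Fin (2 * k + 1) → F)
    (hρ : ρ < k) (hcρ : ∀ i, c i ≠ 0 → (a i).natDegree % k = ρ)
    (hcsum : ∑ i, (a i).leadingCoeff * c i ^ k = 0) {i₀ : Fin (2 * k + 1)} (hi₀ : c i₀ ≠ 0) :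
    ∃ x : Fin (2 * k + 1) → F[X], x i₀ ≠ 0 ∧ ∑ i, a i * x i ^ k = 0 := by
  set D := N.natDegree with hD
  set Sd := ∑ i, (a i).natDegree with hSd
  set Sb := ∑ i, (b i).natDegree with hSb
  set A := (a 0 * N ^ (k - 1)).natDegree with hA
  have hdi : ∀ i, (a i).natDegree ≤ Sd := fun i =>
    Finset.single_le_sum (f := fun i => (a i).natDegree) (fun _ _ => Nat.zero_le _)
      (Finset.mem_univ i)
  have hbi : ∀ i, (b i).natDegree ≤ Sb := fun i =>
    Finset.single_le_sum (f := fun i => (b i).natDegree) (fun _ _ => Nat.zero_le _)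
      (Finset.mem_univ i)
  set B := D + Sd + 1 with hB
  set e := 2 * k * D + k * Sd + ρ + 2 * k with he
  set κ := B + A + ρ + Sd + (k - 1) * (Sd + D + 1) with hκ
  obtain ⟨T₀, hT₀⟩ := exists_T (q := Fintype.card F) hk hbig e κ B
  set T := T₀ + B + Sb + A + D + Sd + k + 5 with hT
  have hbigT := hT₀ T (by omega)
  set P : Fin (2 * k + 1) → ℕ := fun i => (k * T + ρ - (a i).natDegree) / k with hP
  have hkT : T ≤ k * T := Nat.le_mul_of_pos_left _ (by omega)
  have hP1 : ∀ i, k * P i + (a i).natDegree ≤ k * T + ρ := by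
    intro i
    have := Nat.mul_div_le (k * T + ρ - (a i).natDegree) k
    have h2 := hdi i
    simp only [hP]
    omega
  have hP2 : ∀ i, T ≤ P i + (a i).natDegree := by
    intro i
    have h2 := hdi i
    have h3 : T - (a i).natDegree ≤ P i := by
      simp only [hP]
      rw [Nat.le_div_iff_mul_le (by omega)]
      have h4 : (T - (a i).natDegree) * k = k * T - k * (a i).natDegree := by
        rw [Nat.sub_mul, mul_comm T k, mul_comm _ k]
      have h5 : (a i).natDegree ≤ k * (a i).natDegree := Nat.le_mul_of_pos_left _ (by omega)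
      omega
    omega
  have hP3 : ∀ i, P i ≤ T := by
    intro i
    by_contra hcon
    push Not at hcon
    have h2 := hP1 i
    have h3 : k * (T + 1) ≤ k * P i := Nat.mul_le_mul_left _ hcon
    have h4 : k * (T + 1) = k * T + k := by ring
    omega
  have hP4 : ∀ i, (a i).natDegree % k = ρ → k * P i + (a i).natDegree = k * T + ρ := by
    intro i hi
    have h2 := hdi i
    have h3 : (k * T + ρ - (a i).natDegree) % k = 0 := by
      have h4 := Nat.div_add_mod (a i).natDegree k
      rw [hi] at h4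
      have h5 : k * T + ρ - (a i).natDegree = k * (T - (a i).natDegree / k) := by
        rw [Nat.mul_sub]
        omega
      rw [h5]
      exact Nat.mul_mod_right _ _
    have h6 := Nat.div_add_mod (k * T + ρ - (a i).natDegree) k
    rw [h3, add_zero] at h6
    simp only [hP]
    omega
  set n : Fin (2 * k + 1) → ℕ := fun i => P i - D with hn
  set b' : Fin (2 * k + 1) → F[X] := fun i => b i + C (c i) * N * X ^ (P i - D) with hb'
  have hDP : ∀ i, D ≤ P i := by
    intro i
    have h2 := hP2 i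
    have h3 := hdi i
    omega
  set M := k * T + ρ - D with hM
  set R := T - B with hR
  set Nk := M - R with hNk
  have hRM : R ≤ M := by omega
  -- the variables
  have hx : ∀ i, ∀ y ∈ degreeLT F (n i), (b' i + N * y).natDegree ≤ P i := by
    intro i y hy
    have h2 := hP2 i
    have h3 := hdi i
    have h4 := hbi i
    have h5 := hDP i
    apply natDegree_add_le_of_degree_le
    · apply natDegree_add_le_of_degree_le (by omega)
      refine le_trans natDegree_mul_le ?_
      rw [natDegree_X_pow]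
      have : (C (c i) * N).natDegree ≤ D := natDegree_C_mul_le _ _
      omega
    · obtain ⟨n', hn'⟩ : ∃ n', n i = n' + 1 := ⟨n i - 1, by simp only [hn]; omega⟩
      rw [hn', mem_V_succ_iff] at hy
      refine le_trans natDegree_mul_le ?_
      simp only [hn] at hn'
      omega
  have hxc : ∀ i, ∀ y ∈ degreeLT F (n i), (b' i + N * y).coeff (P i) = c i := by
    intro i y hy
    have h2 := hP2 i
    have h3 := hdi i
    have h4 := hbi i
    have h5 := hDP i
    rw [coeff_add]
    have h6 : (N * y).coeff (P i) = 0 := by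
      apply coeff_eq_zero_of_natDegree_lt
      obtain ⟨n', hn'⟩ : ∃ n', n i = n' + 1 := ⟨n i - 1, by simp only [hn]; omega⟩
      rw [hn', mem_V_succ_iff] at hy
      refine lt_of_le_of_lt natDegree_mul_le ?_
      simp only [hn] at hn'
      omega
    have h7 : (b' i).coeff (P i) = c i := by
      simp only [hb']
      rw [coeff_add, coeff_eq_zero_of_natDegree_lt (show (b i).natDegree < P i by omega), zero_add]
      have e1 : P i = D + (P i - D) := by omega
      conv_lhs => rw [e1]
      have e2 : D + (P i - D) - D = P i - D := by omega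
      rw [e2, coeff_mul_X_pow, coeff_C_mul, hD, hN.coeff_natDegree, mul_one]
    rw [h6, h7, add_zero]
  -- divisibility of the constant term
  have hdvd' : N ∣ ∑ i, a i * b' i ^ k := by
    have h2 : N ∣ ∑ i, (a i * b' i ^ k - a i * b i ^ k) := by
      apply Finset.dvd_sum
      intro i _
      rw [← mul_sub]
      apply Dvd.dvd.mul_left
      refine dvd_trans ?_ (sub_dvd_pow_sub_pow _ _ _)
      refine ⟨C (c i) * X ^ (P i - D), ?_⟩
      simp only [hb']
      ring
    rw [Finset.sum_sub_distrib] at h2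
    exact (dvd_sub_left hdvd).1 h2
  obtain ⟨c0, hc0⟩ := hdvd'
  have hEE : ∀ y : (∀ i, degreeLT F (n i)),
      N * EE a b' N c0 n y = ∑ i, a i * (b' i + N * (y i : F[X])) ^ k := by
    intro y
    unfold EE
    rw [mul_add, ← hc0, Finset.mul_sum, ← Finset.sum_add_distrib]
    apply Finset.sum_congr rfl
    intro i _
    rw [GG_mul]
    ring
  have hE : ∀ y : (∀ i, degreeLT F (n i)), EE a b' N c0 n y ∈ degreeLT F M := by
    intro y
    by_cases h0 : EE a b' N c0 n y = 0
    · rw [h0]; exact Submodule.zero_mem _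
    have h1 : N * EE a b' N c0 n y ∈ degreeLT F (k * T + ρ) := by
      have h2 : N * EE a b' N c0 n y ∈ degreeLT F (k * T + ρ + 1) := by
        rw [hEE, mem_V_succ_iff]
        apply natDegree_sum_le_of_forall_le
        intro i _
        refine le_trans natDegree_mul_le ?_
        have h3 : ((b' i + N * (y i : F[X])) ^ k).natDegree ≤ k * P i :=
          le_trans natDegree_pow_le (Nat.mul_le_mul_left _ (hx i _ (y i).2))
        have := hP1 i
        omega
      apply mem_V_of_succ h2
      rw [hEE, finsetSum_coeff, ← hcsum]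
      apply Finset.sum_congr rfl
      intro i _
      by_cases hi : (a i).natDegree % k = ρ
      · rw [← hP4 i hi, add_comm (k * P i), coeff_mul_add_eq_of_natDegree_le le_rfl
          (le_trans natDegree_pow_le (Nat.mul_le_mul_left _ (hx i _ (y i).2))),
          coeff_pow_of_natDegree_le (hx i _ (y i).2), hxc i _ (y i).2]
        rfl
      · have hci : c i = 0 := by
          by_contra hne
          exact hi (hcρ i hne)
        rw [hci, zero_pow (by omega), mul_zero]
        apply coeff_eq_zero_of_natDegree_lt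
        have h3 : ((b' i + N * (y i : F[X])) ^ k).natDegree ≤ k * P i :=
          le_trans natDegree_pow_le (Nat.mul_le_mul_left _ (hx i _ (y i).2))
        refine lt_of_le_of_lt natDegree_mul_le ?_
        have h4 := hP1 i
        have h5 : k * P i + (a i).natDegree ≠ k * T + ρ := by
          intro heq
          apply hi
          have h6 : (k * P i + (a i).natDegree) % k = (k * T + ρ) % k := by rw [heq]
          rwa [Nat.mul_add_mod, Nat.mul_add_mod, Nat.mod_eq_of_lt hρ] at h6
        omega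
    obtain ⟨s, hs⟩ : ∃ s, k * T + ρ = s + 1 := ⟨k * T + ρ - 1, by omega⟩
    rw [hs, mem_V_succ_iff, natDegree_mul hN.ne_zero h0] at h1
    obtain ⟨s', hs'⟩ : ∃ s', M = s' + 1 := ⟨M - 1, by omega⟩
    rw [hs', mem_V_succ_iff]
    omega
  have hdegM : ∀ i, n i + ((a i).natDegree + (k - 1) * P i) ≤ M := by
    intro i
    have h1 := hP1 i
    have h2 := hDP i
    have h3 : k * P i = (k - 1) * P i + P i := by
      obtain ⟨k', rfl⟩ : ∃ k', k = k' + 1 := ⟨k - 1, by omega⟩
      simp only [Nat.add_sub_cancel]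
      ring
    simp only [hn]
    omega
  have hRn : ∀ i, R ≤ n i := by
    intro i
    have h1 := hP2 i
    have h2 := hdi i
    simp only [hn]
    omega
  have H : Hyp a b' N c0 n P M Nk R := by
    refine ⟨hN.ne_zero, by omega, by omega, hRn, hx, ?_, hE, ?_, hrad⟩
    · intro i
      have h1 := hdegM i
      have h2 := hRn i
      omega
    · intro ϖ hϖ hϖN
      obtain ⟨i, hi⟩ := hloc ϖ hϖ hϖN
      refine ⟨i, fun h => hi ?_⟩
      rcases hϖ.prime.dvd_or_dvd h with h1 | h1
      · rcases hϖ.prime.dvd_or_dvd h1 with h2 | h2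
        · exfalso
          have h3 : IsUnit ((k : F[X])) := by
            rw [← map_natCast (C : F →+* F[X]), isUnit_C]
            exact (hch k (by omega) le_rfl).isUnit
          exact hϖ.not_isUnit (isUnit_of_dvd_unit h2 h3)
        · exact Dvd.dvd.mul_right h2 _
      · have h2 := hϖ.prime.dvd_of_dvd_pow h1
        apply Dvd.dvd.mul_left
        have h3 : ϖ ∣ C (c i) * N * X ^ (P i - D) :=
          Dvd.dvd.mul_right (Dvd.dvd.mul_left hϖN _) _
        exact (dvd_add_left h3).1 h2
  have I : Inf a b' N n P M i₀ (c i₀) := by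
    refine ⟨ha i₀, hi₀, hxc i₀, ?_⟩
    have h1 := hP4 i₀ (hcρ i₀ hi₀)
    have h2 := hDP i₀
    have h3 : k * P i₀ = (k - 1) * P i₀ + P i₀ := by
      obtain ⟨k', rfl⟩ : ∃ k', k = k' + 1 := ⟨k - 1, by omega⟩
      simp only [Nat.add_sub_cancel]
      ring
    simp only [hn]
    omega
  have hkk : ∀ t, k * t = (k - 1) * t + t := by
    intro t
    obtain ⟨k', hk'⟩ : ∃ k', k = k' + 1 := ⟨k - 1, by omega⟩
    rw [hk']
    simp only [Nat.add_sub_cancel]
    ring
  have U : Num (Fintype.card F) a N n P M Nk R e κ T := by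
    refine ⟨ha, hdegM, ?_, hP3, ?_, ?_, ?_, ?_, ?_⟩
    · intro i
      have h1 := hP2 i
      have h2 := hdi i
      have h3 := hDP i
      have h4 : k * T ≤ k * P i + k * (a i).natDegree := by
        rw [← mul_add]; exact Nat.mul_le_mul_left _ h1
      have h5 : k * (a i).natDegree ≤ k * Sd := Nat.mul_le_mul_left _ h2
      have h6 : 2 * k * (P i + 1) = k * P i + k * P i + 2 * k := by ring
      have h7 : 2 * k * n i = k * P i + k * P i - 2 * k * D := by
        simp only [hn]
        rw [Nat.mul_sub]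
        congr 1
        ring
      have h8 : 2 * k * D ≤ k * P i + k * P i := by
        have := Nat.mul_le_mul_left (2 * k) h3
        have e3 : 2 * k * P i = k * P i + k * P i := by ring
        omega
      omega
    · have h1 := hP2 0
      have h2 := hdi 0
      simp only [hn]
      omega
    · have h1 := hP3 0
      have h2 : (k - 1) * (n 0 - 1) ≤ (k - 1) * T := Nat.mul_le_mul_left _ (by
        simp only [hn]; omega)
      have h3 := hkk T
      omega
    · omega
    · have h1 := hP3 0
      have h2 := hP2 0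
      have h3 := hdi 0
      have h4 : n 0 - (R + 1 - A) ≤ B + A := by
        simp only [hn]
        omega
      have h5 : (k - 1) * T ≤ (k - 1) * (n 0 - 1) + (k - 1) * (Sd + D + 1) := by
        rw [← mul_add]
        apply Nat.mul_le_mul_left
        simp only [hn]
        omega
      have h6 := hkk T
      have h7 : Nk - ((k - 1) * (n 0 - 1) + 1) ≤ ρ + Sd + (k - 1) * (Sd + D + 1) := by
        omega
      omega
    · apply hbigT (n 0)
      · have h1 := hP3 0
        simp only [hn]
        omega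
      · have h1 := hP2 0
        have h2 := hdi 0
        simp only [hn]
        omega
  obtain ⟨y, hy⟩ := main_exists hk hch hbig H I U
  refine ⟨fun i => b' i + N * (y i : F[X]), ?_, ?_⟩
  · intro h0
    have h1 : b' i₀ + N * (y i₀ : F[X]) = 0 := h0
    have := hxc i₀ _ (y i₀).2
    rw [h1, coeff_zero] at this
    exact hi₀ this.symm
  · rw [← hEE y, hy, mul_zero]

end Pool.Agent.H598.DG
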