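import Pool.Agent.H598.DG.Local

/-!
# Diagonal forms in `2k+1` variables over `F(t)`
-/

namespace Pool.Agent.H598.DG

open Finset Polynomial Pool.Agent.H598.FQ
open scoped Classical

variable {F : Type*} [Field F] [Fintype F]

/-- Local solutions. -/
lemma local_sol {k s : ℕ} (hk : 0 < k) (hQ : 8 * k ^ 4 ≤ Fintype.card F) {a : Fin s → F[X]}
    (hr : Red a) {p : F[X]} (hm : p.Monic) (hp : Irreducible p) :
    ∃ β : Fin s → F[X], p ∣ ∑ i, a i * β i ^ k ∧ ∃ i, ¬ p ∣ a i * β i := by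
  have : Fact (Irreducible p) := ⟨hp⟩
  have : Module.Finite F (AdjoinRoot p) := hm.finite_adjoinRoot
  have : Finite (AdjoinRoot p) := Module.finite_of_finite F
  let _ : Fintype (AdjoinRoot p) := Fintype.ofFinite _
  have hcard : Fintype.card F ≤ Fintype.card (AdjoinRoot p) :=
    Fintype.card_le_of_injective _ (algebraMap F (AdjoinRoot p)).injective
  obtain ⟨c, hcJ, ⟨i, hi⟩, hsum⟩ := three_supp (K := AdjoinRoot p) hk (le_trans hQ hcard)
    (fun i => AdjoinRoot.mk p (a i)) (Finset.univ.filter (fun i => ¬ p ∣ a i)) (hr p hp) (by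
      intro i hi
      rw [Ne, AdjoinRoot.mk_eq_zero]
      exact (Finset.mem_filter.1 hi).2)
  choose β hβ using fun i => AdjoinRoot.mk_surjective (g := p) (c i)
  refine ⟨β, ?_, i, ?_⟩
  · rw [← AdjoinRoot.mk_eq_zero, map_sum, ← hsum]
    apply Finset.sum_congr rfl
    intro i _
    rw [map_mul, map_pow, hβ]
  · intro h
    rcases hp.prime.dvd_or_dvd h with h1 | h1
    · exact (Finset.mem_filter.1 (hcJ i hi)).2 h1
    · apply hi
      rw [← hβ i]
      exact AdjoinRoot.mk_eq_zero.2 h1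

/-- The case of reduced forms. -/
theorem diag_red {k : ℕ} (hk : 2 ≤ k) (hch : ∀ i : ℕ, 1 ≤ i → i ≤ k → ((i : ℕ) : F) ≠ 0)
    (hbig : Big (Fintype.card F) k) (a : Fin (2 * k + 1) → F[X]) (ha : ∀ i, a i ≠ 0)
    (hr : Red a) : ∃ x : Fin (2 * k + 1) → F[X], x ≠ 0 ∧ ∑ i, a i * x i ^ k = 0 := by
  have hQ := eight_le hk hbig
  set Pa := ∏ i, a i with hPa
  have hPa0 : Pa ≠ 0 := Finset.prod_ne_zero_iff.2 (fun i _ => ha i)
  set S : Finset F[X] := (UniqueFactorizationMonoid.normalizedFactors Pa).toFinset with hS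
  have hSp : ∀ p ∈ S, p.Monic ∧ Irreducible p := by
    intro p hp
    rw [hS, Multiset.mem_toFinset] at hp
    have h1 := UniqueFactorizationMonoid.irreducible_of_normalized_factor p hp
    refine ⟨?_, h1⟩
    rw [← UniqueFactorizationMonoid.normalize_normalized_factor p hp]
    exact monic_normalize h1.ne_zero
  set N := ∏ p ∈ S, p with hN
  have hNm : N.Monic := monic_prod_of_monic _ _ (fun p hp => (hSp p hp).1)
  -- local solutions
  have hloc : ∀ p : F[X], ∃ β : Fin (2 * k + 1) → F[X], p.Monic ∧ Irreducible p →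
      (p ∣ ∑ i, a i * β i ^ k ∧ ∃ i, ¬ p ∣ a i * β i) := by
    intro p
    by_cases h : p.Monic ∧ Irreducible p
    · obtain ⟨β, hβ⟩ := local_sol (show 0 < k by omega) hQ hr h.1 h.2
      exact ⟨β, fun _ => hβ⟩
    · exact ⟨0, fun h' => absurd h' h⟩
  choose β hβ using hloc
  choose b hb using fun i : Fin (2 * k + 1) => crt (fun p => β p i) S hSp
  have hdiv : ∀ p ∈ S, p ∣ ∑ i, a i * b i ^ k := by
    intro p hp
    have h1 := (hβ p (hSp p hp)).1
    have h2 : p ∣ ∑ i, (a i * b i ^ k - a i * β p i ^ k) := by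
      apply Finset.dvd_sum
      intro i _
      rw [← mul_sub]
      apply Dvd.dvd.mul_left
      exact dvd_trans (hb i p hp) (sub_dvd_pow_sub_pow _ _ _)
    rw [Finset.sum_sub_distrib] at h2
    exact (dvd_sub_left h1).1 h2
  have hdvd : N ∣ ∑ i, a i * b i ^ k := by
    apply Finset.prod_dvd_of_coprime _ hdiv
    intro p hp p' hp' hne
    have h1 := hSp p hp
    have h2 := hSp p' hp'
    refine (EuclideanDomain.dvd_or_coprime p p' h1.2).resolve_left ?_
    intro hd
    exact hne (eq_of_monic_of_associated h1.1 h2.1 (h1.2.associated_of_dvd h2.2 hd))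
  have hlocN : ∀ ϖ : F[X], Irreducible ϖ → ϖ ∣ N → ∃ i, ¬ ϖ ∣ a i * b i := by
    intro ϖ hϖ hϖN
    obtain ⟨p, hp, hϖp⟩ := hϖ.prime.exists_mem_finset_dvd hϖN
    have h1 := hSp p hp
    have hass := hϖ.associated_of_dvd h1.2 hϖp
    obtain ⟨i, hi⟩ := (hβ p h1).2
    refine ⟨i, fun h => hi ?_⟩
    have h2 : p ∣ a i * b i := hass.dvd_iff_dvd_left.1 h
    have h3 : a i * β p i = a i * b i - a i * (b i - β p i) := by ring
    rw [h3]
    exact dvd_sub h2 (Dvd.dvd.mul_left (hb i p hp) _)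
  have hrad : ∀ i, ∀ ϖ : F[X], Irreducible ϖ → ϖ ∣ a i → ϖ ∣ N := by
    intro i ϖ hϖ hϖa
    have h1 : ϖ ∣ Pa := dvd_trans hϖa (Finset.dvd_prod_of_mem a (Finset.mem_univ i))
    obtain ⟨p, hp, hass⟩ := UniqueFactorizationMonoid.exists_mem_normalizedFactors_of_dvd hPa0 hϖ h1
    have h2 : p ∈ S := by
      rw [hS, Multiset.mem_toFinset]; exact hp
    exact dvd_trans hass.dvd (Finset.dvd_prod_of_mem (fun p => p) h2)
  -- the place at infinity
  obtain ⟨ρ, hρ, hJ⟩ := Finset.exists_lt_card_fiber_of_mul_lt_card_of_maps_to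
    (s := (Finset.univ : Finset (Fin (2 * k + 1)))) (t := Finset.range k)
    (f := fun i => (a i).natDegree % k) (n := 2)
    (fun i _ => Finset.mem_range.2 (Nat.mod_lt _ (by omega))) (by
      rw [Finset.card_range, Finset.card_univ, Fintype.card_fin]
      omega)
  obtain ⟨c, hcJ, ⟨i₀, hi₀⟩, hsum⟩ := three_supp (K := F) (show 0 < k by omega) hQ
    (fun i => (a i).leadingCoeff) (Finset.univ.filter (fun i => (a i).natDegree % k = ρ)) hJ (by
      intro i _
      exact leadingCoeff_ne_zero.2 (ha i))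
  obtain ⟨x, hx, hx0⟩ := exists_zero hk hch hbig a b N hNm ha hdvd hlocN hrad c
    (Finset.mem_range.1 hρ) (fun i hi => (Finset.mem_filter.1 (hcJ i hi)).2) hsum hi₀
  exact ⟨x, fun h => hx (by rw [h]; rfl), hx0⟩

/-- Diagonal forms with polynomial coefficients in `2k+1` variables. -/
theorem diag_poly {k : ℕ} (hk : 2 ≤ k) (hch : ∀ i : ℕ, 1 ≤ i → i ≤ k → ((i : ℕ) : F) ≠ 0)
    (hbig : Big (Fintype.card F) k) (a : Fin (2 * k + 1) → F[X]) :
    ∃ x : Fin (2 * k + 1) → F[X], x ≠ 0 ∧ ∑ i, a i * x i ^ k = 0 := by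
  by_cases ha : ∀ i, a i ≠ 0
  · exact reduce (show 1 ≤ k by omega) le_rfl
      (fun a ha hr => diag_red hk hch hbig a ha hr) _ a ha rfl
  · push Not at ha
    obtain ⟨i, hi⟩ := ha
    refine ⟨Pi.single i 1, ?_, ?_⟩
    · intro h
      have := congrFun h i
      simp at this
    · apply Finset.sum_eq_zero
      intro j _
      by_cases hj : j = i
      · rw [hj, hi, zero_mul]
      · rw [Pi.single_eq_of_ne hj, zero_pow (by omega), mul_zero]

/-- Diagonal forms over the field of rational functions. -/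
theorem diag_ratFunc {k : ℕ} (hk : 2 ≤ k) (hch : ∀ i : ℕ, 1 ≤ i → i ≤ k → ((i : ℕ) : F) ≠ 0)
    (hbig : Big (Fintype.card F) k) {s : ℕ} (hs : 2 * k + 1 ≤ s) (a : Fin s → RatFunc F) :
    ∃ x : Fin s → RatFunc F, x ≠ 0 ∧ ∑ i, a i * x i ^ k = 0 := by
  let ι : Fin (2 * k + 1) → Fin s := Fin.castLE hs
  have hι : Function.Injective ι := Fin.castLE_injective hs
  obtain ⟨z, hz, hz0⟩ := diag_poly hk hch hbig
    (fun i => (a (ι i)).num * (a (ι i)).denom ^ (k - 1))
  let x' : Fin (2 * k + 1) → RatFunc F :=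
    fun i => algebraMap F[X] (RatFunc F) ((a (ι i)).denom * z i)
  have hx' : ∑ i, a (ι i) * x' i ^ k = 0 := by
    have h1 : ∀ i, a (ι i) * x' i ^ k
        = algebraMap F[X] (RatFunc F) ((a (ι i)).num * (a (ι i)).denom ^ (k - 1) * z i ^ k) := by
      intro i
      have hd : algebraMap F[X] (RatFunc F) (a (ι i)).denom ≠ 0 :=
        RatFunc.algebraMap_ne_zero (RatFunc.denom_ne_zero _)
      have h2 : a (ι i) * algebraMap F[X] (RatFunc F) (a (ι i)).denom
          = algebraMap F[X] (RatFunc F) (a (ι i)).num := by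
        conv_lhs => rw [← RatFunc.num_div_denom (a (ι i))]
        rw [RatFunc.num_div_denom]
        have := RatFunc.num_div_denom (a (ι i))
        rw [div_eq_iff hd] at this
        exact this.symm
      obtain ⟨k', rfl⟩ : ∃ k', k = k' + 1 := ⟨k - 1, by omega⟩
      simp only [x', Nat.add_sub_cancel, map_mul, map_pow]
      rw [← h2]
      ring
    rw [Finset.sum_congr rfl (fun i _ => h1 i), ← map_sum, hz0, map_zero]
  obtain ⟨w, hw1, hw2⟩ : ∃ w : Fin s → RatFunc F, (∀ i, w (ι i) = x' i) ∧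
      ∀ j, (¬ ∃ i, ι i = j) → w j = 0 := by
    refine ⟨fun j => if h : ∃ i, ι i = j then x' h.choose else 0, ?_, ?_⟩
    · intro i
      have h2 : ∃ i', ι i' = ι i := ⟨i, rfl⟩
      have h3 : h2.choose = i := hι h2.choose_spec
      change (if h : ∃ i', ι i' = ι i then x' h.choose else 0) = x' i
      rw [dif_pos h2, h3]
    · intro j hj
      change (if h : ∃ i', ι i' = j then x' h.choose else 0) = 0
      rw [dif_neg hj]
  refine ⟨w, ?_, ?_⟩
  · intro h
    apply hz
    funext i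
    have h1 : x' i = 0 := by rw [← hw1 i, h]; rfl
    have h4 : (a (ι i)).denom * z i = 0 := by
      by_contra hne
      exact RatFunc.algebraMap_ne_zero hne h1
    exact (mul_eq_zero.1 h4).resolve_left (RatFunc.denom_ne_zero _)
  · refine Eq.trans ?_ hx'
    rw [← Finset.sum_subset (Finset.subset_univ (Finset.univ.image ι)),
      Finset.sum_image (fun _ _ _ _ h => hι h)]
    · apply Finset.sum_congr rfl
      intro i _
      rw [hw1]
    · intro j _ hj
      rw [hw2, zero_pow (by omega), mul_zero]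
      rintro ⟨i, hi⟩
      apply hj
      rw [Finset.mem_image]
      exact ⟨i, Finset.mem_univ _, hi⟩

end Pool.Agent.H598.DG
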