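import Pool.Agent.H598.FQ.Final

/-!
# Arcs, general version

Functionals on the polynomials of degree less than `M`, classified by the least degree of a
polynomial `h` for which `h * V N` is killed.
-/

namespace Pool.Agent.H598.DG

open Finset Polynomial Pool.Agent.H598.FQ
open scoped Classical

variable {F : Type*} [Field F]

/-- The functional kills `h * V N`. -/
def Kn (L : F[X] →ₗ[F] F) (N : ℕ) (h : F[X]) : Prop :=
  ∀ y ∈ degreeLT F N, L (h * y) = 0

/-- The least degree of a killing polynomial is `d`. -/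
def ism (L : F[X] →ₗ[F] F) (N d : ℕ) : Prop :=
  (∃ h : F[X], h.Monic ∧ h.natDegree = d ∧ Kn L N h) ∧
    ∀ h : F[X], h ≠ 0 → h.natDegree < d → ¬ Kn L N h

/-- No killing polynomial of degree at most `R`. -/
def mis (L : F[X] →ₗ[F] F) (N R : ℕ) : Prop :=
  ∀ h : F[X], h ≠ 0 → h.natDegree ≤ R → ¬ Kn L N h

lemma Kn_smul {L : F[X] →ₗ[F] F} {N : ℕ} {h : F[X]} (c : F) (hh : Kn L N h) :
    Kn L N (C c * h) := by
  intro y hy
  rw [mul_assoc, ← smul_eq_C_mul, map_smul, hh y hy, smul_zero]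

lemma exists_monicN {L : F[X] →ₗ[F] F} {N : ℕ} {h : F[X]} (h0 : h ≠ 0) (hh : Kn L N h) :
    ∃ g : F[X], g.Monic ∧ g.natDegree = h.natDegree ∧ Kn L N g := by
  have hc : h.leadingCoeff⁻¹ ≠ 0 := inv_ne_zero (leadingCoeff_ne_zero.2 h0)
  refine ⟨C h.leadingCoeff⁻¹ * h, ?_, ?_, Kn_smul _ hh⟩
  · rw [Monic, leadingCoeff_mul, leadingCoeff_C, inv_mul_cancel₀ (leadingCoeff_ne_zero.2 h0)]
  · rw [natDegree_C_mul hc]

/-- Reduction modulo the killing polynomial. -/
lemma redN {L : F[X] →ₗ[F] F} {N d : ℕ} (hN : 1 ≤ N) {g : F[X]} (hg : g.Monic)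
    (hd : g.natDegree = d) (hK : Kn L N g) {w : F[X]} (hw : w ∈ degreeLT F (N + d)) :
    L w = L (w %ₘ g) := by
  obtain ⟨N', rfl⟩ : ∃ N', N = N' + 1 := ⟨N - 1, by omega⟩
  have h1 := modByMonic_add_div w g
  have h2 : w /ₘ g ∈ degreeLT F (N' + 1) := by
    have e : N' + 1 + d = N' + d + 1 := by ring
    rw [e] at hw
    rw [mem_V_succ_iff] at *
    rw [natDegree_divByMonic w hg]
    omega
  conv_lhs => rw [← h1]
  rw [map_add, hK _ h2, add_zero]

lemma ism_unique {L : F[X] →ₗ[F] F} {N d d' : ℕ} (h : ism L N d) (h' : ism L N d') :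
    d = d' := by
  obtain ⟨⟨g, hg, hgd, hK⟩, hm⟩ := h
  obtain ⟨⟨g', hg', hgd', hK'⟩, hm'⟩ := h'
  by_contra hne
  rcases Nat.lt_or_gt_of_ne hne with hlt | hlt
  · exact hm' g hg.ne_zero (by omega) hK
  · exact hm g' hg'.ne_zero (by omega) hK'

lemma ism_or_mis (L : F[X] →ₗ[F] F) (N R : ℕ) : (∃ d, d ≤ R ∧ ism L N d) ∨ mis L N R := by
  by_cases h : ∃ d, d ≤ R ∧ ∃ h : F[X], h ≠ 0 ∧ h.natDegree = d ∧ Kn L N h
  · left
    have h1 : ∃ d, ∃ h : F[X], h ≠ 0 ∧ h.natDegree = d ∧ Kn L N h := by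
      obtain ⟨d, _, hd⟩ := h
      exact ⟨d, hd⟩
    refine ⟨Nat.find h1, ?_, ?_⟩
    · obtain ⟨d, hdP, hd⟩ := h
      exact le_trans (Nat.find_min' h1 hd) hdP
    · obtain ⟨f, hf0, hfd, hfK⟩ := Nat.find_spec h1
      obtain ⟨g, hg, hgd, hK⟩ := exists_monicN hf0 hfK
      refine ⟨⟨g, hg, by rw [hgd, hfd], hK⟩, ?_⟩
      intro h' h0 hlt hK'
      exact Nat.find_min h1 hlt ⟨h', h0, rfl, hK'⟩
  · right
    push Not at h
    intro f hf0 hfP hK
    exact h f.natDegree hfP f hf0 rfl hK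

lemma not_ism_of_mis {L : F[X] →ₗ[F] F} {N R d : ℕ} (hdR : d ≤ R) (h : mis L N R) :
    ¬ ism L N d := by
  rintro ⟨⟨g, hg, hgd, hK⟩, -⟩
  exact h g hg.ne_zero (by omega) hK

section
variable [Fintype F]

/-- The functionals of level `d`. -/
noncomputable def DN (F : Type*) [Field F] [Fintype F] (M N d : ℕ) : Finset (Fin M → F) :=
  Finset.univ.filter (fun α => ism (lin α) N d)

/-- The minor functionals. -/
noncomputable def MN (F : Type*) [Field F] [Fintype F] (M N R : ℕ) : Finset (Fin M → F) :=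
  Finset.univ.filter (fun α => mis (lin α) N R)

lemma mem_DN {M N d : ℕ} {α : Fin M → F} : α ∈ DN F M N d ↔ ism (lin α) N d := by
  rw [DN, Finset.mem_filter]
  exact ⟨fun h => h.2, fun h => ⟨Finset.mem_univ _, h⟩⟩

lemma mem_MN {M N R : ℕ} {α : Fin M → F} : α ∈ MN F M N R ↔ mis (lin α) N R := by
  rw [MN, Finset.mem_filter]
  exact ⟨fun h => h.2, fun h => ⟨Finset.mem_univ _, h⟩⟩

/-- The decomposition of the sum over all functionals. -/
lemma sum_splitN (M N R : ℕ) (f : (Fin M → F) → ℂ) :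
    ∑ α, f α = ∑ d ∈ Finset.range (R + 1), ∑ α ∈ DN F M N d, f α + ∑ α ∈ MN F M N R, f α := by
  rw [← Finset.sum_biUnion, ← Finset.sum_union]
  · apply Finset.sum_congr _ (fun _ _ => rfl)
    ext α
    simp only [Finset.mem_univ, Finset.mem_union, Finset.mem_biUnion, Finset.mem_range, mem_DN,
      mem_MN, true_iff]
    rcases ism_or_mis (lin α) N R with ⟨d, hd, h⟩ | h
    · left; exact ⟨d, by omega, h⟩
    · right; exact h
  · rw [Finset.disjoint_left]
    intro α hα hα'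
    simp only [Finset.mem_biUnion, Finset.mem_range, mem_DN, mem_MN] at hα hα'
    obtain ⟨d, hd, h⟩ := hα
    exact not_ism_of_mis (by omega) hα' h
  · intro d _ d' _ hne
    rw [Function.onFun, Finset.disjoint_left]
    intro α hα hα'
    rw [mem_DN] at hα hα'
    exact hne (ism_unique hα hα')

/-- The level-zero functionals. -/
lemma DN_zero (M N : ℕ) : DN F M N 0 = Bs F M N := by
  ext α
  rw [mem_DN]
  constructor
  · rintro ⟨⟨h, hm, hd, hK⟩, -⟩
    have h1 : h = 1 := by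
      rw [eq_C_of_natDegree_eq_zero hd] at hm ⊢
      rw [Monic, leadingCoeff_C] at hm
      rw [hm, C_1]
    apply mem_Bs_of_lin
    intro w hw
    have := hK w hw
    rwa [h1, one_mul] at this
  · intro hα
    refine ⟨⟨1, monic_one, natDegree_one, ?_⟩, ?_⟩
    · intro y hy
      rw [one_mul]
      exact lin_zero_of_mem_Bs hα hy
    · intro h _ hlt
      omega

omit [Fintype F] in
lemma mul_mem_VN {N d : ℕ} {h y : F[X]} (hd : h.natDegree ≤ d) (hy : y ∈ degreeLT F N) :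
    h * y ∈ degreeLT F (N + d) := by
  have h2 : h ∈ degreeLT F (d + 1) := mem_V_succ_iff.2 hd
  have := mul_mem_V hy h2
  rwa [mul_comm] at this

lemma Kn_add_iff {M N d : ℕ} {α β : Fin M → F} (hβ : β ∈ Bs F M (N + d)) {h : F[X]}
    (hd : h.natDegree ≤ d) : Kn (lin (α + β)) N h ↔ Kn (lin α) N h := by
  unfold Kn
  apply forall_congr'
  intro y
  apply forall_congr'
  intro hy
  rw [lin_add, lin_zero_of_mem_Bs hβ (mul_mem_VN hd hy), add_zero]

lemma ism_add_iff {M N d : ℕ} {α β : Fin M → F} (hβ : β ∈ Bs F M (N + d)) :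
    ism (lin (α + β)) N d ↔ ism (lin α) N d := by
  unfold ism
  constructor
  · rintro ⟨⟨h, h1, h2, h3⟩, h4⟩
    refine ⟨⟨h, h1, h2, (Kn_add_iff hβ (by omega)).1 h3⟩, ?_⟩
    intro h' h5 h6 h7
    exact h4 h' h5 h6 ((Kn_add_iff hβ (by omega)).2 h7)
  · rintro ⟨⟨h, h1, h2, h3⟩, h4⟩
    refine ⟨⟨h, h1, h2, (Kn_add_iff hβ (by omega)).2 h3⟩, ?_⟩
    intro h' h5 h6 h7
    exact h4 h' h5 h6 ((Kn_add_iff hβ (by omega)).1 h7)

/-- Averaging over the translations by `Bs`. -/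
lemma sum_DN_avg {ψ : AddChar F ℂ} (hψ : ψ ≠ 1) {M N d : ℕ} {Y : Type*} [Fintype Y]
    (E : Y → F[X]) (hE : ∀ y, E y ∈ degreeLT F M) :
    ∑ α ∈ DN F M N d, ∑ y, ψ (lin α (E y))
      = ∑ α ∈ DN F M N d, ∑ y ∈ Finset.univ.filter (fun y => E y ∈ degreeLT F (N + d)),
        ψ (lin α (E y)) := by
  set B := Bs F M (N + d) with hB
  have hBcard : (B.card : ℂ) ≠ 0 := by
    rw [hB, card_Bs]
    have : Fintype.card F ≠ 0 := Fintype.card_ne_zero
    exact_mod_cast pow_ne_zero _ this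
  have h1 : ∀ β ∈ B, ∑ α ∈ DN F M N d, ∑ y, ψ (lin α (E y))
      = ∑ α ∈ DN F M N d, ∑ y, ψ (lin (α + β) (E y)) := by
    intro β hβ
    symm
    apply Finset.sum_bij' (fun α _ => α + β) (fun α _ => α + -β)
    · intro α hα
      rw [mem_DN] at *
      exact (ism_add_iff hβ).2 hα
    · intro α hα
      rw [mem_DN] at *
      exact (ism_add_iff (Bs_neg hβ)).2 hα
    · intro α _; simp
    · intro α _; simp
    · intro α _; rfl
  have h2 : (B.card : ℂ) * ∑ α ∈ DN F M N d, ∑ y, ψ (lin α (E y))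
      = (B.card : ℂ) * ∑ α ∈ DN F M N d,
        ∑ y ∈ Finset.univ.filter (fun y => E y ∈ degreeLT F (N + d)), ψ (lin α (E y)) := by
    rw [← nsmul_eq_mul, ← Finset.sum_const, Finset.sum_congr rfl h1, Finset.sum_comm,
      Finset.mul_sum]
    apply Finset.sum_congr rfl
    intro α _
    rw [Finset.sum_comm]
    have h3 : ∀ y : Y, ∑ β ∈ B, ψ (lin (α + β) (E y))
        = if E y ∈ degreeLT F (N + d) then (B.card : ℂ) * ψ (lin α (E y)) else 0 := by
      intro y
      have h4 : ∀ β ∈ B, ψ (lin (α + β) (E y)) = ψ (lin α (E y)) * ψ (lin β (E y)) := by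
        intro β _
        rw [lin_add, AddChar.map_add_eq_mul]
      rw [Finset.sum_congr rfl h4, ← Finset.mul_sum, hB, sum_Bs hψ (hE y), card_Bs]
      split_ifs
      · push_cast; ring
      · ring
    rw [Finset.sum_congr rfl (fun y _ => h3 y), ← Finset.sum_filter, ← Finset.mul_sum]
  exact mul_left_cancel₀ hBcard h2

/-- The level zero contribution. -/
lemma sum_DN_zero {ψ : AddChar F ℂ} (hψ : ψ ≠ 1) {M N : ℕ} {Y : Type*} [Fintype Y]
    (E : Y → F[X]) (hE : ∀ y, E y ∈ degreeLT F M) :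
    ∑ α ∈ DN F M N 0, ∑ y, ψ (lin α (E y))
      = (Fintype.card F : ℂ) ^ (M - N) *
        ((Finset.univ.filter (fun y => E y ∈ degreeLT F N)).card : ℂ) := by
  rw [DN_zero, Finset.sum_comm]
  have h1 : ∀ y : Y, ∑ α ∈ Bs F M N, ψ (lin α (E y))
      = if E y ∈ degreeLT F N then (Fintype.card F : ℂ) ^ (M - N) else 0 := by
    intro y
    rw [sum_Bs hψ (hE y)]
  rw [Finset.sum_congr rfl (fun y _ => h1 y), ← Finset.sum_filter, Finset.sum_const,
    nsmul_eq_mul, mul_comm]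

/-- Full orthogonality. -/
lemma sum_all {ψ : AddChar F ℂ} (hψ : ψ ≠ 1) {M : ℕ} {Y : Type*} [Fintype Y]
    (E : Y → F[X]) (hE : ∀ y, E y ∈ degreeLT F M) :
    ∑ α : Fin M → F, ∑ y, ψ (lin α (E y))
      = (Fintype.card F : ℂ) ^ M * ((Finset.univ.filter (fun y => E y = 0)).card : ℂ) := by
  rw [Finset.sum_comm]
  have h1 : ∀ y : Y, ∑ α : Fin M → F, ψ (lin α (E y))
      = if E y = 0 then (Fintype.card F : ℂ) ^ M else 0 := by
    intro y
    rw [sum_lin hψ (hE y)]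
  rw [Finset.sum_congr rfl (fun y _ => h1 y), ← Finset.sum_filter, Finset.sum_const,
    nsmul_eq_mul, mul_comm]

end

end Pool.Agent.H598.DG
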