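import Pool.Agent.H598.DG.Levels

/-!
# The contribution of the functionals of level `d`
-/

namespace Pool.Agent.H598.DG

open Finset Polynomial Pool.Agent.H598.FQ
open scoped Classical

variable {F : Type*} [Field F]

/-- The error polynomial. -/
noncomputable def EE {k : ℕ} (a b : Fin (2 * k + 1) → F[X]) (N c0 : F[X])
    (n : Fin (2 * k + 1) → ℕ) (y : ∀ i, degreeLT F (n i)) : F[X] :=
  ∑ i, GG k (a i) (b i) N (y i) + c0

/-- The hypotheses of the circle method. -/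
structure Hyp {k : ℕ} (a b : Fin (2 * k + 1) → F[X]) (N c0 : F[X])
    (n P : Fin (2 * k + 1) → ℕ) (M Nk R : ℕ) : Prop where
  N0 : N ≠ 0
  hNk : 1 ≤ Nk
  hM : Nk + R = M
  hn : ∀ i, R ≤ n i
  hx : ∀ i, ∀ y ∈ degreeLT F (n i), (b i + N * y).natDegree ≤ P i
  hA : ∀ i, (a i).natDegree + (k - 1) * P i ≤ Nk
  hE : ∀ y : (∀ i, degreeLT F (n i)), EE a b N c0 n y ∈ degreeLT F M
  hloc : ∀ ϖ : F[X], Irreducible ϖ → ϖ ∣ N → ∃ i, ¬ ϖ ∣ (k : F[X]) * a i * b i ^ (k - 1)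
  hrad : ∀ i, ∀ ϖ : F[X], Irreducible ϖ → ϖ ∣ a i → ϖ ∣ N

/-- Translation of a tuple by polynomials of small degree. -/
noncomputable def shiftN {s d : ℕ} {n : Fin s → ℕ} (hd : ∀ i, d ≤ n i)
    (y : ∀ i, degreeLT F (n i)) (z : Fin s → degreeLT F d) : ∀ i, degreeLT F (n i) :=
  fun i => y i + ⟨(z i : F[X]), V_mono (hd i) (z i).2⟩

lemma shiftN_coe {s d : ℕ} {n : Fin s → ℕ} (hd : ∀ i, d ≤ n i)
    (y : ∀ i, degreeLT F (n i)) (z : Fin s → degreeLT F d) (i : Fin s) :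
    ((shiftN hd y z i : degreeLT F (n i)) : F[X]) = (y i : F[X]) + (z i : F[X]) := rfl

section
variable {k : ℕ} {a b : Fin (2 * k + 1) → F[X]} {N c0 : F[X]} {n P : Fin (2 * k + 1) → ℕ}
  {M Nk R : ℕ}

lemma Hyp.GG_mem (H : Hyp a b N c0 n P M Nk R) {d : ℕ} (i : Fin (2 * k + 1))
    {y y' : F[X]} (hy : y ∈ degreeLT F (n i)) (hy' : y' ∈ degreeLT F (n i))
    (hd : y - y' ∈ degreeLT F d) :
    GG k (a i) (b i) N y - GG k (a i) (b i) N y' ∈ degreeLT F (Nk + d) := by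
  have h := GG_sub_mem (k := k) (a := a i) (b := b i) H.N0 (le_refl (a i).natDegree)
    (H.hx i y hy) (H.hx i y' hy') hd
  apply V_mono _ h
  have := H.hA i
  omega

lemma Hyp.EE_shift (H : Hyp a b N c0 n P M Nk R) {d : ℕ} (hd : ∀ i, d ≤ n i)
    (y : ∀ i, degreeLT F (n i)) (z : Fin (2 * k + 1) → degreeLT F d) :
    EE a b N c0 n (shiftN hd y z) - EE a b N c0 n y ∈ degreeLT F (Nk + d) := by
  unfold EE
  have h1 : (∑ i, GG k (a i) (b i) N (shiftN hd y z i : degreeLT F (n i)) + c0)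
      - (∑ i, GG k (a i) (b i) N (y i : F[X]) + c0)
      = ∑ i, (GG k (a i) (b i) N (shiftN hd y z i : degreeLT F (n i))
        - GG k (a i) (b i) N (y i : F[X])) := by
    rw [Finset.sum_sub_distrib]; ring
  rw [h1]
  apply Submodule.sum_mem
  intro i _
  apply H.GG_mem i (shiftN hd y z i).2 (y i).2
  rw [shiftN_coe, add_sub_cancel_left]
  exact (z i).2

/-- The value of the functional at the error polynomial. -/
lemma lin_EE (H : Hyp a b N c0 n P M Nk R) {L : F[X] →ₗ[F] F} {d : ℕ} {g : F[X]}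
    (hg : g.Monic) (hd : g.natDegree = d) (hK : Kn L Nk g)
    {y : ∀ i, degreeLT F (n i)} (hy : EE a b N c0 n y ∈ degreeLT F (Nk + d)) :
    L (EE a b N c0 n y) = ∑ i, L ((GG k (a i) (b i) N (y i)) %ₘ g) + L (c0 %ₘ g) := by
  rw [redN H.hNk hg hd hK hy]
  unfold EE
  have h1 : (∑ i, GG k (a i) (b i) N (y i) + c0) %ₘ g
      = ∑ i, (GG k (a i) (b i) N (y i)) %ₘ g + c0 %ₘ g := by
    have := map_add (modByMonicHom g) (∑ i, GG k (a i) (b i) N (y i)) c0
    rw [map_sum] at this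
    simpa only [modByMonicHom_apply] using this
  rw [h1, map_add, map_sum]

variable [Fintype F]

/-- The tuples whose error polynomial has small degree. -/
noncomputable def Yd (a b : Fin (2 * k + 1) → F[X]) (N c0 : F[X]) (n : Fin (2 * k + 1) → ℕ)
    (r : ℕ) : Finset (∀ i, degreeLT F (n i)) :=
  Finset.univ.filter (fun y => EE a b N c0 n y ∈ degreeLT F r)

lemma mem_Yd {r : ℕ} {y : ∀ i, degreeLT F (n i)} :
    y ∈ Yd a b N c0 n r ↔ EE a b N c0 n y ∈ degreeLT F r := by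
  rw [Yd, Finset.mem_filter]
  exact ⟨fun h => h.2, fun h => ⟨Finset.mem_univ _, h⟩⟩

lemma shiftN_mem (H : Hyp a b N c0 n P M Nk R) {d : ℕ} (hd : ∀ i, d ≤ n i)
    {y : ∀ i, degreeLT F (n i)} (hy : y ∈ Yd a b N c0 n (Nk + d))
    (z : Fin (2 * k + 1) → degreeLT F d) : shiftN hd y z ∈ Yd a b N c0 n (Nk + d) := by
  rw [mem_Yd] at *
  have := Submodule.add_mem _ (H.EE_shift hd y z) hy
  rwa [sub_add_cancel] at this

/-- The complete sum of the `i`-th variable. -/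
noncomputable def CC (ψ : AddChar F ℂ) (L : F[X] →ₗ[F] F) (k : ℕ) (a b N g : F[X]) (d : ℕ) : ℂ :=
  ∑ v : degreeLT F d, ψ (L ((GG k a b N v) %ₘ g))

lemma sum_prod_pi {s : ℕ} {V : Type*} [Fintype V] (f : Fin s → V → ℂ) :
    ∏ i, ∑ v, f i v = ∑ x : Fin s → V, ∏ i, f i (x i) := sum_prod_eq f

omit [Fintype F] in
/-- The value of a map modulo `g` only depends on the residue class. -/
lemma GG_mod_shift (k : ℕ) (a b : F[X]) {N : F[X]} (hN : N ≠ 0) {g : F[X]} (hg : g.Monic)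
    (y z : F[X]) : (GG k a b N (y + z)) %ₘ g = (GG k a b N (y %ₘ g + z)) %ₘ g := by
  apply mod_eq_of_dvd hg
  apply GG_dvd k a b hN
  have := dvd_sub_mod g y
  have e : y + z - (y %ₘ g + z) = y - y %ₘ g := by ring
  rw [e]
  exact this

/-- Auxiliary function. -/
noncomputable def ft (ψ : AddChar F ℂ) (L : F[X] →ₗ[F] F) (k : ℕ) (a b N g y : F[X]) (d : ℕ)
    (v : degreeLT F d) : ℂ := ψ (L ((GG k a b N (y %ₘ g + (v : F[X]))) %ₘ g))

lemma sum_ft (ψ : AddChar F ℂ) (L : F[X] →ₗ[F] F) (k : ℕ) (a b N : F[X]) {g : F[X]} {d : ℕ}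
    (hg : g.Monic) (hd : g.natDegree = d) (y : F[X]) :
    ∑ v : degreeLT F d, ft ψ L k a b N g y d v = CC ψ L k a b N g d := by
  have h := Equiv.sum_comp (Equiv.addLeft (⟨y %ₘ g, mod_mem hg hd _⟩ : degreeLT F d))
      (fun z : degreeLT F d => ψ (L ((GG k a b N (z : F[X])) %ₘ g)))
  unfold CC
  rw [← h]
  rfl

lemma psi_shift {ψ : AddChar F ℂ} (H : Hyp a b N c0 n P M Nk R) {L : F[X] →ₗ[F] F} {d : ℕ}
    (hdn : ∀ i, d ≤ n i) {g : F[X]} (hg : g.Monic) (hd : g.natDegree = d) (hK : Kn L Nk g)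
    {y : ∀ i, degreeLT F (n i)} (hy : y ∈ Yd a b N c0 n (Nk + d))
    (z : Fin (2 * k + 1) → degreeLT F d) :
    ψ (L (EE a b N c0 n (shiftN hdn y z)))
      = ψ (L (c0 %ₘ g)) * ∏ i, ft ψ L k (a i) (b i) N g (y i) d (z i) := by
  have h2 := mem_Yd.1 (shiftN_mem H hdn hy z)
  rw [lin_EE H hg hd hK h2, add_comm, AddChar.map_add_eq_mul, char_sum]
  have h3 : ∀ i, ψ (L ((GG k (a i) (b i) N (shiftN hdn y z i : degreeLT F (n i))) %ₘ g))
      = ft ψ L k (a i) (b i) N g (y i) d (z i) := by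
    intro i
    rw [shiftN_coe, GG_mod_shift k (a i) (b i) H.N0 hg]
    rfl
  rw [Finset.prod_congr rfl (fun i _ => h3 i)]

lemma sum_shiftN {ψ : AddChar F ℂ} (H : Hyp a b N c0 n P M Nk R) {L : F[X] →ₗ[F] F} {d : ℕ}
    (hdn : ∀ i, d ≤ n i) {g : F[X]} (hg : g.Monic) (hd : g.natDegree = d) (hK : Kn L Nk g)
    {y : ∀ i, degreeLT F (n i)} (hy : y ∈ Yd a b N c0 n (Nk + d)) :
    ‖∑ z : Fin (2 * k + 1) → degreeLT F d, ψ (L (EE a b N c0 n (shiftN hdn y z)))‖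
      = ∏ i, ‖CC ψ L k (a i) (b i) N g d‖ := by
  rw [Finset.sum_congr rfl (fun z _ => psi_shift H hdn hg hd hK hy z), ← Finset.mul_sum,
    ← sum_prod_pi (fun i (v : degreeLT F d) => ft ψ L k (a i) (b i) N g (y i) d v),
    Finset.prod_congr rfl (fun i _ => sum_ft ψ L k (a i) (b i) N hg hd (y i)), norm_mul,
    AddChar.norm_apply, one_mul, norm_prod]

/-- Bound for the inner sum. -/
lemma inner_boundN {ψ : AddChar F ℂ} (H : Hyp a b N c0 n P M Nk R) {L : F[X] →ₗ[F] F} {d : ℕ}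
    (hdn : ∀ i, d ≤ n i) {g : F[X]} (hg : g.Monic) (hd : g.natDegree = d) (hK : Kn L Nk g) :
    ‖∑ y ∈ Yd a b N c0 n (Nk + d), ψ (L (EE a b N c0 n y))‖
      ≤ ((Yd a b N c0 n (Nk + d)).card : ℝ) *
        ∏ i, (‖CC ψ L k (a i) (b i) N g d‖ / (Fintype.card F : ℝ) ^ d) := by
  set Y := Yd a b N c0 n (Nk + d) with hY
  set q : ℝ := (Fintype.card F : ℝ) with hq
  have hq0 : 0 < q := by rw [hq]; exact_mod_cast Fintype.card_pos
  have h1 : ∀ z : Fin (2 * k + 1) → degreeLT F d, ∑ y ∈ Y, ψ (L (EE a b N c0 n y))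
      = ∑ y ∈ Y, ψ (L (EE a b N c0 n (shiftN hdn y z))) := by
    intro z
    symm
    refine Finset.sum_bij' (fun y _ => shiftN hdn y z)
      (fun y _ => shiftN hdn y (-z)) ?_ ?_ ?_ ?_ ?_
    · intro y hy; exact shiftN_mem H hdn hy z
    · intro y hy; exact shiftN_mem H hdn hy (-z)
    · intro y _
      funext i
      apply Subtype.ext
      rw [shiftN_coe, shiftN_coe]
      simp
    · intro y _
      funext i
      apply Subtype.ext
      rw [shiftN_coe, shiftN_coe]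
      simp
    · intro y _; rfl
  have h2 : ((q ^ d) ^ (2 * k + 1) : ℝ) * ‖∑ y ∈ Y, ψ (L (EE a b N c0 n y))‖
      = ‖∑ y ∈ Y, ∑ z : Fin (2 * k + 1) → degreeLT F d,
        ψ (L (EE a b N c0 n (shiftN hdn y z)))‖ := by
    rw [Finset.sum_comm, Finset.sum_congr rfl (fun z _ => (h1 z).symm), Finset.sum_const,
      nsmul_eq_mul, norm_mul, Complex.norm_natCast, Finset.card_univ, Fintype.card_fun, card_V,
      Fintype.card_fin]
    push_cast
    rfl
  have h3 : ‖∑ y ∈ Y, ∑ z : Fin (2 * k + 1) → degreeLT F d,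
        ψ (L (EE a b N c0 n (shiftN hdn y z)))‖
      ≤ (Y.card : ℝ) * ∏ i, ‖CC ψ L k (a i) (b i) N g d‖ := by
    refine le_trans (norm_sum_le _ _) ?_
    rw [← nsmul_eq_mul, ← Finset.sum_const]
    apply Finset.sum_le_sum
    intro y hy
    exact le_of_eq (sum_shiftN H hdn hg hd hK hy)
  have hpos : 0 < (q ^ d) ^ (2 * k + 1) := by positivity
  rw [Finset.prod_div_distrib, Finset.prod_const, Finset.card_univ, Fintype.card_fin,
    ← mul_div_assoc, le_div_iff₀ hpos, mul_comm, h2]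
  exact h3

omit [Fintype F] in
lemma exists_monic_irreducible {x y : F[X]} (hx : x ≠ 0) (h : ¬ IsCoprime x y) :
    ∃ ϖ : F[X], ϖ.Monic ∧ Irreducible ϖ ∧ ϖ ∣ x ∧ ϖ ∣ y := by
  by_contra hcon
  push Not at hcon
  apply h
  apply isCoprime_of_irreducible_dvd
  · rintro ⟨h0, -⟩; exact hx h0
  · intro z hz hzx hzy
    have hc : IsUnit (C z.leadingCoeff⁻¹ : F[X]) := by
      rw [isUnit_C]
      exact (inv_ne_zero (leadingCoeff_ne_zero.2 hz.ne_zero)).isUnit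
    have hass : Associated z (z * C z.leadingCoeff⁻¹) := ⟨hc.unit, by simp⟩
    apply hcon (z * C z.leadingCoeff⁻¹) (monic_mul_leadingCoeff_inv hz.ne_zero)
      (hass.irreducible hz) (hass.dvd_iff_dvd_left.1 hzx) (hass.dvd_iff_dvd_left.1 hzy)

section
variable {ψ : AddChar F ℂ} (hψ : ψ ≠ 1) (hk : 2 ≤ k)
  (hch : ∀ i : ℕ, 1 ≤ i → i ≤ k → ((i : ℕ) : F) ≠ 0)
  (hbig : Big (Fintype.card F) k)

include hψ hk hch hbig in
/-- The sum over level `d` of the products of the complete sums. -/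
lemma level_prod (H : Hyp a b N c0 n P M Nk R) {d : ℕ} (hd : 1 ≤ d) (hdR : d ≤ R) :
    ∑ α ∈ DN F M Nk d, ∏ i,
      (‖CC ψ (lin α) k (a i) (b i) N (gk (lin α) Nk d) d‖ / (Fintype.card F : ℝ) ^ d)
      ≤ (Fintype.card F : ℝ) ^ (R - d) / 16 ^ d := by
  set q : ℝ := (Fintype.card F : ℝ) with hq
  have hq0 : 0 < q := by rw [hq]; exact_mod_cast Fintype.card_pos
  have hk0 : (0 : ℝ) < 2 * k := by
    have : (0 : ℝ) < k := by exact_mod_cast (show 0 < k by omega)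
    positivity
  have hA0 : 0 < Ac k d := by unfold Ac; positivity
  -- only the functionals with denominator prime to N contribute
  have h1 : ∑ α ∈ DN F M Nk d, ∏ i,
      (‖CC ψ (lin α) k (a i) (b i) N (gk (lin α) Nk d) d‖ / q ^ d)
      = ∑ α ∈ Dc F M Nk d N, ∏ i,
      (‖CC ψ (lin α) k (a i) (b i) N (gk (lin α) Nk d) d‖ / q ^ d) := by
    symm
    apply Finset.sum_subset (Finset.filter_subset _ _)
    intro α hα hα'
    have hα1 := mem_DN.1 hα
    have hcop : ¬ IsCoprime N (gk (lin α) Nk d) := fun h => hα' (mem_Dc.2 ⟨hα1, h⟩)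
    obtain ⟨hg, hgd, hK⟩ := gk_spec hα1
    obtain ⟨ϖ, hϖm, hϖ, hϖN, hϖg⟩ := exists_monic_irreducible H.N0 hcop
    obtain ⟨i, hi⟩ := H.hloc ϖ hϖ hϖN
    apply Finset.prod_eq_zero (Finset.mem_univ i)
    have := comp_zero hψ H.hNk hg hgd hK hα1.2 k (a i) (b i) H.N0 hϖm hϖ hϖg hϖN hi
    unfold CC
    rw [this]
    simp
  rw [h1]
  have hcopa : ∀ i, ∀ α ∈ Dc F M Nk d N, IsCoprime (a i) (gk (lin α) Nk d) := by
    intro i α hα
    obtain ⟨hα1, hα2⟩ := mem_Dc.1 hα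
    obtain ⟨hg, hgd, hK⟩ := gk_spec hα1
    apply isCoprime_of_irreducible_dvd
    · rintro ⟨-, h0⟩; exact hg.ne_zero h0
    · intro z hz hza hzg
      have hzN := H.hrad i z hz hza
      exact hz.not_isUnit (hα2.isUnit_of_dvd' hzN hzg)
  have h2 : ∀ i, ∀ α ∈ Dc F M Nk d N,
      ‖CC ψ (lin α) k (a i) (b i) N (gk (lin α) Nk d) d‖
        = ‖Cs ψ (La (lin α) Nk d N (a i)) k d‖ := by
    intro i α hα
    obtain ⟨hα1, hα2⟩ := mem_Dc.1 hα
    obtain ⟨hg, hgd, hK⟩ := gk_spec hα1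
    exact comp_coprime ψ (lin α) hg hgd k (a i) (b i) (nu_spec hα2)
  -- pointwise bound
  have h3 : ∀ α ∈ Dc F M Nk d N, ∏ i,
      (‖CC ψ (lin α) k (a i) (b i) N (gk (lin α) Nk d) d‖ / q ^ d)
      ≤ (1 / Ac k d) * ((∑ i : Fin (2 * k),
        (‖Cs ψ (La (lin α) Nk d N (a i.succ)) k d‖ / q ^ d) ^ (2 * k)) / ((2 * k : ℕ) : ℝ)) := by
    intro α hα
    obtain ⟨hα1, hα2⟩ := mem_Dc.1 hα
    obtain ⟨hg, hgd, hK⟩ := gk_spec hα1
    rw [Fin.prod_univ_succ]
    apply mul_le_mul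
    · rw [h2 0 α hα, div_le_div_iff₀ (by positivity) hA0, one_mul]
      apply sup_bound hψ hk hch hbig hd
      exact Lm_minor hk hd H.hNk hg hgd hK hα1.2
        (IsCoprime.mul_left (hcopa 0 α hα) (nu_coprime hα2))
    · refine le_trans (amgm (show 0 < 2 * k by omega) _ (fun i => by positivity)) ?_
      apply div_le_div_of_nonneg_right _ (by positivity)
      apply Finset.sum_le_sum
      intro i _
      rw [h2 i.succ α hα]
    · exact Finset.prod_nonneg (fun i _ => by positivity)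
    · positivity
  refine le_trans (Finset.sum_le_sum h3) ?_
  rw [← Finset.mul_sum, ← Finset.sum_div, Finset.sum_comm]
  have h4 : ∀ i : Fin (2 * k), ∑ α ∈ Dc F M Nk d N,
      (‖Cs ψ (La (lin α) Nk d N (a i.succ)) k d‖ / q ^ d) ^ (2 * k)
      ≤ q ^ (R - d) * (2 * k : ℝ) ^ (k * d + 1) := by
    intro i
    have h5 := mean_Dc hψ hk hd H.hNk (choose_ne hch) (M := M) (N := N) (a := a i.succ)
      (hcopa i.succ)
    rw [← hq] at h5
    have h6 : q ^ (k * d + 1) * (JB F k d : ℝ) = (2 * k : ℝ) ^ (k * d + 1) * q ^ (2 * k * (d + 1))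
      := (JB_mul (F := F) k d).resolve_right (by omega)
    have e1 : M - (Nk + d) = R - d := by have := H.hM; omega
    rw [h6, e1] at h5
    have h7 : ∑ α ∈ Dc F M Nk d N, (‖Cs ψ (La (lin α) Nk d N (a i.succ)) k d‖ / q ^ d) ^ (2 * k)
        = (∑ α ∈ Dc F M Nk d N, ‖Cs ψ (La (lin α) Nk d N (a i.succ)) k d‖ ^ (2 * k))
          / (q ^ d) ^ (2 * k) := by
      rw [Finset.sum_div]
      apply Finset.sum_congr rfl
      intro α _
      rw [div_pow]
    rw [h7, div_le_iff₀ (by positivity)]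
    have hq2 : 0 < q ^ (2 * k) := by positivity
    apply le_of_mul_le_mul_left _ hq2
    refine le_trans h5 (le_of_eq ?_)
    rw [← pow_mul]
    have : q ^ (2 * k * (d + 1)) = q ^ (2 * k) * q ^ (d * (2 * k)) := by
      rw [← pow_add]; congr 1; ring
    rw [this]; ring
  have h8 : ∑ i : Fin (2 * k), ∑ α ∈ Dc F M Nk d N,
      (‖Cs ψ (La (lin α) Nk d N (a i.succ)) k d‖ / q ^ d) ^ (2 * k)
      ≤ ((2 * k : ℕ) : ℝ) * (q ^ (R - d) * (2 * k : ℝ) ^ (k * d + 1)) := by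
    refine le_trans (Finset.sum_le_sum (fun i _ => h4 i)) ?_
    rw [Finset.sum_const, Finset.card_univ, Fintype.card_fin, nsmul_eq_mul]
  calc (1 / Ac k d) * ((∑ i : Fin (2 * k), ∑ α ∈ Dc F M Nk d N,
        (‖Cs ψ (La (lin α) Nk d N (a i.succ)) k d‖ / q ^ d) ^ (2 * k)) / ((2 * k : ℕ) : ℝ))
      ≤ (1 / Ac k d) * ((((2 * k : ℕ) : ℝ) * (q ^ (R - d) * (2 * k : ℝ) ^ (k * d + 1)))
        / ((2 * k : ℕ) : ℝ)) := by
        apply mul_le_mul_of_nonneg_left _ (by positivity)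
        exact div_le_div_of_nonneg_right h8 (by positivity)
    _ = q ^ (R - d) / 16 ^ d := by
        unfold Ac
        have h9 : ((2 * k : ℕ) : ℝ) ≠ 0 := by
          push_cast; positivity
        have h10 : (2 * k : ℝ) ^ (k * d + 1) ≠ 0 := by positivity
        rw [mul_div_cancel_left₀ _ h9]
        field_simp

include hψ hk hch hbig in
/-- The contribution of level `d`. -/
lemma level_boundN (H : Hyp a b N c0 n P M Nk R) {d : ℕ} (hd : 1 ≤ d) (hdR : d ≤ R) :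
    ‖∑ α ∈ DN F M Nk d, ∑ y, ψ (lin α (EE a b N c0 n y))‖
      ≤ ((Yd a b N c0 n (Nk + d)).card : ℝ) * (Fintype.card F : ℝ) ^ (R - d) / 16 ^ d := by
  rw [sum_DN_avg hψ (EE a b N c0 n) H.hE]
  refine le_trans (norm_sum_le _ _) ?_
  have h1 : ∀ α ∈ DN F M Nk d,
      ‖∑ y ∈ Finset.univ.filter (fun y => EE a b N c0 n y ∈ degreeLT F (Nk + d)),
        ψ (lin α (EE a b N c0 n y))‖
      ≤ ((Yd a b N c0 n (Nk + d)).card : ℝ) * ∏ i,
      (‖CC ψ (lin α) k (a i) (b i) N (gk (lin α) Nk d) d‖ / (Fintype.card F : ℝ) ^ d) := by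
    intro α hα
    obtain ⟨hg, hgd, hK⟩ := gk_spec (mem_DN.1 hα)
    exact inner_boundN H (fun i => le_trans hdR (H.hn i)) hg hgd hK
  refine le_trans (Finset.sum_le_sum h1) ?_
  rw [← Finset.mul_sum, mul_div_assoc]
  exact mul_le_mul_of_nonneg_left (level_prod hψ hk hch hbig H hd hdR) (by positivity)

end

end

end Pool.Agent.H598.DG
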