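import Pool.Agent.H598.DG.Maps

/-!
# Complete sums
-/

namespace Pool.Agent.H598.DG

open Finset Polynomial Pool.Agent.H598.FQ
open scoped Classical

variable {F : Type*} [Field F]

/-- The functional `w ↦ L ((h w) mod g)`. -/
noncomputable def Lm (L : F[X] →ₗ[F] F) (g h : F[X]) : F[X] →ₗ[F] F :=
  (L.comp (modByMonicHom g)).comp (LinearMap.mulLeft F h)

lemma Lm_apply (L : F[X] →ₗ[F] F) (g h w : F[X]) : Lm L g h w = L ((h * w) %ₘ g) := rfl

lemma mod_eq_of_dvd {g : F[X]} (hg : g.Monic) {w w' : F[X]} (h : g ∣ w - w') :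
    w %ₘ g = w' %ₘ g := modByMonic_eq_of_dvd_sub hg h

lemma Lm_congr (L : F[X] →ₗ[F] F) {g : F[X]} (hg : g.Monic) (h : F[X]) {w w' : F[X]}
    (hw : g ∣ w - w') : Lm L g h w = Lm L g h w' := by
  rw [Lm_apply, Lm_apply]
  congr 1
  apply mod_eq_of_dvd hg
  rw [← mul_sub]
  exact Dvd.dvd.mul_left hw h

lemma dvd_sub_mod (g w : F[X]) : g ∣ w - w %ₘ g := by
  have := modByMonic_add_div w g
  exact ⟨w /ₘ g, by linear_combination (-1 : F[X]) * this⟩

lemma Lm_pow_mod (L : F[X] →ₗ[F] F) {g : F[X]} (hg : g.Monic) (h : F[X]) (k : ℕ) (x : F[X]) :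
    Lm L g h ((x %ₘ g) ^ k) = Lm L g h (x ^ k) := by
  symm
  apply Lm_congr L hg
  exact dvd_trans (dvd_sub_mod g x) (sub_dvd_pow_sub_pow _ _ _)

section
variable [Fintype F]

/-- The complete sum is a sum over `k`-th powers if the modulus is prime to `N`. -/
lemma comp_coprime (ψ : AddChar F ℂ) (L : F[X] →ₗ[F] F) {g : F[X]} {d : ℕ} (hg : g.Monic)
    (hd : g.natDegree = d) (k : ℕ) (a b : F[X]) {N ν : F[X]} (hν : g ∣ ν * N - 1) :
    ‖∑ v : degreeLT F d, ψ (L ((GG k a b N v) %ₘ g))‖ = ‖Cs ψ (Lm L g (a * ν)) k d‖ := by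
  have h1 : ∀ v : degreeLT F d, ψ (L ((GG k a b N v) %ₘ g))
      = ψ (-(Lm L g (a * ν) (b ^ k)))
        * ψ (Lm L g (a * ν) (((b + N * (v : F[X])) %ₘ g) ^ k)) := by
    intro v
    rw [← AddChar.map_add_eq_mul, Lm_pow_mod L hg]
    congr 1
    have h2 : (GG k a b N v) %ₘ g = ((a * ν) * ((b + N * (v : F[X])) ^ k - b ^ k)) %ₘ g := by
      apply mod_eq_of_dvd hg
      have e := GG_mul k a b N (v : F[X])
      have e2 : GG k a b N v - (a * ν) * ((b + N * (v : F[X])) ^ k - b ^ k)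
          = -((ν * N - 1) * GG k a b N v) := by
        have : (a * ν) * ((b + N * (v : F[X])) ^ k - b ^ k) = ν * (N * GG k a b N v) := by
          rw [e]; ring
        rw [this]; ring
      rw [e2]
      exact (Dvd.dvd.mul_right hν _).neg_right
    rw [h2, ← Lm_apply, map_sub]
    ring
  rw [Finset.sum_congr rfl (fun v _ => h1 v), ← Finset.mul_sum, norm_mul, AddChar.norm_apply,
    one_mul]
  let e : degreeLT F d → degreeLT F d := fun v => ⟨(b + N * (v : F[X])) %ₘ g, mod_mem hg hd _⟩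
  have hinj : Function.Injective e := by
    intro v v' h
    have h2 : (b + N * (v : F[X])) %ₘ g = (b + N * (v' : F[X])) %ₘ g := congrArg Subtype.val h
    have h3 : g ∣ N * ((v : F[X]) - v') := by
      have h4 : g ∣ (b + N * (v : F[X])) - (b + N * (v' : F[X])) := by
        have e1 := dvd_sub_mod g (b + N * (v : F[X]))
        have e2 := dvd_sub_mod g (b + N * (v' : F[X]))
        rw [h2] at e1
        have := dvd_sub e1 e2
        have e3 : b + N * (v : F[X]) - (b + N * (v' : F[X])) %ₘ g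
            - (b + N * (v' : F[X]) - (b + N * (v' : F[X])) %ₘ g)
            = b + N * (v : F[X]) - (b + N * (v' : F[X])) := by ring
        rwa [e3] at this
      have e4 : N * ((v : F[X]) - v') = (b + N * (v : F[X])) - (b + N * (v' : F[X])) := by ring
      rw [e4]; exact h4
    have h5 : g ∣ (v : F[X]) - v' := by
      have e5 : (v : F[X]) - v' = ν * (N * ((v : F[X]) - v')) - (ν * N - 1) * ((v : F[X]) - v') := by
        ring
      rw [e5]
      exact dvd_sub (Dvd.dvd.mul_left h3 _) (Dvd.dvd.mul_right hν _)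
    have h6 : (v : F[X]) %ₘ g = (v' : F[X]) %ₘ g := mod_eq_of_dvd hg h5
    rw [mod_eq_self hg hd v.2, mod_eq_self hg hd v'.2] at h6
    exact Subtype.ext h6
  have hbij : Function.Bijective e := Finite.injective_iff_bijective.1 hinj
  unfold Cs
  rw [← Function.Bijective.sum_comp hbij
    (fun z : degreeLT F d => ψ (Lm L g (a * ν) ((z : F[X]) ^ k)))]

/-- The complete sum vanishes if the modulus is divisible by a prime factor of `N` at which the
derivative is invertible. -/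
lemma comp_zero {ψ : AddChar F ℂ} (hψ : ψ ≠ 1) {L : F[X] →ₗ[F] F} {g : F[X]} {d Nk : ℕ}
    (hNk : 1 ≤ Nk) (hg : g.Monic) (hd : g.natDegree = d) (hK : Kn L Nk g)
    (hmin : ∀ h : F[X], h ≠ 0 → h.natDegree < d → ¬ Kn L Nk h)
    (k : ℕ) (a b : F[X]) {N ϖ : F[X]} (hN : N ≠ 0) (hϖm : ϖ.Monic) (hϖ : Irreducible ϖ)
    (hϖg : ϖ ∣ g) (hϖN : ϖ ∣ N) (hu : ¬ ϖ ∣ (k : F[X]) * a * b ^ (k - 1)) :
    ∑ v : degreeLT F d, ψ (L ((GG k a b N v) %ₘ g)) = 0 := by
  obtain ⟨g', hg'⟩ := hϖg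
  set δ := ϖ.natDegree with hδ
  have hδ1 : 1 ≤ δ := hϖ.natDegree_pos
  have hg'0 : g' ≠ 0 := by
    rintro rfl
    rw [mul_zero] at hg'
    exact hg.ne_zero hg'
  have hdeg : g'.natDegree + δ = d := by
    rw [← hd, hg', natDegree_mul hϖ.ne_zero hg'0, add_comm]
  set κ : F[X] := (k : F[X]) * a * b ^ (k - 1) with hκ
  -- the increments
  have hinc : ∀ v w : F[X], g ∣ GG k a b N (v + g' * w) - (GG k a b N v + g' * (κ * w)) := by
    intro v w
    have h1 := GG_sub k a b hN (v + g' * w) v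
    have h2 : N ∣ ∑ j ∈ Finset.range k, (b + N * (v + g' * w)) ^ j * (b + N * v) ^ (k - 1 - j)
        - (k : F[X]) * b ^ (k - 1) := by
      have e1 : (k : F[X]) * b ^ (k - 1) = ∑ j ∈ Finset.range k, b ^ j * b ^ (k - 1 - j) := by
        have : ∀ j ∈ Finset.range k, b ^ j * b ^ (k - 1 - j) = b ^ (k - 1) := by
          intro j hj
          have := Finset.mem_range.1 hj
          rw [← pow_add]; congr 1; omega
        rw [Finset.sum_congr rfl this, Finset.sum_const, Finset.card_range, nsmul_eq_mul]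
      rw [e1, ← Finset.sum_sub_distrib]
      apply Finset.dvd_sum
      intro j _
      have e2 : N ∣ (b + N * (v + g' * w)) ^ j - b ^ j := by
        refine dvd_trans ?_ (sub_dvd_pow_sub_pow _ _ _)
        exact ⟨v + g' * w, by ring⟩
      have e3 : N ∣ (b + N * v) ^ (k - 1 - j) - b ^ (k - 1 - j) := by
        refine dvd_trans ?_ (sub_dvd_pow_sub_pow _ _ _)
        exact ⟨v, by ring⟩
      have e4 : (b + N * (v + g' * w)) ^ j * (b + N * v) ^ (k - 1 - j) - b ^ j * b ^ (k - 1 - j)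
          = ((b + N * (v + g' * w)) ^ j - b ^ j) * (b + N * v) ^ (k - 1 - j)
            + b ^ j * ((b + N * v) ^ (k - 1 - j) - b ^ (k - 1 - j)) := by ring
      rw [e4]
      exact dvd_add (Dvd.dvd.mul_right e2 _) (Dvd.dvd.mul_left e3 _)
    obtain ⟨U, hU⟩ := dvd_trans hϖN h2
    have e5 : GG k a b N (v + g' * w) - (GG k a b N v + g' * (κ * w)) = g * (a * w * U) := by
      have e6 : GG k a b N (v + g' * w) - (GG k a b N v + g' * (κ * w))
          = (GG k a b N (v + g' * w) - GG k a b N v) - g' * (κ * w) := by ring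
      rw [e6, h1, hg']
      have e7 : ∑ j ∈ Finset.range k, (b + N * (v + g' * w)) ^ j * (b + N * v) ^ (k - 1 - j)
          = (k : F[X]) * b ^ (k - 1) + ϖ * U := by rw [← hU]; ring
      rw [e7, hκ]
      ring
    rw [e5]
    exact dvd_mul_right _ _
  let ℓ : degreeLT F δ →ₗ[F] F := (Lm L g (g' * κ)).comp (degreeLT F δ).subtype
  have hℓ : ∀ w : degreeLT F δ, ℓ w = L ((g' * (κ * w)) %ₘ g) := by
    intro w
    change Lm L g (g' * κ) (w : F[X]) = _
    rw [Lm_apply, mul_assoc]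
  -- the functional does not vanish
  have hne : ¬ ∀ w, ℓ w = 0 := by
    intro h0
    have h1 : ∀ u : F[X], L ((g' * (κ * u)) %ₘ g) = 0 := by
      intro u
      have h2 := h0 ⟨u %ₘ ϖ, mod_mem hϖm rfl u⟩
      rw [hℓ] at h2
      rw [← h2]
      congr 1
      apply mod_eq_of_dvd hg
      obtain ⟨t, ht⟩ := dvd_sub_mod ϖ u
      refine ⟨κ * t, ?_⟩
      change g' * (κ * u) - g' * (κ * (u %ₘ ϖ)) = _
      have : g' * (κ * u) - g' * (κ * (u %ₘ ϖ)) = g' * κ * (u - u %ₘ ϖ) := by ring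
      rw [this, ht, hg']
      ring
    have hcop : IsCoprime ϖ κ := (EuclideanDomain.dvd_or_coprime ϖ κ hϖ).resolve_left hu
    obtain ⟨r, μ, hrμ⟩ := hcop
    apply hmin g' hg'0 (by omega)
    intro y hy
    have h3 : g' * y ∈ degreeLT F (Nk + d) := by
      apply V_mono _ (mul_mem_VN (le_refl g'.natDegree) hy)
      omega
    rw [redN hNk hg hd hK h3, ← h1 (μ * y)]
    congr 1
    apply mod_eq_of_dvd hg
    refine ⟨r * y, ?_⟩
    have e8 : g' * y - g' * (κ * (μ * y)) = g' * y * (1 - μ * κ) := by ring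
    rw [e8, ← hrμ, hg']
    ring
  have hsum := sum_char_lin hψ ℓ
  rw [if_neg hne] at hsum
  -- averaging
  have havg : (Fintype.card (degreeLT F δ) : ℂ) * ∑ v : degreeLT F d, ψ (L ((GG k a b N v) %ₘ g))
      = 0 := by
    have h4 : ∀ w : degreeLT F δ, ∑ v : degreeLT F d, ψ (L ((GG k a b N v) %ₘ g))
        = ∑ v : degreeLT F d, ψ (L ((GG k a b N v) %ₘ g)) * ψ (ℓ w) := by
      intro w
      have hw : g' * (w : F[X]) ∈ degreeLT F d := by
        have := mul_mem_VN (le_refl g'.natDegree) w.2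
        rwa [add_comm, hdeg] at this
      rw [← Equiv.sum_comp (Equiv.addRight (⟨g' * (w : F[X]), hw⟩ : degreeLT F d))]
      apply Finset.sum_congr rfl
      intro v _
      rw [Equiv.coe_addRight, ← AddChar.map_add_eq_mul, hℓ]
      congr 1
      have h5 : (GG k a b N ((v + ⟨g' * (w : F[X]), hw⟩ : degreeLT F d) : F[X])) %ₘ g
          = (GG k a b N v + g' * (κ * (w : F[X]))) %ₘ g := mod_eq_of_dvd hg (hinc v w)
      rw [h5, add_modByMonic, map_add]
    rw [← nsmul_eq_mul, ← Finset.card_univ, ← Finset.sum_const,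
      Finset.sum_congr rfl (fun w _ => h4 w)]
    rw [Finset.sum_comm]
    apply Finset.sum_eq_zero
    intro v _
    rw [← Finset.mul_sum, hsum, mul_zero]
  rcases mul_eq_zero.1 havg with h | h
  · exfalso
    rw [card_V] at h
    have : (Fintype.card F : ℂ) ≠ 0 := by
      have := Fintype.card_ne_zero (α := F)
      exact_mod_cast this
    push_cast at h
    exact pow_ne_zero _ this h
  · exact h

end

/-- The transformed functional is minor at scale `d - 1`. -/
lemma Lm_minor {L : F[X] →ₗ[F] F} {g : F[X]} {d Nk k : ℕ} (hk : 2 ≤ k) (hd1 : 1 ≤ d)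
    (hNk : 1 ≤ Nk) (hg : g.Monic) (hd : g.natDegree = d) (hK : Kn L Nk g)
    (hmin : ∀ h : F[X], h ≠ 0 → h.natDegree < d → ¬ Kn L Nk h)
    {h : F[X]} (hcop : IsCoprime h g) : Mi (Lm L g h) k (d - 1) := by
  intro h' h'0 hdeg
  by_contra hcon
  push Not at hcon
  obtain ⟨μ, r, hμ⟩ := hcop
  apply hmin h' h'0 (by omega)
  intro y hy
  have h3 : h' * y ∈ degreeLT F (Nk + d) := by
    apply V_mono _ (mul_mem_VN hdeg hy)
    omega
  rw [redN hNk hg hd hK h3]
  have h4 : Lm L g h (h' * ((μ * y) %ₘ g)) = 0 := by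
    apply hcon
    apply V_mono _ (mod_mem hg hd (μ * y))
    have : (d - 1) * 1 ≤ (k - 1) * (d - 1) := by
      rw [mul_comm]; exact Nat.mul_le_mul_right _ (by omega)
    omega
  rw [Lm_apply] at h4
  rw [← h4]
  congr 1
  apply mod_eq_of_dvd hg
  obtain ⟨t, ht⟩ := dvd_sub_mod g (μ * y)
  refine ⟨r * h' * y + h * h' * t, ?_⟩
  have e1 : h' * y - h * (h' * ((μ * y) %ₘ g))
      = h' * y * (1 - μ * h) + h * h' * (μ * y - (μ * y) %ₘ g) := by ring
  rw [e1, ht, ← hμ]
  ring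

section
variable [Fintype F]

lemma Lm_Cs_succ (ψ : AddChar F ℂ) (L : F[X] →ₗ[F] F) {g : F[X]} {d : ℕ} (hg : g.Monic)
    (hd : g.natDegree = d) (h : F[X]) (k : ℕ) :
    Cs ψ (Lm L g h) k (d + 1) = (Fintype.card F : ℂ) * Cs ψ (Lm L g h) k d := by
  unfold Cs
  rw [← sum_succ_mod hg hd (fun z => ψ (Lm L g h (z ^ k)))]
  apply Finset.sum_congr rfl
  intro x _
  rw [Lm_pow_mod L hg]

end

end Pool.Agent.H598.DG
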