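import Pool.Agent.H598.DG.Bound

/-!
# The place at infinity
-/

namespace Pool.Agent.H598.DG

open Finset Polynomial Pool.Agent.H598.FQ
open scoped Classical

variable {F : Type*} [Field F]

section
variable {k : ℕ} {a b : Fin (2 * k + 1) → F[X]} {N c0 : F[X]} {n P : Fin (2 * k + 1) → ℕ}
  {M Nk R : ℕ}

/-- The condition at infinity: the `i₀`-th variable has a fixed non-zero leading coefficient and
the corresponding term is dominant. -/
structure Inf {k : ℕ} (a b : Fin (2 * k + 1) → F[X]) (N : F[X])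
    (n P : Fin (2 * k + 1) → ℕ) (M : ℕ) (i₀ : Fin (2 * k + 1)) (c : F) : Prop where
  ha : a i₀ ≠ 0
  hc : c ≠ 0
  hcoeff : ∀ y ∈ degreeLT F (n i₀), (b i₀ + N * y).coeff (P i₀) = c
  hdeg : (a i₀).natDegree + (k - 1) * P i₀ + n i₀ = M

/-- Modify one coefficient of one entry. -/
noncomputable def trN {s : ℕ} {n : Fin s → ℕ} (i₀ : Fin s) (j : ℕ) (hj : j < n i₀) (c : F)
    (y : ∀ i, degreeLT F (n i)) : ∀ i, degreeLT F (n i) :=
  Function.update y i₀ (y i₀ + ⟨C c * X ^ j, by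
    rw [mem_V_iff]
    intro l hl
    rw [coeff_C_mul, coeff_X_pow, if_neg (by omega), mul_zero]⟩)

lemma trN_self {s : ℕ} {n : Fin s → ℕ} (i₀ : Fin s) (j : ℕ) (hj : j < n i₀) (c : F)
    (y : ∀ i, degreeLT F (n i)) :
    ((trN i₀ j hj c y i₀ : degreeLT F (n i₀)) : F[X]) = (y i₀ : F[X]) + C c * X ^ j := by
  unfold trN
  rw [Function.update_self]
  rfl

lemma trN_ne {s : ℕ} {n : Fin s → ℕ} (i₀ : Fin s) (j : ℕ) (hj : j < n i₀) (c : F)
    (y : ∀ i, degreeLT F (n i)) {i : Fin s} (hi : i ≠ i₀) : trN i₀ j hj c y i = y i := by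
  unfold trN
  rw [Function.update_of_ne hi]

lemma trN_trN {s : ℕ} {n : Fin s → ℕ} (i₀ : Fin s) (j : ℕ) (hj : j < n i₀) (c c' : F)
    (y : ∀ i, degreeLT F (n i)) : trN i₀ j hj c (trN i₀ j hj c' y) = trN i₀ j hj (c' + c) y := by
  funext i
  by_cases hi : i = i₀
  · subst hi
    apply Subtype.ext
    rw [trN_self, trN_self, trN_self, C_add]
    ring
  · rw [trN_ne _ _ _ _ _ hi, trN_ne _ _ _ _ _ hi, trN_ne _ _ _ _ _ hi]

lemma trN_zero {s : ℕ} {n : Fin s → ℕ} (i₀ : Fin s) (j : ℕ) (hj : j < n i₀)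
    (y : ∀ i, degreeLT F (n i)) : trN i₀ j hj 0 y = y := by
  funext i
  by_cases hi : i = i₀
  · subst hi
    apply Subtype.ext
    rw [trN_self]
    simp
  · rw [trN_ne _ _ _ _ _ hi]

lemma EE_tr (i₀ : Fin (2 * k + 1)) (j : ℕ) (hj : j < n i₀) (c : F)
    (y : ∀ i, degreeLT F (n i)) :
    EE a b N c0 n (trN i₀ j hj c y) - EE a b N c0 n y
      = GG k (a i₀) (b i₀) N ((y i₀ : F[X]) + C c * X ^ j) - GG k (a i₀) (b i₀) N (y i₀) := by
  unfold EE
  rw [← Finset.add_sum_erase _ _ (Finset.mem_univ i₀),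
    ← Finset.add_sum_erase _ (fun i => GG k (a i) (b i) N (y i)) (Finset.mem_univ i₀), trN_self]
  have : ∀ i ∈ (Finset.univ.erase i₀), GG k (a i) (b i) N (trN i₀ j hj c y i : degreeLT F (n i))
      = GG k (a i) (b i) N (y i) := by
    intro i hi
    rw [trN_ne _ _ _ _ _ (Finset.ne_of_mem_erase hi)]
  rw [Finset.sum_congr rfl this]
  ring

variable [Fintype F]

/-- Going up one level multiplies the count by `q`. -/
lemma card_Yd_succ (H : Hyp a b N c0 n P M Nk R) (hk : 1 ≤ k) (hkF : (k : F) ≠ 0)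
    {i₀ : Fin (2 * k + 1)} {c₀ : F} (I : Inf a b N n P M i₀ c₀) {d : ℕ} (hd : d < R) :
    (Yd a b N c0 n (Nk + d + 1)).card = (Yd a b N c0 n (Nk + d)).card * Fintype.card F := by
  have hM := H.hM
  have hn := H.hn i₀
  have hdeg := I.hdeg
  set r := Nk + d with hr
  set A := (a i₀).natDegree with hA
  obtain ⟨j, hj, hjr⟩ : ∃ j, j < n i₀ ∧ j + (A + (k - 1) * P i₀) = r := by
    refine ⟨n i₀ - R + d, by omega, by omega⟩
  set u : F := (a i₀).coeff A * ((k : F) * c₀ ^ (k - 1)) with hu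
  have hu0 : u ≠ 0 := by
    rw [hu]
    apply mul_ne_zero
    · rw [hA]
      exact leadingCoeff_ne_zero.2 I.ha
    · exact mul_ne_zero hkF (pow_ne_zero _ I.hc)
  have hCX : ∀ c : F, C c * X ^ j ∈ degreeLT F (n i₀) := by
    intro c
    rw [mem_V_iff]
    intro l hl
    rw [coeff_C_mul, coeff_X_pow, if_neg (by omega), mul_zero]
  have hcoeff : ∀ (c : F) (y : ∀ i, degreeLT F (n i)),
      (EE a b N c0 n (trN i₀ j hj c y)).coeff r = (EE a b N c0 n y).coeff r + u * c := by
    intro c y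
    have hy' : (y i₀ : F[X]) + C c * X ^ j ∈ degreeLT F (n i₀) :=
      Submodule.add_mem _ (y i₀).2 (hCX c)
    have h1 := GG_coeff (k := k) (a := a i₀) (b := b i₀) H.N0 (j := j) (le_refl A)
      (y := (y i₀ : F[X])) (c := c) (H.hx i₀ _ (y i₀).2) (H.hx i₀ _ hy')
      (by rw [I.hcoeff _ hy', I.hcoeff _ (y i₀).2])
    rw [I.hcoeff _ (y i₀).2, hjr, ← EE_tr (a := a) (b := b) (c0 := c0) i₀ j hj c y,
      coeff_sub] at h1
    rw [hu, ← h1]; ring
  have hmem : ∀ (c : F) (y : ∀ i, degreeLT F (n i)),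
      y ∈ Yd a b N c0 n (r + 1) → trN i₀ j hj c y ∈ Yd a b N c0 n (r + 1) := by
    intro c y hy
    rw [mem_Yd] at *
    have hy' : (y i₀ : F[X]) + C c * X ^ j ∈ degreeLT F (n i₀) :=
      Submodule.add_mem _ (y i₀).2 (hCX c)
    have h1 := GG_sub_mem (k := k) (a := a i₀) (b := b i₀) H.N0 (le_refl A)
      (H.hx i₀ _ hy') (H.hx i₀ _ (y i₀).2) (d := j + 1) (by
        rw [add_sub_cancel_left, mem_V_succ_iff]
        exact natDegree_C_mul_X_pow_le c j)
    rw [← EE_tr (a := a) (b := b) (c0 := c0) i₀ j hj c y] at h1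
    have e : j + 1 + (A + (k - 1) * P i₀) = r + 1 := by omega
    rw [e] at h1
    have := Submodule.add_mem _ h1 hy
    rwa [sub_add_cancel] at this
  let cf : (∀ i, degreeLT F (n i)) → F := fun y => (EE a b N c0 n y).coeff r / u
  rw [← Finset.card_univ (α := F), ← Finset.card_product]
  symm
  refine Finset.card_bij' (fun yc _ => trN i₀ j hj yc.2 yc.1)
    (fun y _ => (trN i₀ j hj (-cf y) y, cf y)) ?_ ?_ ?_ ?_
  · rintro ⟨y, c⟩ hy
    rw [Finset.mem_product] at hy
    apply hmem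
    rw [mem_Yd]
    exact V_mono (Nat.le_succ _) (mem_Yd.1 hy.1)
  · intro y hy
    rw [Finset.mem_product]
    refine ⟨?_, Finset.mem_univ _⟩
    have h1 := hmem (-cf y) y hy
    rw [mem_Yd] at h1 ⊢
    apply mem_V_of_succ h1
    rw [hcoeff]
    simp only [cf]
    field_simp
    ring
  · rintro ⟨y, c⟩ hy
    rw [Finset.mem_product] at hy
    have hy1 := mem_Yd.1 hy.1
    have h3 : cf (trN i₀ j hj c y) = c := by
      simp only [cf]
      rw [hcoeff, mem_V_iff.1 hy1 r le_rfl, zero_add, mul_comm, mul_div_assoc, div_self hu0,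
        mul_one]
    simp only
    rw [h3, trN_trN]
    simp [trN_zero]
  · intro y _
    simp only
    rw [trN_trN]
    simp [trN_zero]

/-- The number of all tuples. -/
noncomputable def QQ (F : Type*) [Field F] [Fintype F] {s : ℕ} (n : Fin s → ℕ) : ℕ :=
  ∏ i, Fintype.card F ^ n i

lemma card_all {s : ℕ} (n : Fin s → ℕ) :
    Fintype.card (∀ i, degreeLT F (n i)) = QQ F n := by
  rw [Fintype.card_pi]
  unfold QQ
  apply Finset.prod_congr rfl
  intro i _
  exact card_V (n i)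

/-- The exact count at every level. -/
lemma card_Yd (H : Hyp a b N c0 n P M Nk R) (hk : 1 ≤ k) (hkF : (k : F) ≠ 0)
    {i₀ : Fin (2 * k + 1)} {c₀ : F} (I : Inf a b N n P M i₀ c₀) :
    ∀ e d : ℕ, d + e = R → (Yd a b N c0 n (Nk + d)).card * Fintype.card F ^ e = QQ F n
  | 0, d, h => by
      have h1 : Yd a b N c0 n (Nk + d) = Finset.univ := by
        ext y
        rw [mem_Yd]
        constructor
        · intro _; exact Finset.mem_univ _
        · intro _
          have e1 : Nk + d = M := by have := H.hM; omega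
          rw [e1]
          exact H.hE y
      rw [h1, Finset.card_univ, card_all, pow_zero, mul_one]
  | (e + 1), d, h => by
      have h1 := card_Yd H hk hkF I e (d + 1) (by omega)
      have h2 := card_Yd_succ H hk hkF I (d := d) (by omega)
      have e1 : Nk + (d + 1) = Nk + d + 1 := by ring
      rw [e1, h2] at h1
      rw [← h1, pow_succ]
      ring

end

end Pool.Agent.H598.DG
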