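import Pool.Agent.H598.DG.Comp

/-!
# The mean value over the functionals of level `d`
-/

namespace Pool.Agent.H598.DG

open Finset Polynomial Pool.Agent.H598.FQ
open scoped Classical

variable {F : Type*} [Field F]

lemma amgm {n : ℕ} (hn : 0 < n) (b : Fin n → ℝ) (hb : ∀ i, 0 ≤ b i) :
    ∏ i, b i ≤ (∑ i, b i ^ n) / n := by
  have hn' : (0 : ℝ) < n := by exact_mod_cast hn
  have h := Real.geom_mean_le_arith_mean_weighted (Finset.univ : Finset (Fin n))
    (fun _ => (1 / n : ℝ)) (fun i => b i ^ n) (fun _ _ => by positivity)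
    (by rw [Finset.sum_const, Finset.card_univ, Fintype.card_fin, nsmul_eq_mul]; field_simp)
    (fun i _ => pow_nonneg (hb i) n)
  have h1 : ∏ i, ((fun i => b i ^ n) i) ^ ((fun _ => (1 / n : ℝ)) i) = ∏ i, b i := by
    apply Finset.prod_congr rfl
    intro i _
    simp only [one_div]
    exact Real.pow_rpow_inv_natCast (hb i) hn.ne'
  rw [h1, ← Finset.mul_sum] at h
  calc ∏ i, b i ≤ 1 / (n : ℝ) * ∑ i, b i ^ n := h
    _ = (∑ i, b i ^ n) / n := by ring

lemma lin_vec (L : F[X] →ₗ[F] F) {n : ℕ} {w : F[X]} (hw : w ∈ degreeLT F n) :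
    lin (fun j : Fin n => L (X ^ (j : ℕ))) w = L w := by
  rw [lin_apply]
  rcases Nat.eq_zero_or_pos n with h0 | hpos
  · subst h0
    have : w = 0 := by
      ext j
      rw [mem_V_iff.1 hw j (Nat.zero_le _), coeff_zero]
    rw [this, map_zero]
    simp
  · obtain ⟨n', rfl⟩ : ∃ n', n = n' + 1 := ⟨n - 1, by omega⟩
    have h1 := as_sum_range_C_mul_X_pow' w (n := n' + 1) (by
      have := mem_V_succ_iff.1 hw
      omega)
    conv_rhs => rw [h1, map_sum]
    rw [Fin.sum_univ_eq_sum_range (fun j => L (X ^ j) * w.coeff j) (n' + 1)]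
    apply Finset.sum_congr rfl
    intro j _
    rw [← smul_eq_C_mul, map_smul, smul_eq_mul, mul_comm]

lemma sum_fiber_le {A B : Type*} [Fintype B] (S : Finset A) (v : A → B) (f : B → ℝ)
    (hf : ∀ b, 0 ≤ f b) (c : ℝ) (hc : ∀ b, ((S.filter (fun x => v x = b)).card : ℝ) ≤ c) :
    ∑ x ∈ S, f (v x) ≤ c * ∑ b, f b := by
  rw [← Finset.sum_fiberwise S v (fun x => f (v x)), Finset.mul_sum]
  apply Finset.sum_le_sum
  intro b _
  have h1 : ∀ x ∈ S.filter (fun x => v x = b), f (v x) = f b := by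
    intro x hx
    rw [(Finset.mem_filter.1 hx).2]
  rw [Finset.sum_congr rfl h1, Finset.sum_const, nsmul_eq_mul]
  exact mul_le_mul_of_nonneg_right (hc b) (hf b)

/-- The killing polynomial. -/
noncomputable def gk (L : F[X] →ₗ[F] F) (Nk d : ℕ) : F[X] :=
  if h : ism L Nk d then h.1.choose else 1

lemma gk_spec {L : F[X] →ₗ[F] F} {Nk d : ℕ} (h : ism L Nk d) :
    (gk L Nk d).Monic ∧ (gk L Nk d).natDegree = d ∧ Kn L Nk (gk L Nk d) := by
  unfold gk
  rw [dif_pos h]
  exact h.1.choose_spec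

/-- The inverse of `N` modulo `g`. -/
noncomputable def nu (N g : F[X]) : F[X] :=
  if h : ∃ ν, g ∣ ν * N - 1 then h.choose else 0

lemma nu_spec {N g : F[X]} (h : IsCoprime N g) : g ∣ nu N g * N - 1 := by
  have h1 : ∃ ν, g ∣ ν * N - 1 := by
    obtain ⟨u, v, huv⟩ := h
    exact ⟨u, -v, by linear_combination huv⟩
  unfold nu
  rw [dif_pos h1]
  exact h1.choose_spec

lemma nu_coprime {N g : F[X]} (h : IsCoprime N g) : IsCoprime (nu N g) g := by
  obtain ⟨t, ht⟩ := nu_spec h
  exact ⟨N, -t, by linear_combination ht⟩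

/-- The functional attached to a coefficient `a`. -/
noncomputable def La (L : F[X] →ₗ[F] F) (Nk d : ℕ) (N a : F[X]) : F[X] →ₗ[F] F :=
  Lm L (gk L Nk d) (a * nu N (gk L Nk d))

section
variable [Fintype F]

/-- The functionals of level `d` with denominator prime to `N`. -/
noncomputable def Dc (F : Type*) [Field F] [Fintype F] (M Nk d : ℕ) (N : F[X]) :
    Finset (Fin M → F) :=
  (DN F M Nk d).filter (fun α => IsCoprime N (gk (lin α) Nk d))

lemma mem_Dc {M Nk d : ℕ} {N : F[X]} {α : Fin M → F} :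
    α ∈ Dc F M Nk d N ↔ ism (lin α) Nk d ∧ IsCoprime N (gk (lin α) Nk d) := by
  rw [Dc, Finset.mem_filter, mem_DN]

/-- Two functionals of level `d` with the same restriction agree far out. -/
lemma agreeN {k M Nk d : ℕ} (hk : 2 ≤ k) (hd : 1 ≤ d) (hNk : 1 ≤ Nk) {N a : F[X]}
    {α β : Fin M → F} (hα : α ∈ Dc F M Nk d N) (hβ : β ∈ Dc F M Nk d N)
    (ha : IsCoprime a (gk (lin α) Nk d))
    (hr : ∀ w ∈ degreeLT F (k * d + 1), La (lin α) Nk d N a w = La (lin β) Nk d N a w) :
    ∀ w ∈ degreeLT F (Nk + d), lin α w = lin β w := by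
  rw [mem_Dc] at hα hβ
  obtain ⟨hα1, hα2⟩ := hα
  obtain ⟨hβ1, hβ2⟩ := hβ
  obtain ⟨hg, hgd, hK⟩ := gk_spec hα1
  obtain ⟨hg', hgd', hK'⟩ := gk_spec hβ1
  unfold La at hr
  set g := gk (lin α) Nk d with hgdef
  set g' := gk (lin β) Nk d with hg'def
  have hcop : IsCoprime (a * nu N g) g := IsCoprime.mul_left ha (nu_coprime hα2)
  have hgg : g = g' := by
    by_contra hne
    have h1 : g - g' ≠ 0 := sub_ne_zero.2 hne
    have h2 : (g - g').degree < g.degree := by
      apply degree_sub_lt_left _ hg.ne_zero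
      · rw [hg.leadingCoeff, hg'.leadingCoeff]
      · rw [degree_eq_natDegree hg.ne_zero, degree_eq_natDegree hg'.ne_zero, hgd, hgd']
    have h3 : (g - g').natDegree < d := by
      rw [← hgd]
      exact natDegree_lt_natDegree h1 h2
    obtain ⟨y, hy, hLy⟩ := Lm_minor hk hd hNk hg hgd hK hα1.2 hcop (g - g') h1 (by omega)
    apply hLy
    have h4 : g' * y ∈ degreeLT F (k * d + 1) := by
      rw [mem_V_succ_iff] at *
      refine le_trans natDegree_mul_le ?_
      obtain ⟨k', rfl⟩ : ∃ k', k = k' + 1 := ⟨k - 1, by omega⟩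
      have e1 : (k' + 1 - 1) * (d - 1) ≤ k' * d := by
        have : (k' + 1 - 1) = k' := by omega
        rw [this]
        exact Nat.mul_le_mul_left _ (by omega)
      have e2 : (k' + 1) * d = k' * d + d := by ring
      omega
    have h5 : Lm (lin α) g (a * nu N g) (g * y) = 0 := by
      rw [Lm_congr (lin α) hg _ (w' := 0) (by rw [sub_zero]; exact dvd_mul_right _ _), map_zero]
    have h6 : Lm (lin β) g' (a * nu N g') (g' * y) = 0 := by
      rw [Lm_congr (lin β) hg' _ (w' := 0) (by rw [sub_zero]; exact dvd_mul_right _ _), map_zero]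
    rw [sub_mul, map_sub, h5, hr _ h4, h6, sub_zero]
  intro w hw
  rw [redN hNk hg hgd hK hw, redN hNk hg' hgd' hK' hw]
  rw [← hgg] at hr ⊢
  obtain ⟨μ, r, hμ⟩ := hcop
  have h7 : w %ₘ g = ((a * nu N g) * ((μ * w) %ₘ g)) %ₘ g := by
    apply mod_eq_of_dvd hg
    obtain ⟨t, ht⟩ := dvd_sub_mod g (μ * w)
    refine ⟨r * w + (a * nu N g) * t, ?_⟩
    have e1 : w - (a * nu N g) * ((μ * w) %ₘ g)
        = w * (1 - μ * (a * nu N g)) + (a * nu N g) * (μ * w - (μ * w) %ₘ g) := by ring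
    rw [e1, ht, ← hμ]
    ring
  rw [h7, ← Lm_apply, ← Lm_apply]
  apply hr
  apply V_mono _ (mod_mem hg hgd (μ * w))
  have := Nat.mul_le_mul_right d (show 1 ≤ k by omega)
  omega

/-- The mean value over the functionals of level `d` with denominator prime to `N`. -/
lemma mean_Dc {ψ : AddChar F ℂ} (hψ : ψ ≠ 1) {k M Nk d : ℕ} (hk : 2 ≤ k) (hd : 1 ≤ d)
    (hNk : 1 ≤ Nk) (hch : ∀ a, a ≤ k → ((k.choose a : ℕ) : F) ≠ 0) {N a : F[X]}
    (ha : ∀ α ∈ Dc F M Nk d N, IsCoprime a (gk (lin α) Nk d)) :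
    (Fintype.card F : ℝ) ^ (2 * k) *
        ∑ α ∈ Dc F M Nk d N, ‖Cs ψ (La (lin α) Nk d N a) k d‖ ^ (2 * k)
      ≤ (Fintype.card F : ℝ) ^ (M - (Nk + d)) *
        ((Fintype.card F : ℝ) ^ (k * d + 1) * (JB F k d : ℝ)) := by
  let vec : (Fin M → F) → (Fin (k * d + 1) → F) :=
    fun α j => La (lin α) Nk d N a (X ^ (j : ℕ))
  have h1 : ∀ α ∈ Dc F M Nk d N,
      (Fintype.card F : ℝ) ^ (2 * k) * ‖Cs ψ (La (lin α) Nk d N a) k d‖ ^ (2 * k)
      = ‖Cs ψ (lin (vec α)) k (d + 1)‖ ^ (2 * k) := by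
    intro α hα
    rw [mem_Dc] at hα
    obtain ⟨hg, hgd, hK⟩ := gk_spec hα.1
    have h2 : Cs ψ (lin (vec α)) k (d + 1) = Cs ψ (La (lin α) Nk d N a) k (d + 1) := by
      unfold Cs
      apply Finset.sum_congr rfl
      intro x _
      rw [lin_vec (La (lin α) Nk d N a) (pow_mem_V x.2)]
    rw [h2]
    unfold La
    rw [Lm_Cs_succ ψ (lin α) hg hgd, norm_mul, mul_pow, Complex.norm_natCast]
  rw [Finset.mul_sum, Finset.sum_congr rfl h1]
  refine le_trans (sum_fiber_le (Dc F M Nk d N) vec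
    (fun β => ‖Cs ψ (lin β) k (d + 1)‖ ^ (2 * k)) (fun β => by positivity)
    ((Fintype.card F : ℝ) ^ (M - (Nk + d))) ?_) ?_
  · intro β
    have h3 : ((Dc F M Nk d N).filter (fun α => vec α = β)).card
        ≤ Fintype.card F ^ (M - (Nk + d)) := by
      rcases Finset.eq_empty_or_nonempty ((Dc F M Nk d N).filter (fun α => vec α = β))
        with h | ⟨α₀, h₀⟩
      · rw [h]; simp
      · rw [← card_Bs]
        apply Finset.card_le_card_of_injOn (fun α => α - α₀)
        · intro α hα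
          rw [Finset.mem_coe, Finset.mem_filter] at hα
          rw [Finset.mem_filter] at h₀
          apply mem_Bs_of_lin
          intro w hw
          have h4 : lin (α - α₀) w = lin α w - lin α₀ w := by
            have := lin_add (α - α₀) α₀ w
            rw [sub_add_cancel] at this
            rw [this]; ring
          rw [h4, agreeN hk hd hNk hα.1 h₀.1 (ha α hα.1) _ w hw, sub_self]
          intro w hw
          rw [← lin_vec (La (lin α) Nk d N a) hw, ← lin_vec (La (lin α₀) Nk d N a) hw]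
          have e1 : vec α = vec α₀ := by rw [hα.2, h₀.2]
          change lin (vec α) w = lin (vec α₀) w
          rw [e1]
        · intro a _ b _ hab
          exact sub_left_injective hab
    have h5 : (((Dc F M Nk d N).filter (fun α => vec α = β)).card : ℝ)
        ≤ (Fintype.card F : ℝ) ^ (M - (Nk + d)) := by exact_mod_cast h3
    convert h5
  · apply mul_le_mul_of_nonneg_left _ (by positivity)
    have h6 := mean (P := d) hψ (show 0 < k by omega) hch (fun _ => 1) (fun _ => by simp)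
    simp only [one_mul] at h6
    exact h6

end

end Pool.Agent.H598.DG
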