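import Pool.Agent.H598.DG.Arc

/-!
# The polynomial maps of the circle method with coefficients and congruence conditions
-/

namespace Pool.Agent.H598.DG

open Finset Polynomial Pool.Agent.H598.FQ
open scoped Classical

variable {F : Type*} [Field F]

/-- The map `y ↦ a ((b + N y)^k - b^k) / N`. -/
noncomputable def GG (k : ℕ) (a b N y : F[X]) : F[X] :=
  a * y * ∑ j ∈ Finset.range k, (b + N * y) ^ j * b ^ (k - 1 - j)

lemma GG_mul (k : ℕ) (a b N y : F[X]) :
    N * GG k a b N y = a * ((b + N * y) ^ k - b ^ k) := by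
  rw [← (Commute.all (b + N * y) b).mul_geom_sum₂ k]
  unfold GG
  ring

lemma GG_sub (k : ℕ) (a b : F[X]) {N : F[X]} (hN : N ≠ 0) (y y' : F[X]) :
    GG k a b N y - GG k a b N y' = a * (y - y') *
      ∑ j ∈ Finset.range k, (b + N * y) ^ j * (b + N * y') ^ (k - 1 - j) := by
  apply mul_left_cancel₀ hN
  rw [mul_sub, GG_mul, GG_mul]
  have h := (Commute.all (b + N * y) (b + N * y')).mul_geom_sum₂ k
  have h1 : b + N * y - (b + N * y') = N * (y - y') := by ring
  rw [h1] at h
  calc a * ((b + N * y) ^ k - b ^ k) - a * ((b + N * y') ^ k - b ^ k)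
      = a * ((b + N * y) ^ k - (b + N * y') ^ k) := by ring
    _ = a * (N * (y - y') *
        ∑ j ∈ Finset.range k, (b + N * y) ^ j * (b + N * y') ^ (k - 1 - j)) := by rw [h]
    _ = _ := by ring

lemma GG_dvd (k : ℕ) (a b : F[X]) {N : F[X]} (hN : N ≠ 0) {g y y' : F[X]} (h : g ∣ y - y') :
    g ∣ GG k a b N y - GG k a b N y' := by
  rw [GG_sub k a b hN]
  exact Dvd.dvd.mul_right (Dvd.dvd.mul_left h a) _

lemma natDegree_geom {k P : ℕ} {x x' : F[X]} (hx : x.natDegree ≤ P) (hx' : x'.natDegree ≤ P) :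
    (∑ j ∈ Finset.range k, x ^ j * x' ^ (k - 1 - j)).natDegree ≤ (k - 1) * P := by
  apply natDegree_sum_le_of_forall_le
  intro j hj
  have hj' := Finset.mem_range.1 hj
  refine le_trans natDegree_mul_le ?_
  have h2 : (x ^ j).natDegree ≤ j * P :=
    le_trans natDegree_pow_le (Nat.mul_le_mul_left _ hx)
  have h3 : (x' ^ (k - 1 - j)).natDegree ≤ (k - 1 - j) * P :=
    le_trans natDegree_pow_le (Nat.mul_le_mul_left _ hx')
  have h4 : j * P + (k - 1 - j) * P = (k - 1) * P := by
    rw [← add_mul]; congr 1; omega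
  omega

lemma GG_sub_mem {k : ℕ} {a b : F[X]} {N : F[X]} (hN : N ≠ 0) {A P d : ℕ}
    (ha : a.natDegree ≤ A) {y y' : F[X]} (hy : (b + N * y).natDegree ≤ P)
    (hy' : (b + N * y').natDegree ≤ P) (hd : y - y' ∈ degreeLT F d) :
    GG k a b N y - GG k a b N y' ∈ degreeLT F (d + (A + (k - 1) * P)) := by
  have e : a * (y - y') * ∑ j ∈ Finset.range k, (b + N * y) ^ j * (b + N * y') ^ (k - 1 - j)
      = (y - y') * (a * ∑ j ∈ Finset.range k, (b + N * y) ^ j * (b + N * y') ^ (k - 1 - j)) := by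
    ring
  rw [GG_sub k a b hN, e]
  apply mul_mem_V hd
  rw [mem_V_succ_iff]
  refine le_trans natDegree_mul_le ?_
  have := natDegree_geom (k := k) hy hy'
  omega

lemma coeff_geom {k P : ℕ} {x x' : F[X]} (hx : x.natDegree ≤ P) (hx' : x'.natDegree ≤ P)
    (hc : x.coeff P = x'.coeff P) :
    (∑ j ∈ Finset.range k, x ^ j * x' ^ (k - 1 - j)).coeff ((k - 1) * P)
      = (k : F) * x.coeff P ^ (k - 1) := by
  rw [finsetSum_coeff]
  have h2 : ∀ j ∈ Finset.range k, (x ^ j * x' ^ (k - 1 - j)).coeff ((k - 1) * P)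
      = x.coeff P ^ (k - 1) := by
    intro j hj
    have hj' := Finset.mem_range.1 hj
    have e2 : (k - 1) * P = j * P + (k - 1 - j) * P := by
      rw [← add_mul]; congr 1; omega
    rw [e2, coeff_mul_add_eq_of_natDegree_le
      (le_trans natDegree_pow_le (Nat.mul_le_mul_left _ hx))
      (le_trans natDegree_pow_le (Nat.mul_le_mul_left _ hx')),
      coeff_pow_of_natDegree_le hx, coeff_pow_of_natDegree_le hx', ← hc, ← pow_add]
    congr 1
    omega
  rw [Finset.sum_congr rfl h2, Finset.sum_const, Finset.card_range, nsmul_eq_mul]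

lemma GG_coeff {k : ℕ} {a b : F[X]} {N : F[X]} (hN : N ≠ 0) {A P j : ℕ}
    (ha : a.natDegree ≤ A) {y : F[X]} {c : F} (hy : (b + N * y).natDegree ≤ P)
    (hy' : (b + N * (y + C c * X ^ j)).natDegree ≤ P)
    (hc : (b + N * (y + C c * X ^ j)).coeff P = (b + N * y).coeff P) :
    (GG k a b N (y + C c * X ^ j) - GG k a b N y).coeff (j + (A + (k - 1) * P))
      = (a.coeff A * ((k : F) * (b + N * y).coeff P ^ (k - 1))) * c := by
  have e : a * (y + C c * X ^ j - y) *
      ∑ i ∈ Finset.range k, (b + N * (y + C c * X ^ j)) ^ i * (b + N * y) ^ (k - 1 - i)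
      = C c * (a * ∑ i ∈ Finset.range k,
        (b + N * (y + C c * X ^ j)) ^ i * (b + N * y) ^ (k - 1 - i)) * X ^ j := by
    ring
  rw [GG_sub k a b hN, e, add_comm j, coeff_mul_X_pow, coeff_C_mul,
    coeff_mul_add_eq_of_natDegree_le ha (natDegree_geom hy' hy), coeff_geom hy' hy hc, hc]
  ring

end Pool.Agent.H598.DG
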