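import Pool.Agent.H598.DG.Infinity

/-!
# The minor functionals
-/

namespace Pool.Agent.H598.DG

open Finset Polynomial Pool.Agent.H598.FQ
open scoped Classical

variable {F : Type*} [Field F]

/-- The signs. -/
noncomputable def sg (F : Type*) [Field F] (k : ℕ) (i : Fin (2 * k)) : F :=
  if (i : ℕ) < k then 1 else -1

lemma sg_ne (k : ℕ) (i : Fin (2 * k)) : sg F k i ≠ 0 := by
  unfold sg
  split_ifs <;> simp

lemma sum_sg (k : ℕ) : ∑ i, sg F k i = 0 := by
  unfold sg
  rw [Fin.sum_univ_eq_sum_range (fun i => if i < k then (1 : F) else -1) (2 * k), two_mul,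
    Finset.sum_range_add]
  have h1 : ∑ i ∈ Finset.range k, (if i < k then (1 : F) else -1) = k := by
    rw [Finset.sum_congr rfl (g := fun _ => (1 : F))]
    · simp
    · intro i hi
      rw [if_pos (Finset.mem_range.1 hi)]
  have h2 : ∑ i ∈ Finset.range k, (if k + i < k then (1 : F) else -1) = -k := by
    rw [Finset.sum_congr rfl (g := fun _ => (-1 : F))]
    · simp
    · intro i _
      rw [if_neg (by omega)]
  rw [h1, h2, add_neg_cancel]

section
variable [Fintype F]

/-- The mean value of an exponential sum. -/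
theorem mean_gen {ψ : AddChar F ℂ} (hψ : ψ ≠ 1) {k M : ℕ} {W : Type*} [Fintype W]
    (φ : W → F[X]) (hφ : ∀ w, φ w ∈ degreeLT F M) :
    ∑ α : Fin M → F, ‖∑ w, ψ (lin α (φ w))‖ ^ (2 * k)
      = (Fintype.card F : ℝ) ^ M * (Nat.card {x : Fin (2 * k) → W //
        ∑ i, C (sg F k i) * φ (x i) = 0} : ℝ) := by
  have h1 : ∀ α : Fin M → F,
      ((‖∑ w, ψ (lin α (φ w))‖ ^ (2 * k) : ℝ) : ℂ)
      = ∑ x : Fin (2 * k) → W, ψ (lin α (∑ i, C (sg F k i) * φ (x i))) := by
    intro α
    set z := ∑ w, ψ (lin α (φ w)) with hz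
    have e1 : ((‖z‖ ^ (2 * k) : ℝ) : ℂ) = ∏ i : Fin (2 * k), (if (i : ℕ) < k then z
        else (starRingEnd ℂ) z) := by
      have e2 : ((‖z‖ ^ (2 * k) : ℝ) : ℂ) = z ^ k * ((starRingEnd ℂ) z) ^ k := by
        rw [← mul_pow, Complex.mul_conj, pow_mul, Complex.normSq_eq_norm_sq]
        push_cast
        rfl
      rw [e2, Fin.prod_univ_eq_prod_range (fun i => if i < k then z else (starRingEnd ℂ) z) (2 * k),
        two_mul, Finset.prod_range_add]
      congr 1
      · rw [Finset.prod_congr rfl (g := fun _ => z)]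
        · simp
        · intro i hi
          rw [if_pos (Finset.mem_range.1 hi)]
      · rw [Finset.prod_congr rfl (g := fun _ => (starRingEnd ℂ) z)]
        · simp
        · intro i _
          rw [if_neg (by omega)]
    have e3 : ∀ i : Fin (2 * k), (if (i : ℕ) < k then z else (starRingEnd ℂ) z)
        = ∑ w, ψ (lin α (C (sg F k i) * φ w)) := by
      intro i
      have e4 : ∀ w, lin α (C (sg F k i) * φ w) = sg F k i * lin α (φ w) := by
        intro w
        rw [← smul_eq_C_mul, map_smul, smul_eq_mul]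
      by_cases hi : (i : ℕ) < k
      · rw [if_pos hi, hz]
        apply Finset.sum_congr rfl
        intro w _
        rw [e4]
        simp only [sg, if_pos hi, one_mul]
      · rw [if_neg hi, hz, map_sum]
        apply Finset.sum_congr rfl
        intro w _
        rw [e4]
        simp only [sg, if_neg hi, neg_mul, one_mul]
        rw [AddChar.map_neg_eq_conj]
    rw [e1, Finset.prod_congr rfl (fun i _ => e3 i), sum_prod_eq]
    apply Finset.sum_congr rfl
    intro x _
    rw [map_sum, char_sum]
  have h2 : ((∑ α : Fin M → F, ‖∑ w, ψ (lin α (φ w))‖ ^ (2 * k) : ℝ) : ℂ)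
      = (Fintype.card F : ℂ) ^ M * ((Finset.univ.filter (fun x : Fin (2 * k) → W =>
        ∑ i, C (sg F k i) * φ (x i) = 0)).card : ℂ) := by
    rw [← sum_all hψ (fun x : Fin (2 * k) → W => ∑ i, C (sg F k i) * φ (x i))]
    · rw [← Finset.sum_congr rfl (fun α _ => h1 α)]
      push_cast
      rfl
    · intro x
      apply Submodule.sum_mem
      intro i _
      rw [← smul_eq_C_mul]
      exact Submodule.smul_mem _ _ (hφ _)
  rw [Nat.card_eq_fintype_card, Fintype.card_subtype]
  exact_mod_cast h2

/-- The count belonging to one variable. -/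
lemma count_GG {k : ℕ} (hk : 0 < k) (hch : ∀ a, a ≤ k → ((k.choose a : ℕ) : F) ≠ 0)
    {a b N : F[X]} (ha : a ≠ 0) (hN : N ≠ 0) {n P : ℕ}
    (hx : ∀ y ∈ degreeLT F n, (b + N * y).natDegree ≤ P) :
    Nat.card {x : Fin (2 * k) → degreeLT F n //
        ∑ i, C (sg F k i) * GG k a b N (x i : F[X]) = 0} ≤ JB F k P := by
  refine le_trans ?_ (count_V (P := P) hk hch (sg F k) (sg_ne k) 0)
  have key : ∀ x : {x : Fin (2 * k) → degreeLT F n //
        ∑ i, C (sg F k i) * GG k a b N (x i : F[X]) = 0},
      ∑ i, C (sg F k i) * (b + N * (x.1 i : F[X])) ^ k = 0 := by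
    rintro ⟨x, hx0⟩
    simp only
    have h1 : ∑ i, C (sg F k i) * (a * (b + N * (x i : F[X])) ^ k)
        = ∑ i, C (sg F k i) * (a * b ^ k) := by
      have h2 : N * ∑ i, C (sg F k i) * GG k a b N (x i : F[X])
          = ∑ i, C (sg F k i) * (a * (b + N * (x i : F[X])) ^ k)
            - ∑ i, C (sg F k i) * (a * b ^ k) := by
        rw [Finset.mul_sum, ← Finset.sum_sub_distrib]
        apply Finset.sum_congr rfl
        intro i _
        have := GG_mul k a b N (x i : F[X])
        calc N * (C (sg F k i) * GG k a b N (x i : F[X]))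
            = C (sg F k i) * (N * GG k a b N (x i : F[X])) := by ring
          _ = _ := by rw [this]; ring
      rw [hx0, mul_zero] at h2
      exact (sub_eq_zero.1 h2.symm)
    have h3 : ∑ i, C (sg F k i) * (a * b ^ k) = 0 := by
      rw [← Finset.sum_mul, ← map_sum, sum_sg, C_0, zero_mul]
    rw [h3] at h1
    have h4 : a * ∑ i, C (sg F k i) * (b + N * (x i : F[X])) ^ k = 0 := by
      rw [← h1, Finset.mul_sum]
      apply Finset.sum_congr rfl
      intro i _
      ring
    exact (mul_eq_zero.1 h4).resolve_left ha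
  let Φ : {x : Fin (2 * k) → degreeLT F n //
        ∑ i, C (sg F k i) * GG k a b N (x i : F[X]) = 0} →
      {x : Fin (2 * k) → degreeLT F (P + 1) // ∑ i, C (sg F k i) * (x i : F[X]) ^ k = 0} :=
    fun x => ⟨fun i => ⟨b + N * (x.1 i : F[X]), mem_V_succ_iff.2 (hx _ (x.1 i).2)⟩, key x⟩
  apply Nat.card_le_card_of_injective Φ
  intro x x' h
  apply Subtype.ext
  funext i
  apply Subtype.ext
  have h1 : b + N * (x.1 i : F[X]) = b + N * (x'.1 i : F[X]) :=
    congrArg Subtype.val (congrFun (congrArg Subtype.val h) i)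
  exact mul_left_cancel₀ hN (add_left_cancel h1)

end

/-- The leading coefficient of the map. -/
lemma PL_GG {k : ℕ} (hk : 1 ≤ k) (a b : F[X]) {N : F[X]} (hN : N ≠ 0) :
    PL k (a * N ^ (k - 1)) (fun y => GG k a b N y) := by
  obtain ⟨j, rfl⟩ : ∃ j, k = j + 1 := ⟨k - 1, by omega⟩
  -- expansion
  have hexp : (fun y => GG (j + 1) a b N y) = fun y => ∑ i ∈ Finset.range (j + 1),
      (a * (((j + 1).choose (i + 1) : ℕ) : F[X]) * b ^ (j - i) * N ^ i) * y ^ (i + 1) := by
    funext y
    apply mul_left_cancel₀ hN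
    rw [GG_mul, add_comm b, add_pow, Finset.sum_range_succ', Finset.mul_sum]
    simp only [pow_zero, one_mul, Nat.sub_zero, Nat.choose_zero_right, Nat.cast_one, mul_one,
      add_sub_cancel_right]
    rw [Finset.mul_sum]
    apply Finset.sum_congr rfl
    intro i hi
    have e : j + 1 - (i + 1) = j - i := by omega
    rw [e, mul_pow]
    ring
  rw [hexp]
  have hterm : ∀ i ∈ Finset.range (j + 1), PL (j + 1)
      ((a * (((j + 1).choose (i + 1) : ℕ) : F[X]) * b ^ (j - i) * N ^ i)
        * (if i + 1 = j + 1 then (1 : F[X]) else 0))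
      (fun y => (a * (((j + 1).choose (i + 1) : ℕ) : F[X]) * b ^ (j - i) * N ^ i) * y ^ (i + 1))
      := by
    intro i hi
    have hij : i + 1 ≤ j + 1 := by have := Finset.mem_range.1 hi; omega
    exact PL_mul (j + 1) _ _ _ (PL_pow (j + 1) (i + 1) hij)
  have := PL_sum _ (j + 1) _ _ hterm
  convert this using 1
  rw [Finset.sum_range_succ, Finset.sum_eq_zero]
  · simp
  · intro i hi
    have : i + 1 ≠ j + 1 := by have := Finset.mem_range.1 hi; omega
    rw [if_neg this, mul_zero]

section
variable [Fintype F]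

/-- The kernel is small for minor functionals. -/
lemma card_kernel {L : F[X] →ₗ[F] F} {Nk R n m : ℕ} (hL : mis L Nk R) {A : F[X]} (hA : A ≠ 0)
    (hm : m ≤ Nk) (hAR : A.natDegree ≤ R) :
    Nat.card {a : degreeLT F n // ∀ b : degreeLT F m, L (A * ((a : F[X]) * b)) = 0}
      ≤ Fintype.card F ^ ((n - (R + 1 - A.natDegree)) + (Nk - m)) := by
  set r := R + 1 - A.natDegree with hr
  let Φ : {a : degreeLT F n // ∀ b : degreeLT F m, L (A * ((a : F[X]) * b)) = 0} →
      (Fin (n - r) → F) × (Fin (Nk - m) → F) := fun a =>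
    (fun j => (a.1 : F[X]).coeff (r + (j : ℕ)), fun j => L (A * ((a.1 : F[X]) * X ^ (m + (j : ℕ)))))
  have hΦ : Function.Injective Φ := by
    rintro ⟨a, ha⟩ ⟨a', ha'⟩ h
    have h1 : ∀ j : Fin (n - r), (a : F[X]).coeff (r + (j : ℕ)) = (a' : F[X]).coeff (r + (j : ℕ)) :=
      fun j => congrFun (congrArg Prod.fst h) j
    have h2 : ∀ j : Fin (Nk - m), L (A * ((a : F[X]) * X ^ (m + (j : ℕ))))
        = L (A * ((a' : F[X]) * X ^ (m + (j : ℕ)))) := fun j => congrFun (congrArg Prod.snd h) j
    apply Subtype.ext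
    apply Subtype.ext
    simp only
    by_contra hne
    have hδ : (a : F[X]) - (a' : F[X]) ≠ 0 := sub_ne_zero.2 hne
    have hδd : ((a : F[X]) - (a' : F[X])).natDegree ≤ R - A.natDegree := by
      rw [natDegree_le_iff_coeff_eq_zero]
      intro j hj
      rw [coeff_sub]
      by_cases hjn : j < n
      · have := h1 ⟨j - r, by omega⟩
        have e : r + (j - r) = j := by omega
        simp only [e] at this
        rw [this, sub_self]
      · rw [mem_V_iff.1 a.2 j (by omega), mem_V_iff.1 a'.2 j (by omega), sub_self]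
    apply hL (A * ((a : F[X]) - (a' : F[X]))) (mul_ne_zero hA hδ)
    · rw [natDegree_mul hA hδ]; omega
    · intro y hy
      -- linear in y
      have h3 : ∀ j, j < Nk → L (A * ((a : F[X]) - (a' : F[X])) * X ^ j) = 0 := by
        intro j hj
        have e : A * ((a : F[X]) - (a' : F[X])) * X ^ j
            = A * ((a : F[X]) * X ^ j) - A * ((a' : F[X]) * X ^ j) := by ring
        rw [e, map_sub]
        by_cases hjm : j < m
        · have hX : (X : F[X]) ^ j ∈ degreeLT F m := by
            rw [mem_degreeLT, degree_X_pow]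
            exact_mod_cast hjm
          rw [ha ⟨X ^ j, hX⟩, ha' ⟨X ^ j, hX⟩, sub_self]
        · have := h2 ⟨j - m, by omega⟩
          have e2 : m + (j - m) = j := by omega
          simp only [e2] at this
          rw [this, sub_self]
      rcases Nat.eq_zero_or_pos Nk with h0 | hpos
      · subst h0
        have : y = 0 := by
          ext j
          rw [mem_V_iff.1 hy j (Nat.zero_le _), coeff_zero]
        rw [this, mul_zero, map_zero]
      · obtain ⟨N', rfl⟩ : ∃ N', Nk = N' + 1 := ⟨Nk - 1, by omega⟩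
        have h4 := as_sum_range_C_mul_X_pow' y (n := N' + 1) (by
          have := mem_V_succ_iff.1 hy
          omega)
        rw [h4, Finset.mul_sum, map_sum]
        apply Finset.sum_eq_zero
        intro j hj
        have e3 : A * ((a : F[X]) - (a' : F[X])) * (C (y.coeff j) * X ^ j)
            = C (y.coeff j) * (A * ((a : F[X]) - (a' : F[X])) * X ^ j) := by ring
        rw [e3, ← smul_eq_C_mul, map_smul, h3 j (Finset.mem_range.1 hj), smul_zero]
  have h5 := Nat.card_le_card_of_injective Φ hΦ
  rw [Nat.card_prod, Nat.card_fun, Nat.card_fun] at h5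
  simp only [Nat.card_eq_fintype_card, Fintype.card_fin] at h5
  rw [pow_add]
  simpa only [Nat.card_eq_fintype_card] using h5

end

end Pool.Agent.H598.DG
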