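import Pool.Agent.H598.DG.Minor

/-!
# The Weyl bound for minor functionals
-/

namespace Pool.Agent.H598.DG

open Finset Polynomial Pool.Agent.H598.FQ
open scoped Classical

variable {F : Type*} [Field F] [Fintype F]

omit [Fintype F] in
lemma prod_memG {J n : ℕ} (hn : 1 ≤ n) (h : Fin (J + 1) → degreeLT F n) :
    ∏ i, (h i : F[X]) ∈ degreeLT F ((J + 1) * (n - 1) + 1) := by
  obtain ⟨n', rfl⟩ : ∃ n', n = n' + 1 := ⟨n - 1, by omega⟩
  exact prod_mem h

lemma card_tuplesG (L : F[X] →ₗ[F] F) (A : F[X]) {J n : ℕ} (hn : 1 ≤ n) :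
    Nat.card {h : Fin (J + 1) → degreeLT F n //
      ∀ x : degreeLT F n, L (A * (∏ i, (h i : F[X])) * x) = 0}
      ≤ (J + 1) * (Fintype.card F ^ n) ^ J +
        Nat.card {b : degreeLT F ((J + 1) * (n - 1) + 1) // ∀ a : degreeLT F n,
          L (A * ((a : F[X]) * b)) = 0} * (Fintype.card F * 2 ^ ((J + 1) * n)) ^ J := by
  set H := {b : degreeLT F ((J + 1) * (n - 1) + 1) // ∀ a : degreeLT F n,
      L (A * ((a : F[X]) * b)) = 0} with hH
  let Φ : {h : Fin (J + 1) → degreeLT F n //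
      ∀ x : degreeLT F n, L (A * (∏ i, (h i : F[X])) * x) = 0} →
      {h : Fin (J + 1) → degreeLT F n // ∏ i, (h i : F[X]) = 0} ⊕
      (Σ b : {b : H // (b.1 : F[X]) ≠ 0}, {h : Fin (J + 1) → degreeLT F n //
        ∏ i, (h i : F[X]) = (b.1.1 : F[X])}) := fun h =>
    if h0 : ∏ i, (h.1 i : F[X]) = 0 then Sum.inl ⟨h.1, h0⟩
    else Sum.inr ⟨⟨⟨⟨∏ i, (h.1 i : F[X]), prod_memG hn h.1⟩, fun a => by
      have e : A * ((a : F[X]) * ∏ i, (h.1 i : F[X])) = A * (∏ i, (h.1 i : F[X])) * a := by ring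
      exact (congrArg L e).trans (h.2 a)⟩, h0⟩, ⟨h.1, rfl⟩⟩
  let Ψ : {h : Fin (J + 1) → degreeLT F n // ∏ i, (h i : F[X]) = 0} ⊕
      (Σ b : {b : H // (b.1 : F[X]) ≠ 0}, {h : Fin (J + 1) → degreeLT F n //
        ∏ i, (h i : F[X]) = (b.1.1 : F[X])}) → (Fin (J + 1) → degreeLT F n) :=
    fun s => Sum.elim (fun h => h.1) (fun h => h.2.1) s
  have hΨ : ∀ h, Ψ (Φ h) = h.1 := by
    intro h
    simp only [Φ]
    split_ifs <;> rfl
  have hΦ : Function.Injective Φ := by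
    intro h h' hh
    apply Subtype.ext
    rw [← hΨ h, ← hΨ h', hh]
  have h2 := Nat.card_le_card_of_injective Φ hΦ
  refine le_trans h2 ?_
  rw [Nat.card_sum, Nat.card_sigma]
  apply Nat.add_le_add
  · exact card_prod_zero n J
  · have h3 : ∀ b : {b : H // (b.1 : F[X]) ≠ 0}, Nat.card {h : Fin (J + 1) → degreeLT F n //
        ∏ i, (h i : F[X]) = (b.1.1 : F[X])} ≤ (Fintype.card F * 2 ^ ((J + 1) * n)) ^ J := by
      intro b
      refine le_trans (card_prod_eq n J _ b.2) ?_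
      apply Nat.pow_le_pow_left
      apply Nat.mul_le_mul_left
      apply Nat.pow_le_pow_right (by norm_num)
      have h4 := mem_V_succ_iff.1 b.1.1.2
      have h5 : (J + 1) * (n - 1) ≤ (J + 1) * n := Nat.mul_le_mul_left _ (by omega)
      omega
    refine le_trans (Finset.sum_le_sum (fun b _ => h3 b)) ?_
    rw [Finset.sum_const, Finset.card_univ, smul_eq_mul]
    apply Nat.mul_le_mul_right
    rw [Nat.card_eq_fintype_card]
    exact Fintype.card_subtype_le _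

/-- The Weyl bound. -/
theorem weyl_gen {ψ : AddChar F ℂ} (hψ : ψ ≠ 1) {k : ℕ} (hk : 2 ≤ k)
    (hch : ∀ i : ℕ, 2 ≤ i → i ≤ k → ((i : ℕ) : F) ≠ 0) (L : F[X] →ₗ[F] F) {A : F[X]}
    {f : F[X] → F[X]} (hf : PL k A f) {n κ : ℕ} (hn : 1 ≤ n)
    (hK : Nat.card {a : degreeLT F n // ∀ b : degreeLT F ((k - 1) * (n - 1) + 1),
      L (A * ((a : F[X]) * b)) = 0} ≤ Fintype.card F ^ κ) :
    ‖∑ x : degreeLT F n, ψ (L (f x))‖ ^ (2 ^ (k - 1)) * (Fintype.card F : ℝ) ^ n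
      ≤ ((Fintype.card F : ℝ) ^ n) ^ (2 ^ (k - 1)) *
        (((k - 1 : ℕ) : ℝ) + (Fintype.card F : ℝ) ^ κ * 2 ^ ((k - 1) * (k - 2) * n)) := by
  obtain ⟨J, rfl⟩ : ∃ J, k = J + 2 := ⟨k - 2, by omega⟩
  have e1 : J + 2 - 1 = J + 1 := by omega
  have e2 : J + 2 - 2 = J := by omega
  rw [e1] at hK
  have h1 := weyl ψ hψ L n (J + 1) A f (fun i hi hi' => hch i hi hi') hf
  rw [cnt_eq] at h1
  have h2 := card_tuplesG L A (J := J) hn
  have h3 := dual_count (L.comp (LinearMap.mulLeft F A)) n ((J + 1) * (n - 1) + 1)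
  simp only [LinearMap.comp_apply, LinearMap.mulLeft_apply] at h3
  set q : ℝ := (Fintype.card F : ℝ) with hq
  have hq0 : 0 < q := by rw [hq]; exact_mod_cast Fintype.card_pos
  set K := Nat.card {b : degreeLT F ((J + 1) * (n - 1) + 1) // ∀ a : degreeLT F n,
      L (A * ((a : F[X]) * b)) = 0} with hKdef
  have h4 : K ≤ Fintype.card F ^ (J * (n - 1) + κ) := by
    have hqn : 0 < Fintype.card F ^ n := pow_pos Fintype.card_pos _
    apply Nat.le_of_mul_le_mul_left _ hqn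
    rw [h3]
    refine le_trans (Nat.mul_le_mul_left _ hK) (le_of_eq ?_)
    rw [← pow_add, ← pow_add]
    congr 1
    obtain ⟨n', rfl⟩ : ∃ n', n = n' + 1 := ⟨n - 1, by omega⟩
    simp only [Nat.add_sub_cancel]
    ring
  have h5 : ((Nat.card {h : Fin (J + 1) → degreeLT F n //
      ∀ x : degreeLT F n, L (A * (∏ i, (h i : F[X])) * x) = 0} : ℕ) : ℝ)
      ≤ (q ^ n) ^ J * (((J + 1 : ℕ) : ℝ) + q ^ κ * 2 ^ ((J + 1) * J * n)) := by
    have h6 : Nat.card {h : Fin (J + 1) → degreeLT F n //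
      ∀ x : degreeLT F n, L (A * (∏ i, (h i : F[X])) * x) = 0}
      ≤ (J + 1) * (Fintype.card F ^ n) ^ J +
        Fintype.card F ^ (J * (n - 1) + κ) * (Fintype.card F * 2 ^ ((J + 1) * n)) ^ J :=
      le_trans h2 (Nat.add_le_add_left (Nat.mul_le_mul_right _ h4) _)
    have h7 : (J + 1) * (Fintype.card F ^ n) ^ J +
        Fintype.card F ^ (J * (n - 1) + κ) * (Fintype.card F * 2 ^ ((J + 1) * n)) ^ J
        = (Fintype.card F ^ n) ^ J * ((J + 1) + Fintype.card F ^ κ * 2 ^ ((J + 1) * J * n)) := by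
      obtain ⟨n', rfl⟩ : ∃ n', n = n' + 1 := ⟨n - 1, by omega⟩
      simp only [Nat.add_sub_cancel]
      have e3 : (2 ^ ((J + 1) * (n' + 1))) ^ J = 2 ^ ((J + 1) * J * (n' + 1)) := by
        rw [← pow_mul]; congr 1; ring
      have e4 : (Fintype.card F ^ (n' + 1)) ^ J
          = Fintype.card F ^ (J * n') * Fintype.card F ^ J := by
        rw [← pow_mul, ← pow_add]; congr 1; ring
      rw [mul_pow, e3, pow_add (Fintype.card F) (J * n') κ, e4]
      ring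
    rw [h7] at h6
    rw [hq]
    exact_mod_cast h6
  rw [e1, e2]
  have h8 : ‖∑ x : degreeLT F n, ψ (L (f x))‖ ^ (2 ^ (J + 1)) * (q ^ n) ^ (J + 1)
      ≤ (q ^ n) ^ (2 ^ (J + 1)) *
        ((q ^ n) ^ J * (((J + 1 : ℕ) : ℝ) + q ^ κ * 2 ^ ((J + 1) * J * n))) :=
    le_trans h1 (mul_le_mul_of_nonneg_left h5 (by positivity))
  have hN : 0 < (q ^ n) ^ J := by positivity
  apply le_of_mul_le_mul_right _ hN
  calc _ = ‖∑ x : degreeLT F n, ψ (L (f x))‖ ^ (2 ^ (J + 1)) * (q ^ n) ^ (J + 1) := by ring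
    _ ≤ _ := h8
    _ = _ := by ring

end Pool.Agent.H598.DG
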